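import Pool.Agent.H70.PR.D12

/-!
# PR module D13: smooth pseudo-rotations, the two exported theorems (150 lines)

`discHomeo_of_psRot`: continuity from `ContDiffOn`; `fb`: `z = e x`, `f z = e (G x)`; `gb`: `G` is continuous and
`G (x+1) = G x + 1`, so onto; `z = e y = e (G x) = f (e x)`, `f' z = e x`. Derivatives at `0`: `0` is an interior point
of the disc (`HasFDerivWithinAt.hasFDerivAt`), `f' 0 = 0`. `det = 1` for `f` (`area`); `B ∘ A = id` (chain rule), so
`B.det = 1`. `vol`: `MeasureTheory.lintegral_abs_det_fderiv_eq_addHaar_image` with the derivative within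
`E` (`HasFDerivWithinAt.mono`), injectivity from `left`.
`D4`: `F` from `exists_annLift`; shift it so that `TopNum F α` (this keeps `A (e x) = ‖A (e x)‖ e (re F x)` since
`e (t + k) = e t`); `exists_bot`, `bot_eq_top`: `BotNum F α`; its `φ` has `φ x = re F x`.
`D6`: `limit_periodic`.
-/

open Complex Set Metric Topology Filter MeasureTheory
open Pool.Agent.H25.PR

namespace Pool.Agent.H70.PR

private lemma D13_circle {z : ℂ} (hz : ‖z‖ = 1) : ∃ x : ℝ, z = e x := by
  obtain ⟨w, hw, h1, _, _⟩ := pr_surj (w := z) (by rw [mem_closedBall_zero_iff, hz])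
  refine ⟨w.re, ?_⟩
  have h2 := norm_pr hw
  rw [h1, hz] at h2
  rw [← h1, pr, ← h2]
  simp

private lemma D13_nhds : Dsk ∈ 𝓝 (0 : ℂ) := closedBall_mem_nhds 0 one_pos

private lemma D13_der {f : ℂ → ℂ} (hf : ContDiffOn ℝ ((⊤ : ℕ∞) : WithTop ℕ∞) f Dsk) (z : ℂ)
    (hz : z ∈ Dsk) : HasFDerivWithinAt f (fderivWithin ℝ f Dsk z) Dsk z :=
  ((hf.differentiableOn (by simp)) z hz).hasFDerivWithinAt

private lemma D13_der0 {f : ℂ → ℂ} (hf : ContDiffOn ℝ ((⊤ : ℕ∞) : WithTop ℕ∞) f Dsk) :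
    HasFDerivAt f (fderivWithin ℝ f Dsk 0) 0 :=
  (D13_der hf 0 (mem_closedBall_self zero_le_one)).hasFDerivAt D13_nhds

private lemma D13_det {f f' : ℂ → ℂ} {A B : ℂ →L[ℝ] ℂ} (hA : HasFDerivAt f A 0)
    (hB : HasFDerivAt f' B 0) (h0 : f 0 = 0) (hl : ∀ z ∈ Dsk, f' (f z) = z)
    (hd : A.det = 1) : B.det = 1 := by
  have h1 : HasFDerivAt (fun z => f' (f z)) (B.comp A) 0 := by
    refine HasFDerivAt.comp (g := f') (0 : ℂ) ?_ hA
    rw [h0]
    exact hB
  have h2 : HasFDerivAt (fun z => f' (f z)) (ContinuousLinearMap.id ℝ ℂ) 0 := by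
    refine (hasFDerivAt_id (0 : ℂ)).congr_of_eventuallyEq ?_
    filter_upwards [D13_nhds] with z hz
    exact hl z hz
  have h3 := h1.unique h2
  have h4 : (B.comp A).det = B.det * A.det := by
    rw [ContinuousLinearMap.det, ContinuousLinearMap.det, ContinuousLinearMap.det]
    exact LinearMap.det_comp _ _
  rw [h3, hd, mul_one] at h4
  rw [← h4, ContinuousLinearMap.det]
  exact LinearMap.det_id

theorem discHomeo_of_psRot {f f' : ℂ → ℂ} {α : ℝ} (hf : PsRot f f') (hr : HasRot f α) :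
    ∃ B : ℂ →L[ℝ] ℂ, DiscHomeo f f' (fderivWithin ℝ f Dsk 0) B := by
  obtain ⟨G, hG, hGe, _⟩ := hr
  have hp := hf.pair
  have hA := D13_der0 hp.smooth
  have hB := D13_der0 hp.smooth'
  have hdA : (fderivWithin ℝ f Dsk 0).det = 1 := hp.area 0 (mem_closedBall_self zero_le_one)
  have hdB := D13_det hA hB hf.zero hp.left hdA
  refine ⟨fderivWithin ℝ f' Dsk 0, hp.smooth.continuousOn, hp.smooth'.continuousOn, hp.maps,
    hp.maps', hp.left, hp.right, hf.zero, ?_, ?_, hA, hB, ?_, ?_, ?_⟩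
  · intro z hz
    obtain ⟨x, rfl⟩ := D13_circle hz
    rw [hGe, norm_e]
  · intro z hz
    obtain ⟨y, rfl⟩ := D13_circle hz
    have hs : Function.Surjective G := hG.surjective G.tendsto_atTop G.tendsto_atBot
    obtain ⟨x, rfl⟩ := hs y
    rw [← hGe, hp.left _ (by rw [mem_closedBall_zero_iff, norm_e]), norm_e]
  · rw [hdA]
    exact one_pos
  · rw [hdB]
    exact one_pos
  · intro E hE hm
    have hinj : InjOn f E := by
      intro z hz w hw h
      rw [← hp.left z (hE hz), ← hp.left w (hE hw), h]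
    have h1 := lintegral_abs_det_fderiv_eq_addHaar_image volume hm
      (fun z hz => (D13_der hp.smooth z (hE hz)).mono hE) hinj
    rw [← h1, setLIntegral_congr_fun hm (g := fun _ => 1), setLIntegral_const, one_mul]
    intro z hz
    have h3 : (fderivWithin ℝ f Dsk z).det = 1 := hp.area z (hE hz)
    simp [h3]

/-- D4: the rotation number at `0` is the rotation number of the boundary -/
theorem D4 (f f' : ℂ → ℂ) (α : ℝ) (hf : PsRot f f') (hr : HasRot f α) (hα : Irrational α) :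
    ∃ G : CircleDeg1Lift, Continuous G ∧
      (∀ x : ℝ, fderivWithin ℝ f Dsk 0 (e x) = ‖fderivWithin ℝ f Dsk 0 (e x)‖ * e (G x)) ∧
      CircleDeg1Lift.translationNumber G = α := by
  obtain ⟨B, hD⟩ := discHomeo_of_psRot hf hr
  obtain ⟨F, hF, hFe⟩ := exists_annLift hD
  obtain ⟨k, hk⟩ := topNum_of_hasRot hF hr
  obtain ⟨F1, hF1, hF1A⟩ := annLift_shift hF (-k)
  have ht := topNum_shift hk (-k) hF1
  have ht' : TopNum F1 α := by
    have : α + k + ((-k : ℤ) : ℝ) = α := by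
      push_cast
      ring
    rwa [this] at ht
  obtain ⟨τ, hτ⟩ := exists_bot hF1A
  have hτα : τ = α := bot_eq_top hF1A hf.noper hτ ht'
  subst hτα
  obtain ⟨φ, hφc, hφ, hφt⟩ := hτ
  refine ⟨φ, hφc, fun x => ?_, hφt⟩
  have h1 : F (x : ℂ) + ((-k : ℤ) : ℂ) = (φ x : ℂ) := by
    rw [← hF1, hφ]
  have h2 : (F (x : ℂ)).re = φ x + k := by
    have h3 := congrArg Complex.re h1
    simp only [Complex.add_re, Complex.intCast_re, Complex.ofReal_re] at h3
    push_cast at h3
    linarith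
  rw [← (e_eq_iff (F (x : ℂ)).re (φ x)).2 ⟨k, h2⟩]
  exact hFe x

/-- D6: limits of pseudo-rotations with rotation numbers tending to `p/q` are periodic -/
theorem D6 (fn fn' : ℕ → ℂ → ℂ) (αn : ℕ → ℝ) (g : ℂ → ℂ) (p : ℤ) (q : ℕ) (hq : 1 ≤ q)
    (hf : ∀ n, PsRot (fn n) (fn' n)) (hr : ∀ n, HasRot (fn n) (αn n))
    (hα : ∀ n, Irrational (αn n))
    (hlim : TendstoUniformlyOn fn g atTop Dsk)
    (hα' : Tendsto αn atTop (𝓝 ((p : ℝ) / q))) :
    ∀ z ∈ Dsk, g^[q] z = z := by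
  choose Bn hBn using fun n => discHomeo_of_psRot (hf n) (hr n)
  exact limit_periodic fn fn' (fun n => fderivWithin ℝ (fn n) Dsk 0) Bn αn g p q hq hBn
    (fun n => (hf n).noper) hr hα hlim hα'

end Pool.Agent.H70.PR
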