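import Pool.Agent.H70.PR.DefsC

/-!
# PR module C1: walks (130 lines)

`walk_trans`: induction on the first walk (`add_assoc`).
`walk_loop`: induction on `n ≥ 1` (`n = 1` is the walk itself).
`walk_iterate`: induction on `l`, for all `z i k`. `l = 1`: the edge `z - k ∈ b i`,
`F (z - k) - (k' - k) = F z - k' ∈ b j` (`F (z - k) = F z - k` for integers `k`, from `per`).
`l + 1` with `l ≥ 1`: `F^[l+1] z = F^[l] (F z)`, `F z ∈ Strip` lies in some `b i1 + k1` (`cover`); edge
`i → i1` of displacement `k1 - k`, then the walk `i1 → j` of displacement `k' - k1`.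
`walk_sign`: `d = u + v` the displacement of `W : i → j → i`. If `0 ≤ d`: `W` `l` times, first loop `l`
times, second loop `d + k` times: total `l d + l k - (d + k) l = 0`. If `d < 0`: `W` `k` times, first
loop `l - d` times, second loop `k` times: `k d + (l - d) k - k l = 0`. (First loop: `Walk i i k`, second:
`Walk j j (-l)`; the walk `i → j` once in each copy of `W`; insert the loops at `i` and `j` in one copy:
e.g. `i →(loops)→ i → j →(loops)→ j → i →(rest of the W)`.) Contradiction with `hz`.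
-/

open Complex Set Metric Topology Filter MeasureTheory
open Pool.Agent.H25.PR

namespace Pool.Agent.H70.PR

variable {ι : Type}

theorem walk_trans {F : ℂ → ℂ} {b : ι → Set ℂ} {i j k : ι} {m n : ℤ} (h : Walk F b i j m)
    (h' : Walk F b j k n) : Walk F b i k (m + n) := by
  induction h with
  | one he => exact Walk.cons he h'
  | cons he _ ih =>
    rw [add_assoc]
    exact Walk.cons he (ih h')

theorem walk_loop {F : ℂ → ℂ} {b : ι → Set ℂ} {i : ι} {m : ℤ} (h : Walk F b i i m) (n : ℕ)
    (hn : 1 ≤ n) : Walk F b i i (n * m) := by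
  induction n, hn using Nat.le_induction with
  | base => simpa using h
  | succ n _ ih =>
    have h2 := walk_trans ih h
    have e : (((n + 1 : ℕ) : ℤ)) * m = n * m + m := by push_cast; ring
    rw [e]
    exact h2

theorem per_int {F : ℂ → ℂ} (hp : ∀ z, F (z + 1) = F z + 1) (z : ℂ) (k : ℤ) :
    F (z + k) = F z + k := by
  induction k using Int.induction_on with
  | zero => simp
  | succ n ih =>
    have h := hp (z + (n : ℤ))
    rw [ih] at h
    push_cast at h ⊢
    rw [← add_assoc, h, add_assoc]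
  | pred n ih =>
    have h := hp (z + ((-(n : ℤ) - 1 : ℤ) : ℂ))
    have e1 : z + ((-(n : ℤ) - 1 : ℤ) : ℂ) + 1 = z + ((-(n : ℤ) : ℤ) : ℂ) := by push_cast; ring
    rw [e1, ih] at h
    have h2 : F (z + ((-(n : ℤ) - 1 : ℤ) : ℂ)) = F z + ((-(n : ℤ) : ℤ) : ℂ) - 1 := by
      rw [h]; ring
    rw [h2]
    push_cast
    ring

theorem walk_iterate {F : ℂ → ℂ} (hp : ∀ z, F (z + 1) = F z + 1) (hs : ∀ z ∈ Strip, F z ∈ Strip)
    {b : ι → Set ℂ} (hcov : ∀ z ∈ Strip, ∃ i, ∃ k : ℤ, z - k ∈ b i) (l : ℕ) (hl : 1 ≤ l) (z : ℂ)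
    (hz : z ∈ Strip) (i j : ι) (k k' : ℤ) (h1 : z - k ∈ b i) (h2 : F^[l] z - k' ∈ b j) :
    Walk F b i j (k' - k) := by
  have edge : ∀ (z : ℂ) (i j : ι) (k k' : ℤ), z - k ∈ b i → F z - k' ∈ b j →
      Edge F b i j (k' - k) := by
    intro z i j k k' h1 h2
    refine ⟨z - k, h1, ?_⟩
    have h3 : F (z - k) = F z - k := by
      have h4 := per_int hp z (-k)
      push_cast at h4
      rw [sub_eq_add_neg, h4]
      ring
    have h5 : F (z - k) - ((k' - k : ℤ) : ℂ) = F z - k' := by
      rw [h3]; push_cast; ring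
    rw [h5]
    exact h2
  induction l, hl using Nat.le_induction generalizing z i k with
  | base => exact Walk.one (edge z i j k k' h1 (by simpa using h2))
  | succ l _ ih =>
    obtain ⟨i1, k1, h3⟩ := hcov (F z) (hs z hz)
    have h4 : F^[l] (F z) - k' ∈ b j := by
      rw [Function.iterate_succ_apply] at h2
      exact h2
    have h5 := ih (F z) (hs z hz) i1 k1 h3 h4
    have h6 := Walk.cons (edge z i i1 k k1 h1 h3) h5
    have e : k1 - k + (k' - k1) = k' - k := by ring
    rw [e] at h6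
    exact h6

theorem walk_sign {F : ℂ → ℂ} {b : ι → Set ℂ} (hz : ∀ i, ¬ Walk F b i i 0)
    (hr : ∀ i j, ∃ m, Walk F b i j m) {i j : ι} {k l : ℤ} (hk : 0 < k) (hl : 0 < l)
    (h1 : Walk F b i i k) (h2 : Walk F b j j (-l)) : False := by
  obtain ⟨u, hu⟩ := hr i j
  obtain ⟨v, hv⟩ := hr j i
  have gen : ∀ a p q : ℕ, 1 ≤ a → 1 ≤ p → 1 ≤ q →
      Walk F b i i (2 * a * (u + v) + p * k - q * l) := by
    intro a p q ha hp hq
    have hW : Walk F b i i (u + v) := walk_trans hu hv
    have w1 := walk_loop hW (2 * a - 1) (by omega)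
    have w2 := walk_loop h1 p hp
    have w3 := walk_loop h2 q hq
    have w4 := walk_trans w1 (walk_trans w2 (walk_trans hu (walk_trans w3 hv)))
    have e : (((2 * a - 1 : ℕ) : ℤ) * (u + v) + (p * k + (u + (q * (-l) + v))))
        = 2 * a * (u + v) + p * k - q * l := by
      have h3 : (((2 * a - 1 : ℕ) : ℤ)) = 2 * a - 1 := by omega
      rw [h3]; ring
    rw [e] at w4
    exact w4
  by_cases hd : 0 ≤ u + v
  · have h3 := gen l.toNat (2 * l.toNat) (2 * (u + v + k).toNat) (by omega) (by omega) (by omega)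
    have e : (2 * (l.toNat : ℤ) * (u + v) + ((2 * l.toNat : ℕ) : ℤ) * k
        - ((2 * (u + v + k).toNat : ℕ) : ℤ) * l) = 0 := by
      have e1 : ((l.toNat : ℕ) : ℤ) = l := Int.toNat_of_nonneg hl.le
      have e2 : (((u + v + k).toNat : ℕ) : ℤ) = u + v + k := Int.toNat_of_nonneg (by omega)
      push_cast
      rw [e1]
      rw [e2]
      ring
    rw [e] at h3
    exact hz i h3
  · have h3 := gen k.toNat (2 * (l - (u + v)).toNat) (2 * k.toNat) (by omega) (by omega) (by omega)
    have e : (2 * (k.toNat : ℤ) * (u + v) + ((2 * (l - (u + v)).toNat : ℕ) : ℤ) * k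
        - ((2 * k.toNat : ℕ) : ℤ) * l) = 0 := by
      have e1 : ((k.toNat : ℕ) : ℤ) = k := Int.toNat_of_nonneg hk.le
      have e2 : (((l - (u + v)).toNat : ℕ) : ℤ) = l - (u + v) := Int.toNat_of_nonneg (by omega)
      push_cast
      rw [e1]
      rw [e2]
      ring
    rw [e] at h3
    exact hz i h3

end Pool.Agent.H70.PR
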