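import Pool.Agent.H70.PR.C1
import Pool.Agent.H25.PR.B3

/-!
# PR module C2: no closed walk of displacement zero (100 lines)

Apply `lemB` (Lemma B, proved in part B by helper25; here a placeholder, to be replaced by an import) to
the index type `ι × ℤ` and the bricks `{z | z - k ∈ b i}` (translates: compact, convex, interior =
translate of the interior). Disjointness from `Bricks.disj`: if `z - k ∈ interior (b i)` and
`z - k' ∈ b j` then `(z - k) - (k' - k) ∈ b j`, so `i = j` and `k' = k`. Free: `F z - k = F (z - k)`.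
A walk gives the sequence of bricks: prove by induction on the walk
`∀ k, ∃ n ≥ 1, ∃ w : ℕ → ι × ℤ, w 0 = (i, k) ∧ w n = (j, k + m) ∧ ∀ a < n, (F '' β (w a) ∩ β (w (a+1))).Nonempty`
(for `cons` shift the sequence of the tail by one).
-/

open Complex Set Metric Topology Filter MeasureTheory
open Pool.Agent.H25.PR

namespace Pool.Agent.H70.PR

/-- Lemma B (from part B) -/
theorem lemB {ι : Type} (b : ι → Set ℂ) (hco : ∀ i, IsCompact (b i)) (hcv : ∀ i, Convex ℝ (b i))
    (hin : ∀ i, (interior (b i)).Nonempty) (hdi : ∀ i j, i ≠ j → Disjoint (interior (b i)) (b j))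
    (F : ℂ ≃ₜ ℂ) (hI : HomIso F) (h1 : NoFix F) (hfr : ∀ i, Disjoint (F '' b i) (b i))
    (n : ℕ) (hn : 1 ≤ n) (w : ℕ → ι) (hw : ∀ a < n, (F '' b (w a) ∩ b (w (a + 1))).Nonempty) :
    w n ≠ w 0 :=
  brick_lemma F hI h1 b hco hcv hin hdi hfr n hn w hw

/-- the translated bricks -/
private def C2beta {ι : Type} (b : ι → Set ℂ) (p : ι × ℤ) : Set ℂ := (fun z : ℂ => z + (p.2 : ℂ)) '' b p.1

private theorem C2mem {ι : Type} (b : ι → Set ℂ) (p : ι × ℤ) (z : ℂ) :
    z ∈ C2beta b p ↔ z - (p.2 : ℂ) ∈ b p.1 := by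
  constructor
  · rintro ⟨w, hw, rfl⟩
    simpa using hw
  · intro h
    exact ⟨_, h, by simp⟩

private theorem C2int {ι : Type} (b : ι → Set ℂ) (p : ι × ℤ) (z : ℂ) :
    z ∈ interior (C2beta b p) ↔ z - (p.2 : ℂ) ∈ interior (b p.1) := by
  have h : interior (C2beta b p) = (fun z : ℂ => z + (p.2 : ℂ)) '' interior (b p.1) := by
    have := (Homeomorph.addRight (p.2 : ℂ)).image_interior (b p.1)
    exact this.symm
  rw [h]
  constructor
  · rintro ⟨w, hw, rfl⟩
    simpa using hw
  · intro h
    exact ⟨_, h, by simp⟩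

private theorem C2seq {ι : Type} {F : ℂ → ℂ} (hp : ∀ z, F (z + 1) = F z + 1) {b : ι → Set ℂ}
    {i j : ι} {m : ℤ} (h : Walk F b i j m) :
    ∀ k : ℤ, ∃ n : ℕ, 1 ≤ n ∧ ∃ w : ℕ → ι × ℤ, w 0 = (i, k) ∧ w n = (j, k + m) ∧
      ∀ a < n, (F '' C2beta b (w a) ∩ C2beta b (w (a + 1))).Nonempty := by
  have step : ∀ {i j : ι} {m : ℤ}, Edge F b i j m → ∀ k : ℤ,
      (F '' C2beta b (i, k) ∩ C2beta b (j, k + m)).Nonempty := by
    intro i j m he k
    obtain ⟨z, hz, hz'⟩ := he
    refine ⟨F (z + k), ⟨z + k, (C2mem _ _ _).2 (by simpa using hz), rfl⟩, ?_⟩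
    rw [C2mem, per_int hp]
    have e : F z + (k : ℂ) - (((k + m : ℤ)) : ℂ) = F z - m := by push_cast; ring
    simp only at e ⊢
    rw [e]
    exact hz'
  induction h with
  | @one i j m he =>
    intro k
    refine ⟨1, le_refl _, fun a => if a = 0 then (i, k) else (j, k + m), by simp, by simp, ?_⟩
    intro a ha
    have h0 : a = 0 := by omega
    subst h0
    simpa using step he k
  | @cons i j l m n he _ ih =>
    intro k
    obtain ⟨N, hN, w, hw0, hwN, hw⟩ := ih (k + m)
    refine ⟨N + 1, by omega, fun a => if a = 0 then (i, k) else w (a - 1), by simp, ?_, ?_⟩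
    · simp only [Nat.add_eq_zero_iff, one_ne_zero, and_false, if_false, Nat.add_sub_cancel]
      rw [hwN, add_assoc]
    · intro a ha
      by_cases h0 : a = 0
      · subst h0
        have := step he k
        simpa [hw0] using this
      · have h1 := hw (a - 1) (by omega)
        have h2 : a - 1 + 1 = a := by omega
        rw [h2] at h1
        simpa [h0] using h1

theorem no_zero_walk {ι : Type} {b : ι → Set ℂ} (hb : Bricks b) (F : ℂ ≃ₜ ℂ) (hI : HomIso F)
    (h1 : NoFix F) (hp : ∀ z, F (z + 1) = F z + 1) (hf : FreeB F b) (i : ι) :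
    ¬ Walk F b i i 0 := by
  intro hW
  obtain ⟨n, hn, w, hw0, hwn, hw⟩ := C2seq hp hW 0
  have key := lemB (C2beta b)
    (fun p => (hb.comp p.1).image (by fun_prop))
    (fun p => by
      have := (hb.conv p.1).translate (p.2 : ℂ)
      have e : C2beta b p = (fun z => (p.2 : ℂ) + z) '' b p.1 := by
        unfold C2beta
        congr 1
        funext z
        rw [add_comm]
      rw [e]
      exact this)
    (fun p => by
      obtain ⟨z, hz⟩ := hb.int p.1
      exact ⟨z + (p.2 : ℂ), (C2int b p _).2 (by simpa using hz)⟩)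
    (fun p q hpq => by
      rw [Set.disjoint_left]
      intro z hz hz'
      rw [C2int] at hz
      rw [C2mem] at hz'
      have e : z - (q.2 : ℂ) = (z - (p.2 : ℂ)) - (((q.2 - p.2 : ℤ)) : ℂ) := by push_cast; ring
      rw [e] at hz'
      obtain ⟨h1, h2⟩ := hb.disj p.1 q.1 (q.2 - p.2) _ hz hz'
      exact hpq (Prod.ext h1 (by omega)))
    F hI h1
    (fun p => by
      rw [Set.disjoint_left]
      rintro _ ⟨z, hz, rfl⟩ hz'
      rw [C2mem] at hz hz'
      have e : F (z - (p.2 : ℂ)) = F z - (p.2 : ℂ) := by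
        have h4 := per_int hp z (-p.2)
        push_cast at h4
        rw [sub_eq_add_neg, h4]
        ring
      exact hf p.1 _ hz (by rw [e]; exact hz'))
    n hn w hw
  apply key
  rw [hw0, hwn]
  simp

end Pool.Agent.H70.PR
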