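import Pool.Agent.H70.PR.C1

/-!
# PR module C3: grids and merged grids (180 lines)

`cell N p q` is a closed rectangle: convex, compact (closed, bounded), interior = the strict
inequalities (`p/N < z.re < (p+1)/N ...`; only the inclusion of the interior in the strict set is
needed and the centre as an interior point; e.g. through `interior_Icc` and
`Complex.interior_reProdIm`, writing the cell as `Icc _ _ ×ℂ Icc _ _`).
`bricks_grid`: cover: `z ∈ Strip`, `k = ⌊z.re⌋`, `p = ⌊N (z.re - k)⌋ < N`, `q = min (⌊N z.im⌋) (N-1)`.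
Disjointness: `p < N z.re < p+1` and `p' + k N ≤ N z.re ≤ p' + k N + 1` force `p = p' + k N`, so `k = 0` and
`p = p'` as `0 ≤ p, p' < N`; similarly `q = q'`.
`bricks_merge`: the coarse cell `(p0,q0)` of mesh `1/N` and the fine cells (mesh `1/(N*M)`) not inside it. The
fine cell `(a,c)` is contained in the coarse cell `(a/M, c/M)` (natural division). Cover: a point is in
some fine cell; if it is inside the coarse cell `(p0,q0)` use `none`. Disjointness: none/none: coarse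
grid; none/some: the fine cell is in a coarse cell with another index, use the coarse grid;
some/none: interior of fine ⊆ interior of its coarse cell; some/some: fine grid.
-/

open Complex Set Metric Topology Filter MeasureTheory
open Pool.Agent.H25.PR

namespace Pool.Agent.H70.PR

private lemma C3_eq (N p q : ℕ) : cell N p q =
    Icc ((p : ℝ) / N) (((p : ℝ) + 1) / N) ×ℂ Icc ((q : ℝ) / N) (((q : ℝ) + 1) / N) := by
  ext z
  simp only [cell, Complex.mem_reProdIm, mem_Icc, Set.mem_ofPred_eq]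
  tauto

theorem cell_convex (N p q : ℕ) : Convex ℝ (cell N p q) := by
  have h1 : Convex ℝ (Complex.reLm ⁻¹' Icc ((p : ℝ) / N) (((p : ℝ) + 1) / N)) :=
    (convex_Icc _ _).linear_preimage _
  have h2 : Convex ℝ (Complex.imLm ⁻¹' Icc ((q : ℝ) / N) (((q : ℝ) + 1) / N)) :=
    (convex_Icc _ _).linear_preimage _
  rw [C3_eq]
  exact h1.inter h2

theorem cell_compact (N p q : ℕ) : IsCompact (cell N p q) := by
  rw [C3_eq]
  exact isCompact_Icc.reProdIm isCompact_Icc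

private lemma C3_int (N p q : ℕ) : interior (cell N p q) =
    Ioo ((p : ℝ) / N) (((p : ℝ) + 1) / N) ×ℂ Ioo ((q : ℝ) / N) (((q : ℝ) + 1) / N) := by
  rw [C3_eq, Complex.interior_reProdIm, interior_Icc, interior_Icc]

private lemma C3_mem {N : ℕ} (hN : 1 ≤ N) (p q : ℕ) (z : ℂ) : z ∈ cell N p q ↔
    ((p : ℝ) ≤ N * z.re ∧ N * z.re ≤ (p : ℝ) + 1) ∧
      ((q : ℝ) ≤ N * z.im ∧ N * z.im ≤ (q : ℝ) + 1) := by
  have hN' : (0 : ℝ) < N := by exact_mod_cast hN
  rw [C3_eq, Complex.mem_reProdIm, mem_Icc, mem_Icc, div_le_iff₀ hN', le_div_iff₀ hN',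
    div_le_iff₀ hN', le_div_iff₀ hN', mul_comm z.re, mul_comm z.im]

private lemma C3_memint {N : ℕ} (hN : 1 ≤ N) (p q : ℕ) (z : ℂ) : z ∈ interior (cell N p q) ↔
    ((p : ℝ) < N * z.re ∧ N * z.re < (p : ℝ) + 1) ∧
      ((q : ℝ) < N * z.im ∧ N * z.im < (q : ℝ) + 1) := by
  have hN' : (0 : ℝ) < N := by exact_mod_cast hN
  rw [C3_int, Complex.mem_reProdIm, mem_Ioo, mem_Ioo, div_lt_iff₀ hN', lt_div_iff₀ hN',
    div_lt_iff₀ hN', lt_div_iff₀ hN', mul_comm z.re, mul_comm z.im]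

private lemma C3_nonempty {N : ℕ} (hN : 1 ≤ N) (p q : ℕ) : (interior (cell N p q)).Nonempty := by
  have hN' : (0 : ℝ) < N := by exact_mod_cast hN
  refine ⟨⟨((p : ℝ) + 1 / 2) / N, ((q : ℝ) + 1 / 2) / N⟩, ?_⟩
  rw [C3_memint hN]
  simp only [mul_div_cancel₀ _ hN'.ne']
  refine ⟨⟨?_, ?_⟩, ?_, ?_⟩ <;> linarith

private lemma C3_strip {N : ℕ} (hN : 1 ≤ N) (p q : ℕ) (hq : q < N) : cell N p q ⊆ Strip := by
  intro z hz
  have hN' : (0 : ℝ) < N := by exact_mod_cast hN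
  rw [C3_mem hN] at hz
  obtain ⟨_, h1, h2⟩ := hz
  have h3 : (q : ℝ) + 1 ≤ N := by exact_mod_cast hq
  have h4 : (0 : ℝ) ≤ q := Nat.cast_nonneg q
  refine ⟨?_, ?_⟩
  · by_contra hcon
    push Not at hcon
    nlinarith
  · by_contra hcon
    push Not at hcon
    nlinarith

private lemma C3_disj {N : ℕ} (hN : 1 ≤ N) {p q p' q' : ℕ} (hp : p < N)
    (hp' : p' < N) {k : ℤ} {z : ℂ} (hz : z ∈ interior (cell N p q))
    (hz' : z - k ∈ cell N p' q') : p = p' ∧ q = q' ∧ k = 0 := by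
  rw [C3_memint hN] at hz
  rw [C3_mem hN] at hz'
  simp only [Complex.sub_re, Complex.sub_im, Complex.intCast_re, Complex.intCast_im,
    sub_zero] at hz'
  obtain ⟨⟨a1, a2⟩, a3, a4⟩ := hz
  obtain ⟨⟨b1, b2⟩, b3, b4⟩ := hz'
  have e1 : (p' : ℝ) + N * k < p + 1 := by linarith
  have e2 : (p : ℝ) < p' + N * k + 1 := by linarith
  have e3 : (p' : ℤ) + N * k < p + 1 := by exact_mod_cast e1
  have e4 : (p : ℤ) < p' + N * k + 1 := by exact_mod_cast e2
  have e5 : (p : ℤ) = p' + N * k := by omega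
  have e6 : (q' : ℝ) < q + 1 := by linarith
  have e7 : (q : ℝ) < q' + 1 := by linarith
  have e8 : q' < q + 1 := by exact_mod_cast e6
  have e9 : q < q' + 1 := by exact_mod_cast e7
  have hk : k = 0 := by
    have c1 : (p : ℤ) < N := by exact_mod_cast hp
    have c2 : (p' : ℤ) < N := by exact_mod_cast hp'
    have c3 : (0 : ℤ) ≤ p := Int.natCast_nonneg p
    have c4 : (0 : ℤ) ≤ p' := Int.natCast_nonneg p'
    rcases lt_trichotomy k 0 with h | h | h
    · nlinarith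
    · exact h
    · nlinarith
  subst hk
  rw [mul_zero, add_zero] at e5
  exact ⟨by exact_mod_cast e5, by omega, rfl⟩

theorem bricks_grid (N : ℕ) (hN : 1 ≤ N) :
    Bricks (fun i : Fin N × Fin N => cell N i.1 i.2) := by
  have hN' : (0 : ℝ) < N := by exact_mod_cast hN
  refine ⟨fun i => cell_convex _ _ _, fun i => cell_compact _ _ _, fun i => C3_nonempty hN _ _,
    fun i => C3_strip hN _ _ i.2.2, ?_, ?_⟩
  · intro z hz
    obtain ⟨h0, h1⟩ := hz
    have f1 := Int.floor_le z.re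
    have f2 := Int.lt_floor_add_one z.re
    have hx0 : 0 ≤ (N : ℝ) * (z.re - ⌊z.re⌋) := mul_nonneg hN'.le (by linarith)
    have hx1 : (N : ℝ) * (z.re - ⌊z.re⌋) < N := by nlinarith
    have hp : ⌊(N : ℝ) * (z.re - ⌊z.re⌋)⌋₊ < N := (Nat.floor_lt hx0).2 hx1
    have g1 := Nat.floor_le hx0
    have g2 := Nat.lt_floor_add_one ((N : ℝ) * (z.re - ⌊z.re⌋))
    have hy0 : 0 ≤ (N : ℝ) * z.im := mul_nonneg hN'.le h0
    have hyq : ∃ q : ℕ, q < N ∧ (q : ℝ) ≤ N * z.im ∧ N * z.im ≤ (q : ℝ) + 1 := by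
      by_cases hy : (N : ℝ) * z.im < N
      · exact ⟨⌊(N : ℝ) * z.im⌋₊, (Nat.floor_lt hy0).2 hy, Nat.floor_le hy0,
          (Nat.lt_floor_add_one _).le⟩
      · push Not at hy
        have hc : ((N - 1 : ℕ) : ℝ) = (N : ℝ) - 1 := by
          rw [Nat.cast_sub hN, Nat.cast_one]
        have h2 : (N : ℝ) * z.im ≤ N := by nlinarith
        exact ⟨N - 1, by omega, by rw [hc]; linarith, by rw [hc]; linarith⟩
    obtain ⟨q, hq, q1, q2⟩ := hyq
    refine ⟨(⟨_, hp⟩, ⟨q, hq⟩), ⌊z.re⌋, ?_⟩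
    rw [C3_mem hN]
    simp only [Complex.sub_re, Complex.sub_im, Complex.intCast_re, Complex.intCast_im, sub_zero]
    exact ⟨⟨g1, g2.le⟩, q1, q2⟩
  · intro i j k z hz hz'
    obtain ⟨h1, h2, h3⟩ := C3_disj hN i.1.2 j.1.2 hz hz'
    exact ⟨Prod.ext (Fin.ext h1) (Fin.ext h2), h3⟩

/-- the merged grid: `none` is the coarse cell -/
def mgrid (N M p q : ℕ) :
    Option {i : Fin (N * M) × Fin (N * M) // ¬ ((i.1 : ℕ) / M = p ∧ (i.2 : ℕ) / M = q)} → Set ℂ
  | none => cell N p q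
  | some i => cell (N * M) i.1.1 i.1.2

private lemma C3_sub1 {M a : ℕ} {x N : ℝ} (hM : 1 ≤ M) (h1 : (a : ℝ) ≤ N * M * x)
    (h2 : N * M * x ≤ (a : ℝ) + 1) :
    ((a / M : ℕ) : ℝ) ≤ N * x ∧ N * x ≤ ((a / M : ℕ) : ℝ) + 1 := by
  have hM' : (0 : ℝ) < M := by exact_mod_cast hM
  have h3 : M * (a / M) + a % M = a := Nat.div_add_mod a M
  have h4 : a % M < M := Nat.mod_lt a hM
  have h5 : M * (a / M) ≤ a := by omega
  have h6 : a + 1 ≤ M * (a / M + 1) := by
    rw [mul_add, mul_one]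
    omega
  have h7 : (M : ℝ) * ((a / M : ℕ) : ℝ) ≤ a := by exact_mod_cast h5
  have h8 : (a : ℝ) + 1 ≤ M * (((a / M : ℕ) : ℝ) + 1) := by exact_mod_cast h6
  constructor
  · have : (M : ℝ) * ((a / M : ℕ) : ℝ) ≤ M * (N * x) := by linarith
    exact le_of_mul_le_mul_left this hM'
  · have : (M : ℝ) * (N * x) ≤ M * (((a / M : ℕ) : ℝ) + 1) := by linarith
    exact le_of_mul_le_mul_left this hM'

private lemma C3_sub {N M : ℕ} (hN : 1 ≤ N) (hM : 1 ≤ M) (a c : ℕ) :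
    cell (N * M) a c ⊆ cell N (a / M) (c / M) := by
  intro z hz
  rw [C3_mem (Nat.mul_pos hN hM)] at hz
  rw [C3_mem hN]
  push_cast at hz
  exact ⟨C3_sub1 hM hz.1.1 hz.1.2, C3_sub1 hM hz.2.1 hz.2.2⟩

private lemma C3_lt {N M a : ℕ} (h : a < N * M) : a / M < N := by
  rw [mul_comm] at h
  exact Nat.div_lt_of_lt_mul h

theorem bricks_merge (N M : ℕ) (hN : 1 ≤ N) (hM : 1 ≤ M) (p q : ℕ) (hp : p < N) (hq : q < N) :
    Bricks (mgrid N M p q) := by
  have hNM : 1 ≤ N * M := Nat.mul_pos hN hM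
  refine ⟨?_, ?_, ?_, ?_, ?_, ?_⟩
  · rintro (_ | i)
    · exact cell_convex _ _ _
    · exact cell_convex _ _ _
  · rintro (_ | i)
    · exact cell_compact _ _ _
    · exact cell_compact _ _ _
  · rintro (_ | i)
    · exact C3_nonempty hN _ _
    · exact C3_nonempty hNM _ _
  · rintro (_ | i)
    · exact C3_strip hN _ _ hq
    · exact C3_strip hNM _ _ i.1.2.2
  · intro z hz
    obtain ⟨i, k, hi⟩ := (bricks_grid (N * M) hNM).cover z hz
    by_cases h : (i.1 : ℕ) / M = p ∧ (i.2 : ℕ) / M = q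
    · refine ⟨none, k, ?_⟩
      have h1 := C3_sub hN hM _ _ hi
      rw [h.1, h.2] at h1
      exact h1
    · exact ⟨some ⟨i, h⟩, k, hi⟩
  · rintro (_ | i) (_ | j) k z hz hz'
    · exact ⟨rfl, (C3_disj hN hp hp hz hz').2.2⟩
    · have h1 : z - k ∈ cell N ((j.1.1 : ℕ) / M) ((j.1.2 : ℕ) / M) := C3_sub hN hM _ _ hz'
      obtain ⟨h2, h3, _⟩ := C3_disj hN hp (C3_lt j.1.1.2) hz h1
      exact absurd ⟨h2.symm, h3.symm⟩ j.2
    · have h1 : z ∈ interior (cell N ((i.1.1 : ℕ) / M) ((i.1.2 : ℕ) / M)) :=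
        interior_mono (C3_sub hN hM _ _) hz
      obtain ⟨h2, h3, _⟩ := C3_disj hN (C3_lt i.1.1.2) hp h1 hz'
      exact absurd ⟨h2, h3⟩ i.2
    · obtain ⟨h1, h2, h3⟩ := C3_disj hNM i.1.1.2 j.1.1.2 hz hz'
      refine ⟨?_, h3⟩
      congr 1
      exact Subtype.ext (Prod.ext (Fin.ext h1) (Fin.ext h2))

end Pool.Agent.H70.PR
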