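import Pool.Agent.H70.PR.C1

/-!
# PR module C4: small cells are free

`disp_low`: `F` continuous without fixed point and `F (z + 1) = F z + 1`: `‖F z - z‖` is 1-periodic,
continuous and positive; on the compact set `{0 ≤ re ≤ 1} ∩ Strip` it has a positive minimum `δ`;
by periodicity `δ ≤ ‖F z - z‖` on the strip.
`disp_high`: same with the maximum.
`grid_free`: two points of a cell of mesh `1/N` have distance `≤ 2/N`; take `N1 > 2/δ`.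
-/

open Complex Set Metric Topology Filter MeasureTheory
open Pool.Agent.H25.PR

namespace Pool.Agent.H70.PR

private theorem disp_red {F : ℂ → ℂ} (hp : ∀ z, F (z + 1) = F z + 1) {z : ℂ} (hz : z ∈ Strip) :
    ∃ p : ℝ × ℝ, p ∈ (Icc (0 : ℝ) 1) ×ˢ (Icc (0 : ℝ) 1) ∧
      ‖F ((p.1 : ℂ) + p.2 * I) - ((p.1 : ℂ) + p.2 * I)‖ = ‖F z - z‖ := by
  refine ⟨(z.re - ⌊z.re⌋, z.im), ⟨⟨?_, ?_⟩, hz.1, hz.2⟩, ?_⟩
  · have := Int.floor_le z.re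
    change 0 ≤ z.re - ⌊z.re⌋
    linarith
  · have := Int.lt_floor_add_one z.re
    change z.re - ⌊z.re⌋ ≤ 1
    linarith
  · have h1 : (((z.re - ⌊z.re⌋ : ℝ) : ℂ) + (z.im : ℂ) * I) + (⌊z.re⌋ : ℤ) = z := by
      push_cast
      conv_rhs => rw [← Complex.re_add_im z]
      ring
    have h2 := per_int hp (((z.re - ⌊z.re⌋ : ℝ) : ℂ) + (z.im : ℂ) * I) ⌊z.re⌋
    rw [h1] at h2
    change ‖F (((z.re - ⌊z.re⌋ : ℝ) : ℂ) + (z.im : ℂ) * I) -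
      (((z.re - ⌊z.re⌋ : ℝ) : ℂ) + (z.im : ℂ) * I)‖ = _
    congr 1
    rw [h2]
    linear_combination -h1

private theorem disp_cont {F : ℂ → ℂ} (hc : Continuous F) :
    Continuous fun p : ℝ × ℝ => ‖F ((p.1 : ℂ) + p.2 * I) - ((p.1 : ℂ) + p.2 * I)‖ := by
  fun_prop

theorem disp_low {F : ℂ → ℂ} (hc : Continuous F) (hp : ∀ z, F (z + 1) = F z + 1) (h1 : NoFix F) :
    ∃ δ : ℝ, 0 < δ ∧ ∀ z ∈ Strip, δ ≤ ‖F z - z‖ := by
  obtain ⟨p, -, hmin⟩ := (isCompact_Icc.prod isCompact_Icc :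
    IsCompact ((Icc (0 : ℝ) 1) ×ˢ (Icc (0 : ℝ) 1))).exists_isMinOn
    ⟨(0, 0), ⟨le_rfl, zero_le_one⟩, le_rfl, zero_le_one⟩ (disp_cont hc).continuousOn
  refine ⟨_, norm_pos_iff.2 (sub_ne_zero.2 (h1 ((p.1 : ℂ) + p.2 * I))), fun z hz => ?_⟩
  obtain ⟨q, hq, h⟩ := disp_red hp hz
  rw [← h]
  exact hmin hq

theorem disp_high {F : ℂ → ℂ} (hc : Continuous F) (hp : ∀ z, F (z + 1) = F z + 1) :
    ∃ C : ℝ, 0 < C ∧ ∀ z ∈ Strip, ‖F z - z‖ ≤ C := by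
  obtain ⟨p, -, hmax⟩ := (isCompact_Icc.prod isCompact_Icc :
    IsCompact ((Icc (0 : ℝ) 1) ×ˢ (Icc (0 : ℝ) 1))).exists_isMaxOn
    ⟨(0, 0), ⟨le_rfl, zero_le_one⟩, le_rfl, zero_le_one⟩ (disp_cont hc).continuousOn
  refine ⟨‖F ((p.1 : ℂ) + p.2 * I) - ((p.1 : ℂ) + p.2 * I)‖ + 1, by positivity, fun z hz => ?_⟩
  obtain ⟨q, hq, h⟩ := disp_red hp hz
  rw [← h]
  have h2 : ‖F ((q.1 : ℂ) + q.2 * I) - ((q.1 : ℂ) + q.2 * I)‖ ≤
    ‖F ((p.1 : ℂ) + p.2 * I) - ((p.1 : ℂ) + p.2 * I)‖ := hmax hq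
  linarith

theorem grid_free {F : ℂ → ℂ} (hc : Continuous F) (hp : ∀ z, F (z + 1) = F z + 1) (h1 : NoFix F) :
    ∃ N1 : ℕ, 1 ≤ N1 ∧ ∀ N : ℕ, N1 ≤ N → ∀ p q : ℕ, ∀ z ∈ cell N p q, z ∈ Strip →
      F z ∉ cell N p q := by
  obtain ⟨δ, hδ, hd⟩ := disp_low hc hp h1
  obtain ⟨N0, hN0⟩ := exists_nat_gt (2 / δ)
  refine ⟨N0 + 1, by omega, fun N hN p q z hz hs hF => ?_⟩
  have h2 : (N0 : ℝ) < N := by exact_mod_cast hN
  have hNpos : (0 : ℝ) < N := lt_of_le_of_lt (Nat.cast_nonneg N0) h2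
  have h3 : 2 / (N : ℝ) < δ := by
    rw [div_lt_iff₀ hNpos]
    have h4 : 2 / δ < N := hN0.trans h2
    rw [div_lt_iff₀ hδ] at h4
    linarith
  have h5 := hd z hs
  have h6 := Complex.norm_le_abs_re_add_abs_im (F z - z)
  obtain ⟨a1, a2, a3, a4⟩ := hz
  obtain ⟨b1, b2, b3, b4⟩ := hF
  have e1 : ((p : ℝ) + 1) / N = (p : ℝ) / N + 1 / N := by ring
  have e2 : ((q : ℝ) + 1) / N = (q : ℝ) / N + 1 / N := by ring
  have e3 : 2 / (N : ℝ) = 1 / N + 1 / N := by ring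
  have h7 : |(F z - z).re| ≤ 1 / N := by
    rw [Complex.sub_re, abs_le]
    constructor <;> linarith
  have h8 : |(F z - z).im| ≤ 1 / N := by
    rw [Complex.sub_im, abs_le]
    constructor <;> linarith
  linarith

end Pool.Agent.H70.PR
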