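import Pool.Agent.H70.PR.C1

/-!
# PR module C5: projection and measure (180 lines)

`e_eq_iff`: `Complex.exp_eq_exp_iff_exists_int`. `norm_pr`: `‖pr z‖ = z.im` on the strip.
`pr_add_int`: `e (t + k) = e t`. `pr_eq`: if `pr z = pr w`, `0 < z.im`, both in the strip, then
`z.im = w.im` (norms), `e z.re = e w.re`, so `w = z + k`.
`pr_surj`: polar coordinates (`Complex.arg`).
`pr_image_ball`: the image of a ball contained in `{0 < im}` has positive measure: `pr` is there
the composition of `z ↦ log (im z) + 2 π i re z` (a homeomorphism of the upper half plane onto `ℂ`, so open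
subsets have open images) and `cexp` (`Complex.isOpenMap_exp`), so the image is open and nonempty;
`IsOpen.measure_pos`.
`no_ball_gap`: shrink the ball such that `0 < im` on it (the ball is inside the strip, take a
smaller ball around a point of it with positive imaginary part). `K = pr '' R` is compact:
`pr '' R = pr '' (R ∩ {0 ≤ re ≤ 1})` by periodicity. `K' = pr '' (F '' R) = f '' K` (`proj`), `volume K' = volume K`
(`vol`), `K' ⊆ K`, and `pr '' ball` is contained in `K` and disjoint from `K'` (`pr_eq` and the periodicity of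
`F '' R`). So `volume K ≥ volume K' + volume (pr '' ball)`, and `volume K < ∞`: contradiction.
-/

open Complex Set Metric Topology Filter MeasureTheory
open Pool.Agent.H25.PR

namespace Pool.Agent.H70.PR

theorem e_eq_iff (s t : ℝ) : e s = e t ↔ ∃ k : ℤ, s = t + k := by
  unfold e
  rw [Complex.exp_eq_exp_iff_exists_int]
  have hpi : (2 * (Real.pi : ℂ) * I) ≠ 0 := Complex.two_pi_I_ne_zero
  constructor
  · rintro ⟨n, hn⟩
    refine ⟨n, ?_⟩
    have h1 : ((s : ℂ)) = t + n := by
      apply mul_right_cancel₀ hpi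
      linear_combination hn
    exact_mod_cast h1
  · rintro ⟨n, hn⟩
    refine ⟨n, ?_⟩
    rw [hn]
    push_cast
    ring

theorem norm_e (t : ℝ) : ‖e t‖ = 1 := by
  unfold e
  have : (2 * (Real.pi : ℂ) * t * I) = ((2 * Real.pi * t : ℝ) : ℂ) * I := by push_cast; ring
  rw [this, Complex.norm_exp_ofReal_mul_I]

theorem norm_pr {z : ℂ} (hz : z ∈ Strip) : ‖pr z‖ = z.im := by
  unfold pr
  rw [norm_mul, norm_e, mul_one, Complex.norm_real, Real.norm_of_nonneg hz.1]

theorem continuous_pr : Continuous pr := by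
  unfold pr e
  fun_prop

theorem pr_add_int (z : ℂ) (k : ℤ) : pr (z + k) = pr z := by
  unfold pr
  have h1 : (z + k).im = z.im := by simp
  have h2 : (z + k).re = z.re + k := by simp
  rw [h1, h2, (e_eq_iff (z.re + k) z.re).2 ⟨k, rfl⟩]

theorem pr_mem {z : ℂ} (hz : z ∈ Strip) : pr z ∈ Dsk := by
  rw [mem_closedBall_zero_iff, norm_pr hz]
  exact hz.2

theorem pr_surj {w : ℂ} (hw : w ∈ Dsk) : ∃ z ∈ Strip, pr z = w ∧ 0 ≤ z.re ∧ z.re ≤ 1 := by
  rw [mem_closedBall_zero_iff] at hw
  refine ⟨((Int.fract (arg w / (2 * Real.pi)) : ℝ) : ℂ) + (‖w‖ : ℝ) * I, ?_, ?_, ?_, ?_⟩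
  · constructor
    · simp
    · simpa using hw
  · unfold pr
    have h1 : (((Int.fract (arg w / (2 * Real.pi)) : ℝ) : ℂ) + (‖w‖ : ℝ) * I).im = ‖w‖ := by simp
    have h2 : (((Int.fract (arg w / (2 * Real.pi)) : ℝ) : ℂ) + (‖w‖ : ℝ) * I).re =
        Int.fract (arg w / (2 * Real.pi)) := by simp
    rw [h1, h2, (e_eq_iff (Int.fract (arg w / (2 * Real.pi))) (arg w / (2 * Real.pi))).2
      ⟨-⌊arg w / (2 * Real.pi)⌋, by rw [Int.fract]; push_cast; ring⟩]
    unfold e
    have h3 : (2 * (Real.pi : ℂ) * ((arg w / (2 * Real.pi) : ℝ) : ℂ) * I) = arg w * I := by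
      have : (Real.pi : ℂ) ≠ 0 := by exact_mod_cast Real.pi_ne_zero
      push_cast
      field_simp
    rw [h3]
    exact Complex.norm_mul_exp_arg_mul_I w
  · simp [Int.fract_nonneg]
  · simp [(Int.fract_lt_one (arg w / (2 * Real.pi))).le]

theorem pr_eq {z w : ℂ} (hz : z ∈ Strip) (hw : w ∈ Strip) (h0 : 0 < z.im) (h : pr z = pr w) :
    ∃ k : ℤ, w = z + k := by
  have h1 : z.im = w.im := by
    rw [← norm_pr hz, ← norm_pr hw, h]
  unfold pr at h
  rw [← h1] at h
  have h2 : (z.im : ℂ) ≠ 0 := by exact_mod_cast h0.ne'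
  obtain ⟨k, hk⟩ := (e_eq_iff w.re z.re).1 (mul_left_cancel₀ h2 h).symm
  refine ⟨k, ?_⟩
  apply Complex.ext
  · simp [hk]
  · simp [h1]

theorem pr_image_pos {U : Set ℂ} (hU : IsOpen U) (hne : U.Nonempty) (h0 : ∀ z ∈ U, 0 < z.im) :
    0 < volume (pr '' U) := by
  let χ : ℂ → ℂ := fun w => ((w.im / (2 * Real.pi) : ℝ) : ℂ) + ((Real.exp w.re : ℝ) : ℂ) * I
  have hχ : Continuous χ := by
    unfold χ
    fun_prop
  have hpr : ∀ w, pr (χ w) = cexp w := by
    intro w
    have h1 : (χ w).im = Real.exp w.re := by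
      simp only [χ, add_im, ofReal_im, mul_im, ofReal_re, I_im, mul_one, I_re, mul_zero,
        add_zero, zero_add]
    have h2 : (χ w).re = w.im / (2 * Real.pi) := by
      simp only [χ, add_re, ofReal_re, mul_re, I_re, mul_zero, ofReal_im, I_im, mul_one,
        sub_self, add_zero]
    unfold pr e
    rw [h1, h2]
    have h3 : (2 * (Real.pi : ℂ) * ((w.im / (2 * Real.pi) : ℝ) : ℂ) * I) = w.im * I := by
      have : (Real.pi : ℂ) ≠ 0 := by exact_mod_cast Real.pi_ne_zero
      push_cast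
      field_simp
    rw [h3, Complex.ofReal_exp, ← Complex.exp_add, Complex.re_add_im]
  have himg : pr '' U = cexp '' (χ ⁻¹' U) := by
    ext y
    constructor
    · rintro ⟨z, hz, rfl⟩
      have h1 : χ (((Real.log z.im : ℝ) : ℂ) + ((2 * Real.pi * z.re : ℝ) : ℂ) * I) = z := by
        apply Complex.ext
        · have : Real.pi ≠ 0 := Real.pi_ne_zero
          simp only [χ, add_re, ofReal_re, mul_re, I_re, mul_zero, ofReal_im, I_im, mul_one,
            sub_self, add_zero, add_im, mul_im, zero_add]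
          field_simp
        · simp only [χ, add_im, ofReal_im, mul_im, ofReal_re, I_im, mul_one, I_re, mul_zero,
            add_zero, zero_add, add_re, mul_re, sub_self]
          exact Real.exp_log (h0 z hz)
      refine ⟨((Real.log z.im : ℝ) : ℂ) + ((2 * Real.pi * z.re : ℝ) : ℂ) * I, ?_, ?_⟩
      · change χ _ ∈ U
        rw [h1]
        exact hz
      · rw [← hpr, h1]
    · rintro ⟨w, hw, rfl⟩
      exact ⟨χ w, hw, hpr w⟩
  rw [himg]
  have hopen : IsOpen (cexp '' (χ ⁻¹' U)) := Complex.isOpenMap_exp _ (hU.preimage hχ)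
  refine hopen.measure_pos volume ?_
  rw [← himg]
  exact hne.image pr

theorem no_ball_gap {f : ℂ → ℂ} {F : ℂ ≃ₜ ℂ} (hF : AnnLift f F) {R : Set ℂ} (hRc : IsClosed R)
    (hRS : R ⊆ Strip) (hRp : ∀ z, z + 1 ∈ R ↔ z ∈ R) (hFR : ∀ z ∈ R, F z ∈ R) {c : ℂ} {ρ : ℝ}
    (hρ : 0 < ρ) (hb : ball c ρ ⊆ R) (hd : ∀ z ∈ R, F z ∉ ball c ρ) : False := by
  have hRk : ∀ (k : ℤ) (z : ℂ), z + k ∈ R ↔ z ∈ R := by
    intro k
    induction k using Int.induction_on with
    | zero => intro z; simp
    | succ n ih =>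
      intro z
      have : z + ((n + 1 : ℤ) : ℂ) = (z + (n : ℤ)) + 1 := by push_cast; ring
      rw [this, hRp, ih]
    | pred n ih =>
      intro z
      have h1 := hRp (z + ((-(n : ℤ) - 1 : ℤ) : ℂ))
      have : z + ((-(n : ℤ) - 1 : ℤ) : ℂ) + 1 = z + ((-(n : ℤ) : ℤ) : ℂ) := by push_cast; ring
      rw [this, ih] at h1
      exact h1.symm
  have hc2 : ρ / 2 ≤ c.im := by
    have h1 : c - ((ρ / 2 : ℝ) : ℂ) * I ∈ ball c ρ := by
      rw [mem_ball, dist_eq_norm]
      have : c - ((ρ / 2 : ℝ) : ℂ) * I - c = -(((ρ / 2 : ℝ) : ℂ) * I) := by ring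
      rw [this, norm_neg, norm_mul, Complex.norm_I, mul_one, Complex.norm_real,
        Real.norm_of_nonneg (by positivity)]
      linarith
    have h2 := (hRS (hb h1)).1
    simp only [sub_im, mul_im, ofReal_re, I_im, mul_one, ofReal_im, I_re, mul_zero, add_zero] at h2
    linarith
  have hsub : ball c (ρ / 2) ⊆ ball c ρ := ball_subset_ball (by linarith)
  have hpos : ∀ z ∈ ball c (ρ / 2), 0 < z.im := by
    intro z hz
    rw [mem_ball, dist_eq_norm] at hz
    have h1 := (Complex.abs_im_le_norm (z - c)).trans_lt hz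
    rw [Complex.sub_im, abs_lt] at h1
    linarith [h1.1]
  have hK : IsCompact (pr '' R) := by
    have h1 : pr '' R = pr '' (R ∩ {z | 0 ≤ z.re ∧ z.re ≤ 1}) := by
      apply Subset.antisymm
      · rintro _ ⟨z, hz, rfl⟩
        refine ⟨z + ((-⌊z.re⌋ : ℤ) : ℂ), ⟨(hRk _ _).2 hz, ?_, ?_⟩, pr_add_int z _⟩
        · simp only [add_re, intCast_re]
          push_cast
          linarith [Int.floor_le z.re]
        · simp only [add_re, intCast_re]
          push_cast
          linarith [Int.lt_floor_add_one z.re]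
      · exact image_mono inter_subset_left
    rw [h1]
    refine IsCompact.image ?_ continuous_pr
    refine Metric.isCompact_of_isClosed_isBounded ?_ ?_
    · refine hRc.inter ?_
      exact (isClosed_le continuous_const Complex.continuous_re).inter
        (isClosed_le Complex.continuous_re continuous_const)
    · refine (Metric.isBounded_closedBall (x := (0 : ℂ)) (r := 2)).subset ?_
      rintro z ⟨hz1, hz2, hz3⟩
      have hz4 := hRS hz1
      rw [mem_closedBall_zero_iff]
      refine (Complex.norm_le_abs_re_add_abs_im z).trans ?_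
      rw [abs_of_nonneg hz2, abs_of_nonneg hz4.1]
      linarith [hz4.2]
  have hKD : pr '' R ⊆ Dsk := by
    rintro _ ⟨z, hz, rfl⟩
    exact pr_mem (hRS hz)
  have hfK : f '' (pr '' R) ⊆ pr '' R := by
    rintro _ ⟨_, ⟨z, hz, rfl⟩, rfl⟩
    exact ⟨F z, hFR z hz, hF.proj z (hRS hz)⟩
  have hvol := hF.vol (pr '' R) hKD hK.measurableSet
  have hdis : Disjoint (f '' (pr '' R)) (pr '' ball c (ρ / 2)) := by
    rw [Set.disjoint_left]
    rintro _ ⟨_, ⟨z, hz, rfl⟩, rfl⟩ ⟨w, hw, hwz⟩
    rw [← hF.proj z (hRS hz)] at hwz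
    obtain ⟨k, hk⟩ := pr_eq (hRS (hb (hsub hw))) (hRS (hFR z hz)) (hpos w hw) hwz
    have h1 : F (z + ((-k : ℤ) : ℂ)) = w := by
      rw [per_int hF.per, hk]
      push_cast
      ring
    refine hd (z + ((-k : ℤ) : ℂ)) ((hRk _ _).2 hz) ?_
    rw [h1]
    exact hsub hw
  have hsubK : f '' (pr '' R) ∪ pr '' ball c (ρ / 2) ⊆ pr '' R :=
    union_subset hfK (image_mono (hsub.trans hb))
  have hfm : MeasurableSet (f '' (pr '' R)) :=
    (hK.image_of_continuousOn (hF.cont.mono hKD)).measurableSet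
  have h1 := measure_mono hsubK (μ := volume)
  rw [measure_union' hdis hfm, hvol] at h1
  have h2 := pr_image_pos (isOpen_ball (x := c) (ε := ρ / 2))
    ⟨c, mem_ball_self (by positivity)⟩ hpos
  have h3 : volume (pr '' R) ≠ ⊤ := hK.measure_lt_top.ne
  have h4 : volume (pr '' R) < volume (pr '' R) + volume (pr '' ball c (ρ / 2)) :=
    ENNReal.lt_add_right h3 h2.ne'
  exact absurd h1 (not_le.2 h4)

end Pool.Agent.H70.PR
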