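import Pool.Agent.H70.PR.C5

/-!
# PR module C6: every brick is reachable from every brick (180 lines)

`local_finite`: near `z` only the bricks containing `z` occur. All `b j` are bounded, so only finitely
many pairs `(j, k)` have `b j + k` meeting `ball z 1`; each `b j + k` not containing `z` is closed, so it
misses a ball around `z`; take the minimum.
`reach_all`: fix `i`; `R = {z ∈ Strip | ∃ j, (∃ m, Walk F b i j m) ∧ ∃ k : ℤ, z - k ∈ b j}`.
* `R` is closed: by `local_finite` its complement in the closed strip is open in the strip (the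
  strip is closed); or: locally finite union of closed sets.
* `R` is periodic (change `k`).
* for `z ∈ R` there is `ε > 0` such that `w ∈ Strip`, `dist w (F z) < ε` imply `w ∈ R`: with `ε` from
  `local_finite` at `F z`: if `w - k ∈ b j` then `F z - k ∈ b j`; `z - k' ∈ b j'` with `j'` reachable, so
  there is an edge `j' → j`, so `j` is reachable. In particular `F z ∈ R`.
* `R` is nonempty (an edge out of `i` exists by `cover`).
* Let `V = {w ∈ R | ∃ ε > 0, ball w ε ∩ Strip ⊆ R}`. Then `V ⊆ F '' R`: else for `w ∈ V` not in the closed set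
  `F '' R` a small ball around `w` intersected with the strip is inside `R` and disjoint from `F '' R`, and
  it contains a ball of the plane (the strip is the closure of its interior):
  `no_ball_gap`. And `F '' R ⊆ V`. So `V = F '' R` is closed and relatively open in the strip, nonempty;
  the strip is convex, hence preconnected: `V = Strip`, `R = Strip`.
* Take `z` in the interior of `b j`: `z ∈ R`, so `z - k ∈ b j'` with `j'` reachable; `disj` gives `j' = j`.
-/

open Complex Set Metric Topology Filter MeasureTheory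
open Pool.Agent.H25.PR

namespace Pool.Agent.H70.PR

private theorem C6_far {ι : Type} {b : ι → Set ℂ} (hb : Bricks b) (i : ι) :
    ∃ C : ℝ, ∀ z ∈ b i, |z.re| ≤ C := by
  obtain ⟨C, hC⟩ := (hb.comp i).isBounded.exists_norm_le
  exact ⟨C, fun z hz => (Complex.abs_re_le_norm z).trans (hC z hz)⟩

theorem local_finite {ι : Type} [Finite ι] {b : ι → Set ℂ} (hb : Bricks b) (z : ℂ) :
    ∃ ε : ℝ, 0 < ε ∧ ∀ w : ℂ, dist w z < ε → ∀ j, ∀ k : ℤ, w - k ∈ b j → z - k ∈ b j := by
  classical
  have := Fintype.ofFinite ι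
  choose C hC using C6_far hb
  -- for every pair there is a radius
  have h1 : ∀ j, ∀ k : ℤ, ∃ δ : ℝ, 0 < δ ∧ ∀ w : ℂ, dist w z < δ → w - k ∈ b j → z - k ∈ b j := by
    intro j k
    by_cases hz : z - k ∈ b j
    · exact ⟨1, one_pos, fun _ _ _ => hz⟩
    · have hop : IsOpen {w : ℂ | w - k ∉ b j} :=
        ((hb.comp j).isClosed.isOpen_compl).preimage (continuous_id.sub continuous_const)
      obtain ⟨δ, hδ, hsub⟩ := Metric.isOpen_iff.1 hop z hz
      exact ⟨δ, hδ, fun w hw hwj => absurd hwj (hsub hw)⟩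
  choose δ hδ0 hδ using h1
  -- only finitely many k matter
  obtain ⟨n, hn⟩ : ∃ n : ℕ, ∀ j, |z.re| + 1 + C j < n := by
    obtain ⟨M, hM⟩ := (Set.finite_range C).bddAbove
    obtain ⟨n, hn⟩ := exists_nat_gt (|z.re| + 1 + M)
    refine ⟨n, fun j => lt_of_le_of_lt ?_ hn⟩
    have := hM ⟨j, rfl⟩
    linarith
  let S : Finset (ι × ℤ) := Finset.univ ×ˢ Finset.Icc (-(n : ℤ)) n
  have hfin : ∃ ε : ℝ, 0 < ε ∧ ∀ p ∈ S, ε ≤ δ p.1 p.2 := by
    by_cases hS : S.Nonempty
    · obtain ⟨p, hp, hmin⟩ := S.exists_min_image (fun p => δ p.1 p.2) hS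
      exact ⟨δ p.1 p.2, hδ0 _ _, hmin⟩
    · rw [Finset.not_nonempty_iff_eq_empty] at hS
      exact ⟨1, one_pos, by simp [hS]⟩
  obtain ⟨ε, hε0, hε⟩ := hfin
  refine ⟨min ε 1, by positivity, fun w hw j k hwj => ?_⟩
  have hw1 : dist w z < ε := hw.trans_le (min_le_left _ _)
  have hw2 : dist w z < 1 := hw.trans_le (min_le_right _ _)
  have hk : k ∈ Finset.Icc (-(n : ℤ)) n := by
    have h2 := hC j _ hwj
    have h3 : |w.re - z.re| < 1 := by
      rw [dist_eq_norm] at hw2
      have := (Complex.abs_re_le_norm (w - z)).trans_lt hw2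
      rwa [Complex.sub_re] at this
    have h4 : |((k : ℝ))| < n := by
      have h5 : (k : ℝ) = z.re + (w.re - z.re) - (w - k).re := by
        simp
      rw [h5]
      calc |z.re + (w.re - z.re) - (w - ↑k).re| ≤ |z.re + (w.re - z.re)| + |(w - ↑k).re| :=
            abs_sub _ _
        _ ≤ |z.re| + |w.re - z.re| + |(w - ↑k).re| := by
            gcongr
            exact abs_add_le _ _
        _ < n := by
            have := hn j
            linarith
    rw [abs_lt] at h4
    rw [Finset.mem_Icc]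
    constructor
    · have : ((-(n : ℤ) : ℤ) : ℝ) < (k : ℝ) := by push_cast; exact h4.1
      exact (Int.cast_lt.1 this).le
    · have : (k : ℝ) < ((n : ℤ) : ℝ) := by push_cast; exact h4.2
      exact (Int.cast_lt.1 this).le
  exact hδ j k w (hw1.trans_le (hε (j, k) (Finset.mem_product.2 ⟨Finset.mem_univ _, hk⟩))) hwj

theorem strip_closed : IsClosed Strip :=
  (isClosed_le continuous_const Complex.continuous_im).inter
    (isClosed_le Complex.continuous_im continuous_const)

theorem strip_preconnected : IsPreconnected Strip := by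
  have h1 : Convex ℝ Strip := by
    have h2 : Strip = Complex.imLm ⁻¹' (Set.Icc (0 : ℝ) 1) := by
      ext z
      simp [Strip]
    rw [h2]
    exact (convex_Icc 0 1).linear_preimage _
  exact h1.isPreconnected

/-- a relatively open nonempty piece of the strip contains a ball -/
theorem strip_ball {w : ℂ} (hw : w ∈ Strip) {ε : ℝ} (hε : 0 < ε) :
    ∃ (c : ℂ) (ρ : ℝ), 0 < ρ ∧ ball c ρ ⊆ ball w ε ∩ Strip := by
  obtain ⟨h0, h1⟩ := hw
  -- move the point towards the middle of the strip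
  obtain ⟨s, hs1, hs2, hs3, hs4⟩ : ∃ s : ℝ, |s| ≤ ε / 2 ∧ 0 < w.im + s ∧ w.im + s < 1 ∧ True := by
    by_cases h : w.im ≤ 1 / 2
    · refine ⟨min (ε / 2) (1 / 4), ?_, ?_, ?_, trivial⟩
      · rw [abs_of_nonneg (by positivity)]
        exact min_le_left _ _
      · have : 0 < min (ε / 2) (1 / 4) := by positivity
        linarith
      · have : min (ε / 2) (1 / 4) ≤ 1 / 4 := min_le_right _ _
        linarith
    · rw [not_le] at h
      refine ⟨-min (ε / 2) (1 / 4), ?_, ?_, ?_, trivial⟩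
      · rw [abs_neg, abs_of_nonneg (by positivity)]
        exact min_le_left _ _
      · have : min (ε / 2) (1 / 4) ≤ 1 / 4 := min_le_right _ _
        linarith
      · have : 0 < min (ε / 2) (1 / 4) := by positivity
        linarith
  refine ⟨w + (s : ℂ) * I, min (ε / 2) (min (w.im + s) (1 - (w.im + s))), ?_, ?_⟩
  · refine lt_min (by positivity) (lt_min hs2 (by linarith))
  · intro z hz
    rw [mem_ball, dist_eq_norm] at hz
    have hz1 := hz.trans_le (min_le_left _ _)
    have hz2 := hz.trans_le ((min_le_right _ _).trans (min_le_left _ _))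
    have hz3 := hz.trans_le ((min_le_right _ _).trans (min_le_right _ _))
    have him := Complex.abs_im_le_norm (z - (w + (s : ℂ) * I))
    have him' : (z - (w + (s : ℂ) * I)).im = z.im - (w.im + s) := by simp
    rw [him'] at him
    have him2 := him.trans_lt hz2
    have him3 := him.trans_lt hz3
    rw [abs_lt] at him2 him3
    refine ⟨?_, by linarith [him2.1], by linarith [him3.2]⟩
    rw [mem_ball, dist_eq_norm]
    calc ‖z - w‖ = ‖(z - (w + (s : ℂ) * I)) + (s : ℂ) * I‖ := by congr 1; ring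
      _ ≤ ‖z - (w + (s : ℂ) * I)‖ + ‖(s : ℂ) * I‖ := norm_add_le _ _
      _ < ε / 2 + ε / 2 := by
          refine add_lt_add_of_lt_of_le hz1 ?_
          rw [norm_mul, Complex.norm_I, mul_one, Complex.norm_real]
          exact hs1
      _ = ε := by ring

theorem reach_all {ι : Type} [Finite ι] {f : ℂ → ℂ} {F : ℂ ≃ₜ ℂ} (hF : AnnLift f F)
    {b : ι → Set ℂ} (hb : Bricks b) (i j : ι) : ∃ m, Walk F b i j m := by
  classical
  let R : Set ℂ := {z | z ∈ Strip ∧ ∃ j, (∃ m, Walk F b i j m) ∧ ∃ k : ℤ, z - k ∈ b j}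
  have hRS : R ⊆ Strip := fun z hz => hz.1
  -- closed
  have hRc : IsClosed R := by
    rw [← isOpen_compl_iff, Metric.isOpen_iff]
    intro z hz
    by_cases hzS : z ∈ Strip
    · obtain ⟨ε, hε, h1⟩ := local_finite hb z
      refine ⟨ε, hε, fun w hw hwR => hz ?_⟩
      obtain ⟨hwS, j', hj', k, hk⟩ := hwR
      exact ⟨hzS, j', hj', k, h1 w hw j' k hk⟩
    · obtain ⟨ε, hε, h1⟩ := Metric.isOpen_iff.1 strip_closed.isOpen_compl z hzS
      exact ⟨ε, hε, fun w hw hwR => h1 hw hwR.1⟩
  -- periodic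
  have hRp : ∀ z, z + 1 ∈ R ↔ z ∈ R := by
    intro z
    have hS : z + 1 ∈ Strip ↔ z ∈ Strip := by
      simp [Strip]
    constructor
    · rintro ⟨h1, j', hj', k, hk⟩
      refine ⟨hS.1 h1, j', hj', k - 1, ?_⟩
      have : z - ((k - 1 : ℤ) : ℂ) = z + 1 - k := by push_cast; ring
      rw [this]
      exact hk
    · rintro ⟨h1, j', hj', k, hk⟩
      refine ⟨hS.2 h1, j', hj', k + 1, ?_⟩
      have : z + 1 - ((k + 1 : ℤ) : ℂ) = z - k := by push_cast; ring
      rw [this]
      exact hk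
  -- forward neighbourhoods
  have hnb : ∀ z ∈ R, ∃ ε : ℝ, 0 < ε ∧ ∀ w ∈ Strip, dist w (F z) < ε → w ∈ R := by
    intro z hz
    obtain ⟨hzS, j', ⟨m', hm'⟩, k', hk'⟩ := hz
    obtain ⟨ε, hε, h1⟩ := local_finite hb (F z)
    refine ⟨ε, hε, fun w hw hwd => ?_⟩
    obtain ⟨j2, k, hk⟩ := hb.cover w hw
    have h2 := h1 w hwd j2 k hk
    have h3 : Edge F b j' j2 (k - k') := by
      refine ⟨z - k', hk', ?_⟩
      have h4 : F (z - k') = F z - k' := by
        have := per_int hF.per z (-k')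
        push_cast at this
        rw [← sub_eq_add_neg, ← sub_eq_add_neg] at this
        exact this
      have h5 : F (z - k') - ((k - k' : ℤ) : ℂ) = F z - k := by
        rw [h4]
        push_cast
        ring
      rw [h5]
      exact h2
    exact ⟨hw, j2, ⟨m' + (k - k'), walk_trans hm' (Walk.one h3)⟩, k, hk⟩
  have hFR : ∀ z ∈ R, F z ∈ R := by
    intro z hz
    obtain ⟨ε, hε, h1⟩ := hnb z hz
    exact h1 (F z) (hF.strip z hz.1) (by rw [dist_self]; exact hε)
  -- nonempty
  have hne : R.Nonempty := by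
    obtain ⟨z, hz⟩ := hb.int i
    have hzb := interior_subset hz
    have hzS := hb.strip i hzb
    obtain ⟨j2, k, hk⟩ := hb.cover (F z) (hF.strip z hzS)
    exact ⟨F z, hF.strip z hzS, j2, ⟨k, Walk.one ⟨z, hzb, hk⟩⟩, k, hk⟩
  -- F '' R is closed
  have hFRc : IsClosed (F '' R) := F.isClosedMap R hRc
  -- the strip is contained in F '' R
  have hkey : ∀ w ∈ R, ∀ ε : ℝ, 0 < ε → ball w ε ∩ Strip ⊆ R → w ∈ F '' R := by
    intro w hw ε hε hsub
    by_contra hn
    obtain ⟨ε', hε', h1⟩ := Metric.isOpen_iff.1 hFRc.isOpen_compl w hn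
    obtain ⟨c, ρ, hρ, hball⟩ := strip_ball hw.1 (ε := min ε ε') (by positivity)
    refine no_ball_gap (c := c) hF hRc hRS hRp hFR hρ ?_ ?_
    · intro x hx
      obtain ⟨hx1, hx2⟩ := hball hx
      exact hsub ⟨ball_subset_ball (min_le_left _ _) hx1, hx2⟩
    · intro x hx hxb
      obtain ⟨hx1, hx2⟩ := hball hxb
      exact h1 (ball_subset_ball (min_le_right _ _) hx1) ⟨x, hx, rfl⟩
  have hall : Strip ⊆ F '' R := by
    -- F '' R is relatively open
    have hopen : ∀ w ∈ F '' R, ∃ ε : ℝ, 0 < ε ∧ ball w ε ∩ Strip ⊆ F '' R := by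
      rintro _ ⟨z, hz, rfl⟩
      obtain ⟨ε, hε, h1⟩ := hnb z hz
      refine ⟨ε, hε, ?_⟩
      rintro w ⟨hw1, hw2⟩
      rw [mem_ball] at hw1
      refine hkey w (h1 w hw2 hw1) (ε - dist w (F z)) (by linarith) ?_
      rintro x ⟨hx1, hx2⟩
      rw [mem_ball] at hx1
      exact h1 x hx2 (by linarith [dist_triangle x w (F z)])
    let U : Set ℂ := {w | ∃ ε : ℝ, 0 < ε ∧ ball w ε ∩ Strip ⊆ F '' R}
    have hU : IsOpen U := by
      rw [Metric.isOpen_iff]
      rintro w ⟨ε, hε, h1⟩
      refine ⟨ε / 2, by positivity, fun x hx => ⟨ε / 2, by positivity, ?_⟩⟩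
      rintro y ⟨hy1, hy2⟩
      rw [mem_ball] at hx hy1
      refine h1 ⟨?_, hy2⟩
      rw [mem_ball]
      linarith [dist_triangle y x w]
    have hV : IsOpen (F '' R)ᶜ := hFRc.isOpen_compl
    by_contra hcon
    obtain ⟨x, hx1, hx2⟩ := Set.not_subset.1 hcon
    obtain ⟨z0, hz0⟩ := hne
    have hcov : Strip ⊆ U ∪ (F '' R)ᶜ := by
      intro w _
      by_cases h : w ∈ F '' R
      · exact Or.inl (hopen w h)
      · exact Or.inr h
    obtain ⟨y, hy1, hy2, hy3⟩ := strip_preconnected U (F '' R)ᶜ hU hV hcov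
      ⟨F z0, hF.strip z0 hz0.1, hopen _ ⟨z0, hz0, rfl⟩⟩ ⟨x, hx1, hx2⟩
    obtain ⟨ε, hε, h1⟩ := hy2
    exact hy3 (h1 ⟨mem_ball_self hε, hy1⟩)
  obtain ⟨z, hz⟩ := hb.int j
  have hzS : z ∈ Strip := hb.strip j (interior_subset hz)
  obtain ⟨y, hy, hyz⟩ := hall hzS
  have hzR : z ∈ R := by
    rw [← hyz]
    exact hFR y hy
  obtain ⟨_, j', hj', k, hk⟩ := hzR
  obtain ⟨h1, _⟩ := hb.disj j j' k z hz hk
  rw [h1]
  exact hj'

end Pool.Agent.H70.PR
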