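import Pool.Agent.H70.PR.C2
import Pool.Agent.H70.PR.C3
import Pool.Agent.H70.PR.C4
import Pool.Agent.H70.PR.C6

/-!
# PR module C7: the sign lemma (120 lines)

`closed_walk_of_far`: the bricks are bounded: `|z.re| ≤ C0` on all `b i` (`Finite ι`). For each pair choose
a walk `j → i` with displacement `c j i`, `|c j i| ≤ C1`. Take `z, l` from `Far` with `M = 2 C0 + C1 + 1`;
`z - k ∈ b i`, `F^[l] z - k' ∈ b j` (`cover`; `F^[l] z` is in the strip); `walk_iterate` and `walk_trans` give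
`Walk F b i i (k' - k + c j i)`, and `σ (k' - k) ≥ σ (re F^[l] z - re z) - 2 C0`.
`closed_walk_pos`: if `m = 0`: `no_zero_walk`; if `m < 0`: `walk_sign` with the walk of `closed_walk_of_far`
(`σ = 1`).
`annLift_sign`: take a grid (`bricks_grid`, `grid_free`); `closed_walk_of_far` for `σ = -1` gives a walk with
`m < 0`, against `closed_walk_pos`.
-/

open Complex Set Metric Topology Filter MeasureTheory
open Pool.Agent.H25.PR

namespace Pool.Agent.H70.PR

private theorem C7_iter {f : ℂ → ℂ} {F : ℂ ≃ₜ ℂ} (hF : AnnLift f F) (l : ℕ) :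
    ∀ z ∈ Strip, F^[l] z ∈ Strip := by
  induction l with
  | zero => intro z hz; exact hz
  | succ n ih =>
    intro z hz
    rw [Function.iterate_succ_apply]
    exact ih _ (hF.strip z hz)

theorem closed_walk_of_far {ι : Type} [Finite ι] {f : ℂ → ℂ} {F : ℂ ≃ₜ ℂ} (hF : AnnLift f F)
    {b : ι → Set ℂ} (hb : Bricks b) {σ : ℝ} (hσ : σ = 1 ∨ σ = -1) (hfar : Far F σ) :
    ∃ i m, Walk F b i i m ∧ 0 < σ * m := by
  classical
  have hC : ∀ i, ∃ C : ℝ, ∀ z ∈ b i, |z.re| ≤ C := by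
    intro i
    obtain ⟨C, hC⟩ := (hb.comp i).isBounded.exists_norm_le
    exact ⟨C, fun z hz => (Complex.abs_re_le_norm z).trans (hC z hz)⟩
  choose C hC using hC
  choose c hc using reach_all hF hb
  obtain ⟨C0, hC0⟩ := (Set.finite_range C).bddAbove
  obtain ⟨C1, hC1⟩ := (Set.finite_range (fun p : ι × ι => |(c p.1 p.2 : ℝ)|)).bddAbove
  obtain ⟨z, hz, l, hl, hM⟩ := hfar (2 * C0 + C1 + 1)
  obtain ⟨i, k, hk⟩ := hb.cover z hz
  obtain ⟨j, k', hk'⟩ := hb.cover _ (C7_iter hF l z hz)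
  have hw := walk_iterate hF.per hF.strip hb.cover l hl z hz i j k k' hk hk'
  refine ⟨i, (k' - k) + c j i, walk_trans hw (hc j i), ?_⟩
  have h1 : |z.re - k| ≤ C0 := by
    have h := (hC i _ hk).trans (hC0 ⟨i, rfl⟩)
    simpa using h
  have h2 : |(F^[l] z).re - k'| ≤ C0 := by
    have h := (hC j _ hk').trans (hC0 ⟨j, rfl⟩)
    simpa using h
  have h3 : |(c j i : ℝ)| ≤ C1 := hC1 ⟨(j, i), rfl⟩
  rw [abs_le] at h1 h2 h3
  push_cast
  rcases hσ with rfl | rfl
  · linarith [h1.1, h1.2, h2.1, h2.2, h3.1, h3.2]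
  · linarith [h1.1, h1.2, h2.1, h2.2, h3.1, h3.2]

theorem closed_walk_pos {ι : Type} [Finite ι] {f : ℂ → ℂ} {F : ℂ ≃ₜ ℂ} (hF : AnnLift f F)
    (h1 : NoFix F) {b : ι → Set ℂ} (hb : Bricks b) (hf : FreeB F b) (hfar : Far F 1) (i : ι)
    (m : ℤ) (hw : Walk F b i i m) : 1 ≤ m := by
  by_contra hm
  have hz : ∀ i, ¬ Walk F b i i 0 := fun i => no_zero_walk hb F hF.iso h1 hF.per hf i
  rcases (show m = 0 ∨ m < 0 by omega) with h0 | h0
  · subst h0
    exact hz i hw
  · obtain ⟨i', k, hk, hk0⟩ := closed_walk_of_far hF hb (Or.inl rfl) hfar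
    rw [one_mul] at hk0
    have hk1 : 0 < k := by exact_mod_cast hk0
    refine walk_sign hz (reach_all hF hb) hk1 (l := -m) (by omega) hk (j := i) ?_
    rw [neg_neg]
    exact hw

theorem annLift_sign {f : ℂ → ℂ} {F : ℂ ≃ₜ ℂ} (hF : AnnLift f F) (h1 : NoFix F)
    (hp : Far F 1) (hn : Far F (-1)) : False := by
  obtain ⟨N, hN, hfree⟩ := grid_free F.continuous hF.per h1
  have hb := bricks_grid N hN
  have hf : FreeB F (fun i : Fin N × Fin N => cell N i.1 i.2) := by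
    intro i z hz
    exact hfree N le_rfl i.1 i.2 z hz (hb.strip i hz)
  obtain ⟨i, m, hw, hm⟩ := closed_walk_of_far hF hb (Or.inr rfl) hn
  have h2 := closed_walk_pos hF h1 hb hf hp i m hw
  have h3 : (1 : ℝ) ≤ m := by exact_mod_cast h2
  linarith

end Pool.Agent.H70.PR
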