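import Pool.Agent.H70.PR.C5

/-!
# PR module D1: the polar quotient (150 lines)

`A (e x) / e x` is continuous and nonzero (`A` is injective since `A.det ≠ 0`).
For `0 < r`: with `ρ = min r 1 ∈ (0,1]`, `f (ρ e x) / (ρ e x)`; nonzero since `f z = 0 = f 0` implies `z = 0`
(`gf`). Continuity at `(x0, r0)`: `r0 < 0`: locally the first formula; `r0 > 0`: the second formula
and `ContinuousOn f Dsk` (the point `ρ e x` is in `Dsk`); `r0 = 0`: `HasFDerivAt f A 0`, `f 0 = 0`: for `ρ → 0+`,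
`‖f (ρ e x) - ρ A (e x)‖ ≤ ε ρ` for `ρ < δ` and ALL `x`, so `‖polQ f A x r - A (e x) / e x‖ ≤ ε` for `r < δ`
(both formulas), then use the continuity of `A (e x) / e x`.
-/

open Complex Set Metric Topology Filter MeasureTheory
open Pool.Agent.H25.PR

namespace Pool.Agent.H70.PR

variable {f g : ℂ → ℂ} {A B : ℂ →L[ℝ] ℂ}

theorem discHomeo_symm (h : DiscHomeo f g A B) (hv : ∀ E : Set ℂ, E ⊆ Dsk → MeasurableSet E →
    volume (g '' E) = volume E) : DiscHomeo g f B A := by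
  refine ⟨h.gc, h.fc, h.gm, h.fm, h.fg, h.gf, ?_, h.gb, h.fb, h.gB, h.fA, h.Bpos, h.Apos, hv⟩
  have := h.gf 0 (by simp)
  rwa [h.f0] at this

/-- the inverse preserves area -/
theorem vol_symm (h : DiscHomeo f g A B) (E : Set ℂ) (hE : E ⊆ Dsk) (hm : MeasurableSet E) :
    volume (g '' E) = volume E := by
  -- `g '' E = {z ∈ Dsk | f z ∈ E}` is measurable (`f` continuous on `Dsk`), `f '' (g '' E) = E`
  have h1 : g '' E = Subtype.val '' ((Dsk.domRestrict f) ⁻¹' E) := by
    ext z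
    constructor
    · rintro ⟨w, hw, rfl⟩
      refine ⟨⟨g w, h.gm (hE hw)⟩, ?_, rfl⟩
      change f (g w) ∈ E
      rw [h.fg w (hE hw)]
      exact hw
    · rintro ⟨⟨w, hw⟩, hwE, rfl⟩
      exact ⟨f w, hwE, h.gf w hw⟩
  have hDm : MeasurableSet Dsk := Metric.isClosed_closedBall.measurableSet
  have h2 : MeasurableSet (g '' E) := by
    rw [h1]
    exact hDm.subtype_image ((h.fc.domRestrict.measurable) hm)
  have h3 : g '' E ⊆ Dsk := by
    rintro _ ⟨w, hw, rfl⟩
    exact h.gm (hE hw)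
  have h4 : f '' (g '' E) = E := by
    ext z
    constructor
    · rintro ⟨_, ⟨w, hw, rfl⟩, rfl⟩
      rw [h.fg w (hE hw)]
      exact hw
    · intro hz
      exact ⟨g z, ⟨z, hz, rfl⟩, h.fg z (hE hz)⟩
  rw [← h.vol (g '' E) h3 h2, h4]

private theorem D1_e_ne (x : ℝ) : e x ≠ 0 := by
  intro h
  have := norm_e x
  rw [h, norm_zero] at this
  exact zero_ne_one this

private theorem D1_mem {ρ : ℝ} (h0 : 0 ≤ ρ) (h1 : ρ ≤ 1) (x : ℝ) : (ρ : ℂ) * e x ∈ Dsk := by
  rw [mem_closedBall_zero_iff, norm_mul, norm_e, mul_one, Complex.norm_real,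
    Real.norm_of_nonneg h0]
  exact h1

private theorem D1_inj (hA : 0 < A.det) {v : ℂ} (hv : A v = 0) : v = 0 := by
  have h1 : LinearMap.det (A : ℂ →ₗ[ℝ] ℂ) ≠ 0 := hA.ne'
  have h2 : Function.Injective (A : ℂ →ₗ[ℝ] ℂ) := by
    have h3 := (LinearMap.equivOfDetNeZero _ h1).injective
    exact h3
  apply h2
  rw [map_zero]
  exact hv

theorem polQ_ne_zero (h : DiscHomeo f g A B) (x r : ℝ) : polQ f A x r ≠ 0 := by
  unfold polQ
  split_ifs with hr
  · refine div_ne_zero ?_ (D1_e_ne x)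
    intro h0
    exact D1_e_ne x (D1_inj h.Apos h0)
  · push Not at hr
    have hρ : 0 < min r 1 := lt_min hr one_pos
    have hρ1 : min r 1 ≤ 1 := min_le_right _ _
    have hne : ((min r 1 : ℝ) : ℂ) * e x ≠ 0 :=
      mul_ne_zero (by exact_mod_cast hρ.ne') (D1_e_ne x)
    refine div_ne_zero ?_ hne
    intro h0
    apply hne
    rw [← h.gf _ (D1_mem hρ.le hρ1 x), h0]
    have h1 := h.gf 0 (by simp)
    rwa [h.f0] at h1

private theorem D1_e_per (x : ℝ) : e (x + 1) = e x := by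
  rw [e_eq_iff]
  exact ⟨1, by norm_num⟩

theorem polQ_per (f : ℂ → ℂ) (A : ℂ →L[ℝ] ℂ) (x r : ℝ) : polQ f A (x + 1) r = polQ f A x r := by
  unfold polQ
  rw [D1_e_per]

theorem polQ_low (f : ℂ → ℂ) (A : ℂ →L[ℝ] ℂ) (x r : ℝ) (hr : r ≤ 0) :
    polQ f A x r = polQ f A x 0 := by
  unfold polQ
  rw [if_pos hr, if_pos le_rfl]

theorem polQ_high (f : ℂ → ℂ) (A : ℂ →L[ℝ] ℂ) (x r : ℝ) (hr : 1 ≤ r) :
    polQ f A x r = polQ f A x 1 := by
  unfold polQ
  rw [if_neg (by linarith), if_neg (by norm_num), min_eq_right hr, min_self]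

theorem polQ_mul (h : DiscHomeo f g A B) (x r : ℝ) (h0 : 0 ≤ r) (h1 : r ≤ 1) :
    f ((r : ℂ) * e x) = (r : ℂ) * e x * polQ f A x r := by
  unfold polQ
  rcases h0.eq_or_lt with h2 | h2
  · subst h2
    rw [Complex.ofReal_zero, zero_mul, zero_mul, h.f0]
  · rw [if_neg (by linarith), min_eq_left h1, mul_div_cancel₀]
    exact mul_ne_zero (by exact_mod_cast h2.ne') (D1_e_ne x)

private theorem D1_cont_e : Continuous e := by
  unfold e
  fun_prop

theorem polQ_continuous (h : DiscHomeo f g A B) :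
    Continuous (fun p : ℝ × ℝ => polQ f A p.1 p.2) := by
  have hφ : Continuous (fun p : ℝ × ℝ => A (e p.1) / e p.1) := by
    refine Continuous.div ?_ ?_ (fun p => D1_e_ne p.1)
    · exact A.continuous.comp (D1_cont_e.comp continuous_fst)
    · exact D1_cont_e.comp continuous_fst
  rw [continuous_iff_continuousAt]
  rintro ⟨x0, r0⟩
  rcases lt_trichotomy r0 0 with hr | hr | hr
  · refine hφ.continuousAt.congr ?_
    have h1 : ∀ᶠ p : ℝ × ℝ in 𝓝 (x0, r0), p.2 < 0 :=
      (continuous_snd.tendsto (x0, r0)).eventually (gt_mem_nhds hr)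
    filter_upwards [h1] with p hp
    unfold polQ
    rw [if_pos hp.le]
  · subst hr
    -- uniform closeness to the derivative
    have h2 : ∀ ε : ℝ, 0 < ε → ∃ δ : ℝ, 0 < δ ∧ ∀ x r : ℝ, r < δ →
        ‖polQ f A x r - A (e x) / e x‖ ≤ ε := by
      intro ε hε
      have h3 := (hasFDerivAt_iff_isLittleO_nhds_zero.1 h.fA).def hε
      rw [Metric.eventually_nhds_iff] at h3
      obtain ⟨δ, hδ, h3⟩ := h3
      refine ⟨δ, hδ, ?_⟩
      intro x r hr
      unfold polQ
      split_ifs with h4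
      · rw [sub_self, norm_zero]
        exact hε.le
      · push Not at h4
        set ρ : ℝ := min r 1 with hρ
        have hρ0 : 0 < ρ := lt_min h4 one_pos
        have hρδ : ρ < δ := (min_le_left _ _).trans_lt hr
        have hnorm : ‖(ρ : ℂ) * e x‖ = ρ := by
          rw [norm_mul, norm_e, mul_one, Complex.norm_real, Real.norm_of_nonneg hρ0.le]
        have hne : (ρ : ℂ) * e x ≠ 0 := mul_ne_zero (by exact_mod_cast hρ0.ne') (D1_e_ne x)
        have h5 := h3 (y := (ρ : ℂ) * e x) (by rw [dist_zero_right, hnorm]; exact hρδ)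
        rw [zero_add, h.f0, sub_zero, hnorm] at h5
        have h6 : A ((ρ : ℂ) * e x) = (ρ : ℂ) * A (e x) := by
          have h7 : (ρ : ℂ) * e x = ρ • e x := by rw [Complex.real_smul]
          rw [h7, map_smul, Complex.real_smul]
        have h8 : f ((ρ : ℂ) * e x) / ((ρ : ℂ) * e x) - A (e x) / e x =
            (f ((ρ : ℂ) * e x) - A ((ρ : ℂ) * e x)) / ((ρ : ℂ) * e x) := by
          have hρc : (ρ : ℂ) ≠ 0 := by exact_mod_cast hρ0.ne'
          have hec := D1_e_ne x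
          rw [h6]
          field_simp
        rw [h8, norm_div, hnorm, div_le_iff₀ hρ0]
        exact h5
    have h3 : Tendsto (fun p : ℝ × ℝ => polQ f A p.1 p.2 - A (e p.1) / e p.1) (𝓝 (x0, 0))
        (𝓝 0) := by
      rw [Metric.tendsto_nhds]
      intro ε hε
      obtain ⟨δ, hδ, h4⟩ := h2 (ε / 2) (by linarith)
      have h5 : ∀ᶠ p : ℝ × ℝ in 𝓝 (x0, (0 : ℝ)), p.2 < δ :=
        (continuous_snd.tendsto (x0, (0 : ℝ))).eventually (gt_mem_nhds hδ)
      filter_upwards [h5] with p hp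
      rw [dist_zero_right]
      exact (h4 p.1 p.2 hp).trans_lt (by linarith)
    have h4 := h3.add (hφ.tendsto (x0, (0 : ℝ)))
    have h5 : polQ f A x0 0 = 0 + A (e x0) / e x0 := by
      unfold polQ
      rw [if_pos le_rfl, zero_add]
    unfold ContinuousAt
    beta_reduce
    rw [h5]
    refine h4.congr fun p => ?_
    rw [sub_add_cancel]
  · have h1 : ∀ᶠ p : ℝ × ℝ in 𝓝 (x0, r0), 0 < p.2 :=
      (continuous_snd.tendsto (x0, r0)).eventually (lt_mem_nhds hr)
    have hz : Continuous (fun p : ℝ × ℝ => ((min p.2 1 : ℝ) : ℂ) * e p.1) :=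
      (Complex.continuous_ofReal.comp (continuous_snd.min continuous_const)).mul
        (D1_cont_e.comp continuous_fst)
    have hρ : ∀ p : ℝ × ℝ, 0 < p.2 → ((min p.2 1 : ℝ) : ℂ) * e p.1 ∈ Dsk := fun p hp =>
      D1_mem (lt_min hp one_pos).le (min_le_right _ _) p.1
    have h2 : Tendsto (fun p : ℝ × ℝ => ((min p.2 1 : ℝ) : ℂ) * e p.1) (𝓝 (x0, r0))
        (𝓝[Dsk] (((min r0 1 : ℝ) : ℂ) * e x0)) := by
      rw [tendsto_nhdsWithin_iff]
      refine ⟨hz.tendsto (x0, r0), ?_⟩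
      filter_upwards [h1] with p hp
      exact hρ p hp
    have h3 := (h.fc _ (hρ (x0, r0) hr)).tendsto.comp h2
    have h4 := h3.div (hz.tendsto (x0, r0))
      (mul_ne_zero (by exact_mod_cast (lt_min hr one_pos).ne') (D1_e_ne x0))
    unfold ContinuousAt
    have h5 : polQ f A x0 r0 = f (((min r0 1 : ℝ) : ℂ) * e x0) / (((min r0 1 : ℝ) : ℂ) * e x0) := by
      unfold polQ
      rw [if_neg (by linarith)]
    beta_reduce
    rw [h5]
    refine Tendsto.congr' ?_ h4
    filter_upwards [h1] with p hp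
    unfold polQ
    rw [if_neg (by linarith)]
    rfl

end Pool.Agent.H70.PR
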