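import Pool.Agent.H70.PR.C7

/-!
# PR module D10: visits to a cell give displacement (130 lines)

Lift `x` to `z ∈ Strip`, `pr z = x` (`pr_surj`). `pr (F^[m] z) = f^[m] x` (induction, `proj`, `strip`). For `m ∈ V`:
`f^[m] x = pr b0` with `b0 ∈ b i0`, `0 < b0.im`, so by `pr_eq` `F^[m] z = b0 + k`: a (chosen) integer `κ m` with
`F^[m] z - κ m ∈ b i0`. For `m < m'` in `V`: `walk_iterate` from the point `F^[m] z` with `l = m' - m` gives a
walk `i0 → i0` of displacement `κ m' - κ m`, so `κ m + 1 ≤ κ m'`. Hence for `m1 = min V`, `m2 = max V`: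
`κ m2 - κ m1 ≥ card V - 1` (the map `κ` is strictly increasing on `V` with values in the interval
`[κ m1, κ m2]`, so `card V ≤ κ m2 - κ m1 + 1`). `y = F^[m1] z - κ m1`, `m = m2 - m1`, `k = κ m2 - κ m1`
(`F^[m] (w - k) = F^[m] w - k` for integers `k`).
-/

open Complex Set Metric Topology Filter MeasureTheory
open Pool.Agent.H25.PR

namespace Pool.Agent.H70.PR

private lemma D10_sub {F : ℂ → ℂ} (hp : ∀ z, F (z + 1) = F z + 1) (k : ℤ) (m : ℕ) (w : ℂ) :
    F^[m] (w - k) = F^[m] w - k := by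
  induction m with
  | zero => rfl
  | succ m ih =>
    rw [Function.iterate_succ_apply', Function.iterate_succ_apply', ih]
    have h := per_int hp (F^[m] w - k) k
    rw [sub_add_cancel] at h
    rw [h, add_sub_cancel_right]

theorem visits_walk {ι : Type} {f : ℂ → ℂ} {F : ℂ ≃ₜ ℂ} (hF : AnnLift f F) {b : ι → Set ℂ}
    (hb : Bricks b) (hw : ∀ i m, Walk F b i i m → 1 ≤ m) (i0 : ι) (hpos : ∀ z ∈ b i0, 0 < z.im)
    (n : ℕ) (x : ℂ) (hx : x ∈ Dsk) (V : Finset ℕ) (hVn : ∀ m ∈ V, m < n)
    (hV : ∀ m ∈ V, f^[m] x ∈ pr '' b i0) (hne : V.Nonempty) :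
    ∃ y ∈ b i0, ∃ m < n, ∃ k : ℤ, (V.card : ℤ) - 1 ≤ k ∧ F^[m] y - k ∈ b i0 := by
  obtain ⟨z, hz, hzx, -, -⟩ := pr_surj hx
  have hS : ∀ m, F^[m] z ∈ Strip := by
    intro m
    induction m with
    | zero => exact hz
    | succ m ih =>
      rw [Function.iterate_succ_apply']
      exact hF.strip _ ih
  have hP : ∀ m, pr (F^[m] z) = f^[m] x := by
    intro m
    induction m with
    | zero => exact hzx
    | succ m ih =>
      rw [Function.iterate_succ_apply', Function.iterate_succ_apply', hF.proj _ (hS m), ih]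
  have key : ∀ m, ∃ k : ℤ, m ∈ V → F^[m] z - k ∈ b i0 := by
    intro m
    by_cases hm : m ∈ V
    · obtain ⟨b0, hb0, hb1⟩ := hV m hm
      obtain ⟨k, hk⟩ := pr_eq (hb.strip i0 hb0) (hS m) (hpos b0 hb0) (by rw [hb1, hP m])
      refine ⟨k, fun _ => ?_⟩
      rw [hk, add_sub_cancel_right]
      exact hb0
    · exact ⟨0, fun h => absurd h hm⟩
  choose κ hκ using key
  have step : ∀ m ∈ V, ∀ m' ∈ V, m < m' → κ m + 1 ≤ κ m' := by
    intro m hm m' hm' hlt
    have h1 := walk_iterate hF.per hF.strip hb.cover (m' - m) (by omega) (F^[m] z) (hS m) i0 i0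
      (κ m) (κ m') (hκ m hm) (by
        rw [← Function.iterate_add_apply, Nat.sub_add_cancel hlt.le]
        exact hκ m' hm')
    have h2 := hw i0 _ h1
    omega
  have hmono : ∀ m ∈ V, ∀ m' ∈ V, m ≤ m' → κ m ≤ κ m' := by
    intro m hm m' hm' hle
    rcases hle.eq_or_lt with h | h
    · rw [h]
    · have := step m hm m' hm' h
      omega
  have h1 := V.min'_mem hne
  have h2 := V.max'_mem hne
  have hcard : (V.card : ℤ) - 1 ≤ κ (V.max' hne) - κ (V.min' hne) := by
    have h3 : V.card ≤ (Finset.Icc (κ (V.min' hne)) (κ (V.max' hne))).card := by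
      refine Finset.card_le_card_of_injOn κ ?_ ?_
      · intro m hm
        rw [Finset.coe_Icc]
        exact ⟨hmono _ h1 m hm (V.min'_le m hm), hmono m hm _ h2 (V.le_max' m hm)⟩
      · intro m hm m' hm' h
        rcases lt_trichotomy m m' with h4 | h4 | h4
        · have := step m hm m' hm' h4
          omega
        · exact h4
        · have := step m' hm' m hm h4
          omega
    rw [Int.card_Icc] at h3
    have h4 := hmono _ h1 _ h2 (V.min'_le _ h2)
    omega
  refine ⟨F^[V.min' hne] z - κ (V.min' hne), hκ _ h1, V.max' hne - V.min' hne, ?_,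
    κ (V.max' hne) - κ (V.min' hne), hcard, ?_⟩
  · have := hVn _ h2
    omega
  · rw [D10_sub hF.per, ← Function.iterate_add_apply,
      Nat.sub_add_cancel (V.min'_le _ h2)]
    have h5 := hκ _ h2
    push_cast
    rw [sub_sub, add_sub_cancel]
    exact h5

end Pool.Agent.H70.PR
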