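import Pool.Agent.H70.PR.C5

/-!
# PR module D9: a point with many visits (120 lines)

For `m < n` let `V m = {x ∈ Dsk | f^[m] x ∈ K}`. `f^[m]` is a bijection of the disc, continuous on it, and
preserves the volume of measurable subsets of the disc (induction; images of measurable subsets
under `f` are measurable because `f` is a continuous injection on the compact disc, or: work with
preimages: `volume (Dsk ∩ f ⁻¹' E) = volume (f '' (Dsk ∩ f ⁻¹' E)) = volume E` for measurable `E ⊆ Dsk`, and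
induct on `V (m+1) = Dsk ∩ f ⁻¹' (V m)`). So `volume (V m) = volume K`.
If every `x ∈ Dsk` had `π * #{m < n | x ∈ V m} < n * vol K`, integrate over the disc (volume `π`:
`Complex.volume_closedBall`): `n vol K = ∑ vol (V m) = ∫ #... < n vol K` (for the strict inequality: the
counts are natural numbers `≤ c` with `π c < n vol K` for one `c`, so the integral is `≤ π c < n vol K`).
`n = 0` or `vol K = 0` is trivial (take `x = 0`).
-/

open Complex Set Metric Topology Filter MeasureTheory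
open Pool.Agent.H25.PR

namespace Pool.Agent.H70.PR

private theorem d9_meas {f : ℂ → ℂ} (hc : ContinuousOn f Dsk) {E : Set ℂ}
    (hE : MeasurableSet E) : MeasurableSet (Dsk ∩ f ⁻¹' E) := by
  classical
  have hD : MeasurableSet Dsk := isClosed_closedBall.measurableSet
  have h1 : Measurable (Dsk.piecewise f (fun _ => (0 : ℂ))) :=
    hc.measurable_piecewise continuousOn_const hD
  have h2 : Dsk ∩ f ⁻¹' E = Dsk ∩ (Dsk.piecewise f (fun _ => (0 : ℂ))) ⁻¹' E := by
    ext x
    constructor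
    · rintro ⟨hx, hxE⟩
      refine ⟨hx, ?_⟩
      rw [mem_preimage, piecewise_eq_of_mem _ _ _ hx]
      exact hxE
    · rintro ⟨hx, hxE⟩
      rw [mem_preimage, piecewise_eq_of_mem _ _ _ hx] at hxE
      exact ⟨hx, hxE⟩
  rw [h2]
  exact hD.inter (h1 hE)

private theorem d9_vol {f : ℂ → ℂ} (hc : ContinuousOn f Dsk) (hb : BijOn f Dsk Dsk)
    (hv : ∀ E : Set ℂ, E ⊆ Dsk → MeasurableSet E → volume (f '' E) = volume E) {E : Set ℂ}
    (hE : MeasurableSet E) (hED : E ⊆ Dsk) : volume (Dsk ∩ f ⁻¹' E) = volume E := by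
  rw [← hv _ inter_subset_left (d9_meas hc hE)]
  congr 1
  ext y
  constructor
  · rintro ⟨x, hx, rfl⟩
    exact hx.2
  · intro hy
    obtain ⟨x, hx, rfl⟩ := hb.surjOn (hED hy)
    exact ⟨x, ⟨hx, hy⟩, rfl⟩

private theorem d9_V {f : ℂ → ℂ} (hc : ContinuousOn f Dsk) (hb : BijOn f Dsk Dsk)
    (hv : ∀ E : Set ℂ, E ⊆ Dsk → MeasurableSet E → volume (f '' E) = volume E) {K : Set ℂ}
    (hK : MeasurableSet K) (hKD : K ⊆ Dsk) (m : ℕ) :
    MeasurableSet {x | x ∈ Dsk ∧ f^[m] x ∈ K} ∧ volume {x | x ∈ Dsk ∧ f^[m] x ∈ K} = volume K := by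
  induction m with
  | zero =>
    have h1 : {x | x ∈ Dsk ∧ f^[0] x ∈ K} = K := by
      ext x
      exact ⟨fun h => h.2, fun h => ⟨hKD h, h⟩⟩
    rw [h1]
    exact ⟨hK, rfl⟩
  | succ m ih =>
    have h1 : {x | x ∈ Dsk ∧ f^[m + 1] x ∈ K} = Dsk ∩ f ⁻¹' {x | x ∈ Dsk ∧ f^[m] x ∈ K} := by
      ext x
      constructor
      · rintro ⟨hx, hxK⟩
        exact ⟨hx, hb.mapsTo hx, hxK⟩
      · rintro ⟨hx, _, hxK⟩
        exact ⟨hx, hxK⟩
    rw [h1]
    exact ⟨d9_meas hc ih.1, (d9_vol hc hb hv ih.1 fun x hx => hx.1).trans ih.2⟩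

open Classical in
theorem exists_visits {f : ℂ → ℂ} (hc : ContinuousOn f Dsk) (hb : BijOn f Dsk Dsk)
    (hv : ∀ E : Set ℂ, E ⊆ Dsk → MeasurableSet E → volume (f '' E) = volume E) {K : Set ℂ}
    (hK : MeasurableSet K) (hKD : K ⊆ Dsk) (n : ℕ) :
    ∃ x ∈ Dsk, (n : ℝ) * (volume K).toReal
      ≤ Real.pi * (((Finset.range n).filter (fun m => f^[m] x ∈ K)).card : ℝ) := by
  obtain ⟨N, hN⟩ : ∃ N : ℂ → ℕ, N = fun x =>
    ((Finset.range n).filter (fun m => f^[m] x ∈ K)).card := ⟨_, rfl⟩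
  obtain ⟨x0, hx0, hmax⟩ : ∃ x0 ∈ Dsk, ∀ x ∈ Dsk, N x ≤ N x0 := by
    have hbd : ∀ x, N x ≤ n := by
      intro x
      rw [hN]
      refine (Finset.card_filter_le _ _).trans ?_
      rw [Finset.card_range]
    have hfin : (N '' Dsk).Finite := (Set.finite_Iic n).subset (by
      rintro _ ⟨x, _, rfl⟩
      exact hbd x)
    have hne : (N '' Dsk).Nonempty := ⟨N 0, 0, by simp, rfl⟩
    obtain ⟨c, ⟨x0, hx0, rfl⟩, hmax⟩ := hfin.exists_maximalFor id _ hne
    refine ⟨x0, hx0, fun x hx => ?_⟩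
    by_contra hlt
    push Not at hlt
    have := hmax (mem_image_of_mem N hx) hlt.le
    simp only [id] at this
    omega
  refine ⟨x0, hx0, ?_⟩
  have hV := d9_V hc hb hv hK hKD
  have key : ∑ m ∈ Finset.range n, volume {x | x ∈ Dsk ∧ f^[m] x ∈ K}
      ≤ (N x0 : ENNReal) * volume Dsk := by
    calc ∑ m ∈ Finset.range n, volume {x | x ∈ Dsk ∧ f^[m] x ∈ K}
        = ∑ m ∈ Finset.range n, ∫⁻ x, ({x | x ∈ Dsk ∧ f^[m] x ∈ K} : Set ℂ).indicator 1 x := by
          refine Finset.sum_congr rfl fun m _ => ?_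
          rw [lintegral_indicator_one (hV m).1]
      _ = ∫⁻ x, ∑ m ∈ Finset.range n, ({x | x ∈ Dsk ∧ f^[m] x ∈ K} : Set ℂ).indicator 1 x :=
          (lintegral_finsetSum _ (fun m _ => measurable_one.indicator (hV m).1)).symm
      _ ≤ ∫⁻ x, Dsk.indicator (fun _ => (N x0 : ENNReal)) x := by
          refine lintegral_mono fun x => ?_
          by_cases hx : x ∈ Dsk
          · rw [indicator_of_mem hx]
            have h1 : ∑ m ∈ Finset.range n,
                ({x | x ∈ Dsk ∧ f^[m] x ∈ K} : Set ℂ).indicator (1 : ℂ → ENNReal) x = (N x : ENNReal) := by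
              simp only [hN]
              rw [Finset.card_filter, Nat.cast_sum]
              refine Finset.sum_congr rfl fun m _ => ?_
              by_cases h2 : f^[m] x ∈ K
              · rw [indicator_of_mem (show x ∈ {x | x ∈ Dsk ∧ f^[m] x ∈ K} from ⟨hx, h2⟩),
                  if_pos h2]
                simp
              · rw [indicator_of_notMem (fun h : x ∈ {x | x ∈ Dsk ∧ f^[m] x ∈ K} => h2 h.2),
                  if_neg h2]
                simp
            rw [h1]
            exact Nat.cast_le.2 (hmax x hx)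
          · rw [indicator_of_notMem hx]
            refine le_of_eq (Finset.sum_eq_zero fun m _ => ?_)
            exact indicator_of_notMem (fun h : x ∈ {x | x ∈ Dsk ∧ f^[m] x ∈ K} => hx h.1) _
      _ = (N x0 : ENNReal) * volume Dsk :=
          lintegral_indicator_const isClosed_closedBall.measurableSet _
  have hsum : ∑ m ∈ Finset.range n, volume {x | x ∈ Dsk ∧ f^[m] x ∈ K} = (n : ENNReal) * volume K := by
    rw [Finset.sum_congr rfl fun m _ => (hV m).2, Finset.sum_const, Finset.card_range,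
      nsmul_eq_mul]
  rw [hsum, Complex.volume_closedBall] at key
  have hfin : (N x0 : ENNReal) * (ENNReal.ofReal 1 ^ 2 * (NNReal.pi : ENNReal)) ≠ ⊤ := by
    refine ENNReal.mul_ne_top (ENNReal.natCast_ne_top _) ?_
    rw [ENNReal.ofReal_one, one_pow, one_mul]
    exact ENNReal.coe_ne_top
  have h3 := ENNReal.toReal_mono hfin key
  rw [ENNReal.toReal_mul, ENNReal.toReal_mul, ENNReal.ofReal_one, one_pow, one_mul,
    ENNReal.toReal_natCast, ENNReal.toReal_natCast, ENNReal.coe_toReal, NNReal.coe_real_pi] at h3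
  simp only [hN] at h3
  linarith

end Pool.Agent.H70.PR
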