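import Pool.Agent.H70.PR.D8
import Pool.Agent.H70.PR.D9
import Pool.Agent.H70.PR.D10

/-!
# PR module D11: the area of a free cell (200 lines)

Let `β = vol (pr '' cell) / π` and suppose `ρ < β`. `F` has no fixed point (`exists_bot`, `bot_eq_top`,
`noFix_of`, `ρ ≠ 0`); `Far F 1` (`far_of_top`). Brick system: `mgrid N M p q` with `M` so large that
`N * M ≥ N1` (`grid_free`): free (`none`: hypothesis `hfree`). `closed_walk_pos`: every closed walk has
displacement `≥ 1`.
Choose a rational `ρ < P/Q < β`, `Q ≥ 1`. `G = F^Q - P`: lift of `f^Q`, `TopNum G (Q ρ - P)`, negative, so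
`Far G (-1)`; `BotNum G (Q ρ - P)` too (`bot_eq_top`), so `G` has no fixed point (`noFix_of`).
`Far G 1`: let `M` be given. By `exists_visits` (for `K = pr '' cell`, compact) and `visits_walk` (`i0 = none`;
`0 < im` on the cell since `1 ≤ q`): for every `n` with `n β > 1` there are `y` in the cell, `m < n`, `k ≥ n β - 1`,
`F^[m] y - k` in the cell. Let `l = m / Q + 1` (natural division), `1 ≤ l`, `m ≤ Q l ≤ m + Q`, `l ≤ n / Q + 1`.
`G^[l] y = F^[Q l] y - P l` (iterate; periodicity) and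
`|re F^[Q l] y - re F^[m] y| ≤ C Q` (`disp_high`, `Q l - m ≤ Q` steps in the strip), `|re F^[m] y - k - re y| ≤ 1`. So
`re G^[l] y - re y ≥ n β - 1 - 1 - C Q - P (n/Q + 1) → ∞` as `n → ∞` (`P ≥ 0` as `P/Q > ρ > 0`).
`annLift_sign` for `G`: contradiction.
-/

open Complex Set Metric Topology Filter MeasureTheory
open Pool.Agent.H25.PR

namespace Pool.Agent.H70.PR

variable {f g : ℂ → ℂ}

private theorem D11_int {F : ℂ → ℂ} (hp : ∀ z, F (z + 1) = F z + 1) (k : ℤ) (m : ℕ) (w : ℂ) :
    F^[m] (w + k) = F^[m] w + k := by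
  induction m with
  | zero => rfl
  | succ m ih =>
    rw [Function.iterate_succ_apply', Function.iterate_succ_apply', ih, per_int hp]

private theorem D11_iter {F G H : ℂ → ℂ} (hp : ∀ z, F (z + 1) = F z + 1) (Q : ℕ) (P : ℤ)
    (hG : ∀ z, G z = F^[Q] z) (hH : ∀ z, H z = G z + (P : ℤ)) (l : ℕ) (y : ℂ) :
    H^[l] y = F^[Q * l] y + ((P * l : ℤ) : ℂ) := by
  induction l with
  | zero => simp
  | succ l ih =>
    rw [Function.iterate_succ_apply', ih, hH, hG, D11_int hp, ← Function.iterate_add_apply]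
    have h1 : Q + Q * l = Q * (l + 1) := by ring
    rw [h1]
    push_cast
    ring

private theorem D11_strip {F : ℂ → ℂ} (hs : ∀ z ∈ Strip, F z ∈ Strip) (m : ℕ) {z : ℂ}
    (hz : z ∈ Strip) : F^[m] z ∈ Strip := by
  induction m with
  | zero => exact hz
  | succ m ih =>
    rw [Function.iterate_succ_apply']
    exact hs _ ih

private theorem D11_disp {F : ℂ → ℂ} (hs : ∀ z ∈ Strip, F z ∈ Strip) {C : ℝ}
    (hC : ∀ z ∈ Strip, ‖F z - z‖ ≤ C) (r : ℕ) {w : ℂ} (hw : w ∈ Strip) :
    w.re - C * r ≤ (F^[r] w).re := by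
  induction r with
  | zero => simp
  | succ r ih =>
    rw [Function.iterate_succ_apply']
    have h1 := hC _ (D11_strip hs r hw)
    have h2 := (Complex.abs_re_le_norm (F (F^[r] w) - F^[r] w)).trans h1
    rw [Complex.sub_re] at h2
    have h3 := (abs_le.mp h2).1
    push_cast
    linarith

theorem area_bound {F : ℂ ≃ₜ ℂ} (hF : AnnLift f F) (hn : NoPer f) {ρ : ℝ} (hρ : 0 < ρ)
    (ht : TopNum F ρ) (N p q : ℕ) (hN : 1 ≤ N) (hp : p < N) (hq1 : 1 ≤ q) (hq : q < N)
    (hfree : ∀ z ∈ cell N p q, F z ∉ cell N p q) :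
    (volume (pr '' cell N p q)).toReal ≤ ρ * Real.pi := by
  classical
  by_contra hcon
  push Not at hcon
  set K : Set ℂ := pr '' cell N p q with hK
  set β : ℝ := (volume K).toReal / Real.pi with hβ
  have hβρ : ρ < β := by
    rw [hβ, lt_div_iff₀ Real.pi_pos]
    exact hcon
  obtain ⟨t0, ht0⟩ := exists_bot hF
  have e0 : t0 = ρ := bot_eq_top hF hn ht0 ht
  subst e0
  have hnf : NoFix F := noFix_of hF hn ht0 hρ.ne'
  have hfar : Far F 1 := far_of_top ht (by linarith)
  obtain ⟨N1, hN1, hN1f⟩ := grid_free F.continuous hF.per hnf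
  have hbr := bricks_merge N N1 hN hN1 p q hp hq
  have hfr : FreeB F (mgrid N N1 p q) := by
    intro i z hz
    cases i with
    | none => exact hfree z hz
    | some i =>
      exact hN1f (N * N1) (Nat.le_mul_of_pos_left N1 hN) _ _ z hz (hbr.strip (some i) hz)
  have hwalk := closed_walk_pos hF hnf hbr hfr hfar
  have hcs : cell N p q ⊆ Strip := hbr.strip none
  have hN' : (0 : ℝ) < N := by exact_mod_cast hN
  have hpos : ∀ z ∈ cell N p q, 0 < z.im := by
    intro z hz
    have h1 : (q : ℝ) / N ≤ z.im := hz.2.2.1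
    have h2 : (0 : ℝ) < (q : ℝ) / N := div_pos (by exact_mod_cast hq1) hN'
    linarith
  -- the rational
  obtain ⟨c, hc1, hc2⟩ := exists_rat_btwn hβρ
  have hden : (0 : ℝ) < c.den := by exact_mod_cast c.den_pos
  have hcn : (c : ℝ) * c.den = c.num := by
    have h2 : c * c.den = c.num := Rat.mul_den_eq_num c
    exact_mod_cast h2
  obtain ⟨G, hG, hGl⟩ := annLift_iter hF c.den
  obtain ⟨H, hH, hHl⟩ := annLift_shift hGl (-c.num)
  have hnp : NoPer (f^[c.den]) := noPer_iter hn c.den c.den_pos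
  have b2 : BotNum H (c.den * t0 + ((-c.num : ℤ) : ℝ)) :=
    botNum_shift (botNum_iter ht0 c.den hG) (-c.num) hH
  have p2 : TopNum H (c.den * t0 + ((-c.num : ℤ) : ℝ)) :=
    topNum_shift (topNum_iter ht c.den hG) (-c.num) hH
  have e1 : (c.den : ℝ) * t0 + ((-c.num : ℤ) : ℝ) = c.den * (t0 - c) := by
    push_cast
    rw [← hcn]
    ring
  rw [e1] at b2 p2
  have hneg : (c.den : ℝ) * (t0 - c) < 0 := mul_neg_of_pos_of_neg hden (by linarith)
  have hnfH : NoFix H := noFix_of hHl hnp b2 hneg.ne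
  have hfarn : Far H (-1) := far_of_top p2 (by linarith)
  refine annLift_sign hHl hnfH ?_ hfarn
  -- points are moved far to the right
  intro M0
  have hKc : IsCompact K := (cell_compact N p q).image continuous_pr
  have hKm : MeasurableSet K := hKc.isClosed.measurableSet
  have hKD : K ⊆ Dsk := by
    rintro _ ⟨z, hz, rfl⟩
    exact pr_mem (hcs hz)
  obtain ⟨C, hC0, hC⟩ := disp_high F.continuous hF.per
  obtain ⟨n, hn1⟩ := exists_nat_gt (max 1 ((M0 + 2 + C * c.den + c.num) / (β - c)))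
  have hn1' : (1 : ℝ) < n := (le_max_left _ _).trans_lt hn1
  have hn2 : M0 + 2 + C * c.den + c.num < n * (β - c) := by
    have h1 := (le_max_right _ _).trans_lt hn1
    rwa [div_lt_iff₀ (by linarith)] at h1
  obtain ⟨x, hx, hxn⟩ := exists_visits hF.cont hF.bij hF.vol hKm hKD n
  set V : Finset ℕ := (Finset.range n).filter fun m => f^[m] x ∈ K with hV
  have hVc : (n : ℝ) * β ≤ (V.card : ℝ) := by
    rw [hβ, ← mul_div_assoc, div_le_iff₀ Real.pi_pos]
    linarith
  have hne : V.Nonempty := by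
    rw [← Finset.card_pos]
    have h1 : (0 : ℝ) < n * β := mul_pos (by linarith) (by linarith)
    have h2 : (0 : ℝ) < (V.card : ℝ) := h1.trans_le hVc
    exact_mod_cast h2
  obtain ⟨y, hy, m, hm, k, hk1, hk2⟩ := visits_walk hF hbr (fun i m hw => hwalk i m hw) none hpos n
    x hx V (fun m hm => Finset.mem_range.mp (Finset.mem_filter.mp hm).1)
    (fun m hm => (Finset.mem_filter.mp hm).2) hne
  change y ∈ cell N p q at hy
  change F^[m] y - k ∈ cell N p q at hk2
  have hyS : y ∈ Strip := hcs hy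
  refine ⟨y, hyS, m / c.den + 1, Nat.le_add_left 1 _, ?_⟩
  obtain ⟨l, hl⟩ : ∃ l, l = m / c.den + 1 := ⟨_, rfl⟩
  rw [← hl]
  obtain ⟨r, hr⟩ : ∃ r, r = c.den - m % c.den := ⟨_, rfl⟩
  have hmod := Nat.mod_lt m c.den_pos
  have hdm := Nat.div_add_mod m c.den
  have hQl : c.den * l = r + m := by
    have h1 : c.den * (m / c.den + 1) = c.den * (m / c.den) + c.den := by ring
    rw [hl, h1]
    omega
  have hrQ : r ≤ c.den := by omega
  have h1 : H^[l] y = F^[c.den * l] y + (((-c.num) * l : ℤ) : ℂ) :=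
    D11_iter hF.per c.den (-c.num) hG (fun z => by rw [hH z]) l y
  rw [h1, hQl, Function.iterate_add_apply]
  have h2 : F^[m] y ∈ Strip := D11_strip hF.strip m hyS
  have h3 := D11_disp hF.strip hC r h2
  have h4 : (p : ℝ) / N ≤ (F^[m] y).re - k := by
    have := hk2.1
    simpa using this
  have h5 : y.re ≤ (p : ℝ) / N + 1 := by
    have h6 : y.re ≤ ((p : ℝ) + 1) / N := hy.2.1
    have h7 : (1 : ℝ) / N ≤ 1 := by
      rw [div_le_one hN']
      exact_mod_cast hN
    rw [add_div] at h6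
    linarith
  have h6 : (V.card : ℝ) - 1 ≤ k := by exact_mod_cast hk1
  have h7 : C * r ≤ C * c.den := mul_le_mul_of_nonneg_left (by exact_mod_cast hrQ) hC0.le
  have hcpos : (0 : ℝ) < c := by linarith
  have hnum : (0 : ℝ) ≤ c.num := by
    rw [← hcn]
    positivity
  have h8 : (c.num : ℝ) * l ≤ n * c + c.num := by
    have h9 : (c.den : ℝ) * l ≤ n + c.den := by
      have h10 : c.den * l ≤ n + c.den := by
        rw [hQl]
        omega
      exact_mod_cast h10
    have h11 : (c.num : ℝ) * l = c * (c.den * l) := by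
      rw [← hcn]
      ring
    rw [h11]
    calc (c : ℝ) * (c.den * l) ≤ c * (n + c.den) := mul_le_mul_of_nonneg_left h9 hcpos.le
      _ = n * c + c.num := by
        rw [mul_add, hcn]
        ring
  have h12 : (F^[r] (F^[m] y) + (((-c.num) * l : ℤ) : ℂ)).re
      = (F^[r] (F^[m] y)).re - (c.num : ℝ) * l := by
    simp
    ring
  rw [h12, one_mul]
  have h13 : (n : ℝ) * (β - c) = n * β - n * c := by ring
  rw [h13] at hn2
  linarith

end Pool.Agent.H70.PR
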