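import Pool.Agent.H70.PR.D11

/-!
# PR module D12: the area bound for `f^q` and the limit theorem (200 lines)

`area_abs`: `F` from `exists_annLift`, `TopNum F (α + k)` (`topNum_of_hasRot`), shift by `-k`: `TopNum F α`
(`annLift_shift`, `topNum_shift`). `H = F^q - p`: lift of `f^q`, `TopNum H (q α - p)`; `q α - p ≠ 0` since `α` is
irrational. Free: `H z ∈ cell` would give `f^q (pr z) = pr (H z) ∈ pr '' cell`. If `q α - p > 0`: `area_bound`. If
`q α - p < 0`: `H.symm` is a lift of `g^q` (`annLift_symm` for `f^[q]`, `g^[q]`: the hypotheses by induction),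
`TopNum H.symm (p - q α)`, `NoPer (g^q)` (a point with `g^[n q] z = z` has `f^[n q] z = z`), and
`H.symm z ∈ cell`, `z ∈ cell` contradicts freeness of `H` at `H.symm z`.
`limit_periodic`: suppose `G^[q] z ≠ z` for some `z ∈ Dsk`. `G` is continuous on the disc and maps it to
itself (uniform limit, the disc is closed), so `G^[q]` is continuous on the disc and there is such a `z`
with `0 < ‖z‖ < 1`; `z = pr ζ`, `ζ` in the strip, `0 < ζ.im < 1`, `0 ≤ ζ.re < 1` (subtract an integer). For `N` large the cell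
`(p0,q0) = (⌊N ζ.re⌋, ⌊N ζ.im⌋)` of mesh `1/N` has `1 ≤ q0 < N`, `p0 < N`, contains `ζ`, and there is `δ > 0` with
`δ ≤ ‖G^[q] a - b‖` for `a, b ∈ pr '' cell` (continuity of `pr`, `G^[q]`). `f n^[q] → G^[q]` uniformly on the disc
(induction on `q`; `G` is uniformly continuous on the compact disc, `f n` maps the disc to itself), so
for large `n` `f n^[q] (pr z) ∉ pr '' cell` for `z` in the cell. `area_abs`: `vol (pr '' cell) ≤ |q α n - p| π → 0`, but
`vol (pr '' cell) > 0` (`pr_image_pos` for the open cell).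
-/

open Complex Set Metric Topology Filter MeasureTheory
open Pool.Agent.H25.PR

namespace Pool.Agent.H70.PR

theorem area_abs {f g : ℂ → ℂ} {A B : ℂ →L[ℝ] ℂ} (h : DiscHomeo f g A B) (hn : NoPer f) {α : ℝ}
    (hr : HasRot f α) (hα : Irrational α) (p : ℤ) (q : ℕ) (hq : 1 ≤ q) (N p0 q0 : ℕ) (hN : 1 ≤ N)
    (hp0 : p0 < N) (hq1 : 1 ≤ q0) (hq0 : q0 < N)
    (hfree : ∀ z ∈ cell N p0 q0, f^[q] (pr z) ∉ pr '' cell N p0 q0) :
    (volume (pr '' cell N p0 q0)).toReal ≤ |q * α - p| * Real.pi := by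
  obtain ⟨F, hF, -⟩ := exists_annLift h
  obtain ⟨k, hT⟩ := topNum_of_hasRot hF hr
  obtain ⟨F1, hF1e, hF1⟩ := annLift_shift hF (-k)
  have hT1 := topNum_shift hT (-k) hF1e
  obtain ⟨G0, hG0e, hG0⟩ := annLift_iter hF1 q
  have hT2 := topNum_iter hT1 q hG0e
  obtain ⟨H, hHe, hH⟩ := annLift_shift hG0 (-p)
  have hT3 := topNum_shift hT2 (-p) hHe
  have hτ : (q : ℝ) * (α + k + ((-k : ℤ) : ℝ)) + ((-p : ℤ) : ℝ) = q * α - p := by
    push_cast
    ring
  rw [hτ] at hT3
  have hnq := noPer_iter hn q hq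
  have hsub : cell N p0 q0 ⊆ Strip := (bricks_grid N hN).strip (⟨p0, hp0⟩, ⟨q0, hq0⟩)
  have hfH : ∀ z ∈ cell N p0 q0, H z ∉ cell N p0 q0 := by
    intro z hz hHz
    exact hfree z hz ⟨H z, hHz, hH.proj z (hsub hz)⟩
  rcases lt_trichotomy ((q : ℝ) * α - p) 0 with hneg | h0 | hpos
  · have hfi : ∀ n : ℕ, ∀ z ∈ Dsk, f^[n] z ∈ Dsk := fun n => (h.fm.iterate n)
    have hgi : ∀ n : ℕ, ∀ z ∈ Dsk, g^[n] z ∈ Dsk := fun n => (h.gm.iterate n)
    have hgf : ∀ n : ℕ, ∀ z ∈ Dsk, g^[n] (f^[n] z) = z := by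
      intro n
      induction n with
      | zero => intro z _; rfl
      | succ n ih =>
        intro z hz
        rw [Function.iterate_succ_apply g, Function.iterate_succ_apply' f, h.gf _ (hfi n z hz), ih z hz]
    have hfg : ∀ n : ℕ, ∀ z ∈ Dsk, f^[n] (g^[n] z) = z := by
      intro n
      induction n with
      | zero => intro z _; rfl
      | succ n ih =>
        intro z hz
        rw [Function.iterate_succ_apply f, Function.iterate_succ_apply' g, h.fg _ (hgi n z hz), ih z hz]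
    have hgb : ∀ n : ℕ, ∀ z : ℂ, ‖z‖ = 1 → ‖g^[n] z‖ = 1 := by
      intro n
      induction n with
      | zero => intro z hz; exact hz
      | succ n ih =>
        intro z hz
        rw [Function.iterate_succ_apply' g]
        exact h.gb _ (ih z hz)
    have hf0 : f^[q] 0 = 0 := Function.iterate_fixed h.f0 q
    have hS : AnnLift (g^[q]) H.symm :=
      annLift_symm hH hf0 (h.gc.iterate h.gm q) (h.gm.iterate q) (hgf q) (hfg q) (hgb q)
    have hTs := topNum_symm hS hT3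
    have hng : NoPer g := by
      intro n h1 z hz hzz
      refine hn n h1 z hz ?_
      have := hfg n z hz
      rwa [hzz] at this
    have hb := area_bound hS (noPer_iter hng q hq) (ρ := -((q : ℝ) * α - p)) (by linarith) hTs
      N p0 q0 hN hp0 hq1 hq0 (by
        intro z hz hHz
        refine hfH (H.symm z) hHz ?_
        rw [H.apply_symm_apply]
        exact hz)
    rwa [abs_of_neg hneg]
  · exfalso
    have hq' : (q : ℝ) ≠ 0 := by
      have : q ≠ 0 := by omega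
      exact_mod_cast this
    refine hα ⟨(p : ℚ) / q, ?_⟩
    push_cast
    rw [div_eq_iff hq']
    linarith
  · have hb := area_bound hH hnq hpos hT3 N p0 q0 hN hp0 hq1 hq0 hfH
    rwa [abs_of_pos hpos]

private theorem D12_unif (fn : ℕ → ℂ → ℂ) (G : ℂ → ℂ) (hm : ∀ n, MapsTo (fn n) Dsk Dsk)
    (hlim : TendstoUniformlyOn fn G atTop Dsk) (hGc : ContinuousOn G Dsk) (hGm : MapsTo G Dsk Dsk)
    (q : ℕ) : ∀ ε : ℝ, 0 < ε → ∀ᶠ n in atTop, ∀ a ∈ Dsk, dist ((fn n)^[q] a) (G^[q] a) < ε := by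
  induction q with
  | zero =>
    intro ε hε
    filter_upwards with n a _
    simpa using hε
  | succ q ih =>
    intro ε hε
    have hu : UniformContinuousOn G Dsk :=
      (isCompact_closedBall (0 : ℂ) 1).uniformContinuousOn_of_continuous hGc
    obtain ⟨δ, hδ, hd⟩ := Metric.uniformContinuousOn_iff.1 hu (ε / 2) (by positivity)
    have h1 := Metric.tendstoUniformlyOn_iff.1 hlim (ε / 2) (by positivity)
    filter_upwards [h1, ih δ hδ] with n hn1 hn2 a ha
    have hw : (fn n)^[q] a ∈ Dsk := (hm n).iterate q ha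
    have hw' : G^[q] a ∈ Dsk := hGm.iterate q ha
    rw [Function.iterate_succ_apply', Function.iterate_succ_apply']
    calc dist (fn n ((fn n)^[q] a)) (G (G^[q] a))
        ≤ dist (fn n ((fn n)^[q] a)) (G ((fn n)^[q] a)) +
          dist (G ((fn n)^[q] a)) (G (G^[q] a)) := dist_triangle _ _ _
      _ < ε / 2 + ε / 2 := by
          refine add_lt_add ?_ (hd _ hw _ hw' (hn2 a ha))
          rw [dist_comm]
          exact hn1 _ hw
      _ = ε := by ring

private theorem D12_core (fn gn : ℕ → ℂ → ℂ) (An Bn : ℕ → ℂ →L[ℝ] ℂ) (αn : ℕ → ℝ) (G : ℂ → ℂ)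
    (p : ℤ) (q : ℕ) (hq : 1 ≤ q) (hf : ∀ n, DiscHomeo (fn n) (gn n) (An n) (Bn n))
    (hn : ∀ n, NoPer (fn n)) (hr : ∀ n, HasRot (fn n) (αn n)) (hα : ∀ n, Irrational (αn n))
    (hlim : TendstoUniformlyOn fn G atTop Dsk)
    (hα' : Tendsto αn atTop (𝓝 ((p : ℝ) / q))) (hGc : ContinuousOn G Dsk)
    (hGm : MapsTo G Dsk Dsk) (hGq : ContinuousOn (G^[q]) Dsk) (z : ℂ) (hz0 : z ≠ 0)
    (hz1 : ‖z‖ < 1) : G^[q] z = z := by
  by_contra hne
  have hzD : z ∈ Dsk := by
    rw [mem_closedBall_zero_iff]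
    exact hz1.le
  -- the point of the strip
  obtain ⟨ζ, hζS, hζ, hζ0, hζ1⟩ : ∃ ζ ∈ Strip, pr ζ = z ∧ 0 ≤ ζ.re ∧ ζ.re < 1 := by
    obtain ⟨ζ, h1, h2, h3, h4⟩ := pr_surj hzD
    rcases h4.lt_or_eq with h5 | h5
    · exact ⟨ζ, h1, h2, h3, h5⟩
    · refine ⟨ζ + ((-1 : ℤ) : ℂ), ?_, ?_, ?_, ?_⟩
      · constructor
        · simpa using h1.1
        · simpa using h1.2
      · rw [pr_add_int, h2]
      · simp [h5]
      · simp [h5]
  have him : ζ.im = ‖z‖ := by rw [← hζ, norm_pr hζS]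
  have him0 : 0 < ζ.im := by
    rw [him]
    exact norm_pos_iff.2 hz0
  have him1 : ζ.im < 1 := by
    rw [him]
    exact hz1
  have hD : 0 < dist (G^[q] z) z := dist_pos.2 hne
  set D := dist (G^[q] z) z with hDdef
  obtain ⟨η1, hη1, hc1⟩ := Metric.continuousOn_iff.1 hGq z hzD (D / 4) (by positivity)
  obtain ⟨η2, hη2, hc2⟩ := Metric.continuous_iff.1 continuous_pr ζ (min η1 (D / 4))
    (by positivity)
  -- the mesh
  obtain ⟨N, hN1, hN2, hN3⟩ : ∃ N : ℕ, 1 ≤ N ∧ 2 / (N : ℝ) < η2 ∧ 1 ≤ (N : ℝ) * ζ.im := by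
    obtain ⟨N, hN⟩ := exists_nat_gt (max (max 1 (2 / η2)) (1 / ζ.im))
    have h1 : (1 : ℝ) < N := lt_of_le_of_lt (le_trans (le_max_left _ _) (le_max_left _ _)) hN
    have h2 : 2 / η2 < N := lt_of_le_of_lt (le_trans (le_max_right _ _) (le_max_left _ _)) hN
    have h3 : 1 / ζ.im < N := lt_of_le_of_lt (le_max_right _ _) hN
    refine ⟨N, ?_, ?_, ?_⟩
    · have : (1 : ℕ) < N := by exact_mod_cast h1
      omega
    · rw [div_lt_iff₀ hη2] at h2
      rw [div_lt_iff₀ (by linarith)]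
      linarith
    · rw [div_lt_iff₀ him0] at h3
      exact h3.le
  have hNpos : (0 : ℝ) < N := by
    have : 0 < N := by omega
    exact_mod_cast this
  obtain ⟨p0, hp0, hp1, hp2⟩ : ∃ p0 : ℕ, p0 < N ∧ (p0 : ℝ) ≤ N * ζ.re ∧
      N * ζ.re ≤ (p0 : ℝ) + 1 := by
    have h0 : 0 ≤ (N : ℝ) * ζ.re := by positivity
    refine ⟨⌊(N : ℝ) * ζ.re⌋₊, (Nat.floor_lt h0).2 ?_, Nat.floor_le h0,
      (Nat.lt_floor_add_one _).le⟩
    nlinarith
  obtain ⟨q0, hq0, hq1, hq2, hq3⟩ : ∃ q0 : ℕ, q0 < N ∧ 1 ≤ q0 ∧ (q0 : ℝ) ≤ N * ζ.im ∧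
      N * ζ.im ≤ (q0 : ℝ) + 1 := by
    have h0 : 0 ≤ (N : ℝ) * ζ.im := by positivity
    refine ⟨⌊(N : ℝ) * ζ.im⌋₊, (Nat.floor_lt h0).2 ?_, ?_, Nat.floor_le h0,
      (Nat.lt_floor_add_one _).le⟩
    · nlinarith
    · exact (Nat.one_le_floor_iff _).2 hN3
  have hsub : cell N p0 q0 ⊆ Strip := (bricks_grid N hN1).strip (⟨p0, hp0⟩, ⟨q0, hq0⟩)
  -- the cell is close to the point
  have hnear : ∀ w ∈ cell N p0 q0, dist (pr w) z < min η1 (D / 4) := by
    rintro w ⟨a1, a2, a3, a4⟩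
    rw [← hζ]
    refine hc2 w (lt_of_le_of_lt ?_ hN2)
    rw [dist_eq_norm]
    refine (Complex.norm_le_abs_re_add_abs_im (w - ζ)).trans ?_
    rw [div_le_iff₀ hNpos] at a1 a3
    rw [le_div_iff₀ hNpos] at a2 a4
    have b1 : |(w - ζ).re| ≤ 1 / N := by
      rw [Complex.sub_re, le_div_iff₀ hNpos, ← abs_of_pos hNpos, ← abs_mul, abs_le]
      constructor <;> linarith
    have b2 : |(w - ζ).im| ≤ 1 / N := by
      rw [Complex.sub_im, le_div_iff₀ hNpos, ← abs_of_pos hNpos, ← abs_mul, abs_le]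
      constructor <;> linarith
    have b3 : 2 / (N : ℝ) = 1 / N + 1 / N := by ring
    linarith
  have hKpos : 0 < (volume (pr '' cell N p0 q0)).toReal := by
    have hcomp : IsCompact (pr '' cell N p0 q0) := (cell_compact N p0 q0).image continuous_pr
    refine ENNReal.toReal_pos ?_ hcomp.measure_lt_top.ne
    have h1 : 0 < volume (pr '' interior (cell N p0 q0)) := by
      refine pr_image_pos isOpen_interior ((bricks_grid N hN1).int (⟨p0, hp0⟩, ⟨q0, hq0⟩)) ?_
      intro w hw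
      have h2 := (interior_subset hw).2.2.1
      have h3 : (0 : ℝ) < (q0 : ℝ) / N := by
        have : (0 : ℝ) < q0 := by
          have : 0 < q0 := by omega
          exact_mod_cast this
        positivity
      linarith
    exact (lt_of_lt_of_le h1 (measure_mono (image_mono interior_subset))).ne'
  have hev := D12_unif fn G (fun n => (hf n).fm) hlim hGc hGm q (D / 2) (by positivity)
  have hle : ∀ᶠ n in atTop, (volume (pr '' cell N p0 q0)).toReal ≤ |q * αn n - p| * Real.pi := by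
    filter_upwards [hev] with n hn1
    refine area_abs (hf n) (hn n) (hr n) (hα n) p q hq N p0 q0 hN1 hp0 hq1 hq0 ?_
    rintro w hw ⟨w', hw', he⟩
    have h1 := hn1 (pr w) (pr_mem (hsub hw))
    rw [← he] at h1
    have h2 := hnear w' hw'
    have h3 := hc1 (pr w) (pr_mem (hsub hw)) ((hnear w hw).trans_le (min_le_left _ _))
    have h4 : dist (pr w') z < D / 4 := h2.trans_le (min_le_right _ _)
    have h5 : D ≤ dist (G^[q] z) (G^[q] (pr w)) + dist (G^[q] (pr w)) (pr w') +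
        dist (pr w') z := by
      rw [hDdef]
      exact dist_triangle4 _ _ _ _
    rw [dist_comm (G^[q] z)] at h5
    rw [dist_comm (pr w')] at h1
    linarith
  have hT : Tendsto (fun n => |q * αn n - p| * Real.pi) atTop (𝓝 0) := by
    have hq' : (q : ℝ) ≠ 0 := by
      have : q ≠ 0 := by omega
      exact_mod_cast this
    have h1 : Tendsto (fun n => |(q : ℝ) * αn n - p| * Real.pi) atTop
        (𝓝 (|(q : ℝ) * ((p : ℝ) / q) - p| * Real.pi)) :=
      (((hα'.const_mul (q : ℝ)).sub_const (p : ℝ)).abs).mul_const Real.pi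
    have h2 : |(q : ℝ) * ((p : ℝ) / q) - p| * Real.pi = 0 := by
      rw [mul_div_cancel₀ _ hq', sub_self, abs_zero, zero_mul]
    rwa [h2] at h1
  exact absurd (ge_of_tendsto hT hle) (not_le.2 hKpos)

theorem limit_periodic (fn gn : ℕ → ℂ → ℂ) (An Bn : ℕ → ℂ →L[ℝ] ℂ) (αn : ℕ → ℝ) (G : ℂ → ℂ)
    (p : ℤ) (q : ℕ) (hq : 1 ≤ q) (hf : ∀ n, DiscHomeo (fn n) (gn n) (An n) (Bn n))
    (hn : ∀ n, NoPer (fn n)) (hr : ∀ n, HasRot (fn n) (αn n)) (hα : ∀ n, Irrational (αn n))
    (hlim : TendstoUniformlyOn fn G atTop Dsk)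
    (hα' : Tendsto αn atTop (𝓝 ((p : ℝ) / q))) :
    ∀ z ∈ Dsk, G^[q] z = z := by
  have hGc : ContinuousOn G Dsk :=
    hlim.continuousOn (Filter.Frequently.of_forall fun n => (hf n).fc)
  have hGm : MapsTo G Dsk Dsk := by
    intro z hz
    exact isClosed_closedBall.mem_of_tendsto (hlim.tendsto_at hz)
      (Filter.Eventually.of_forall fun n => (hf n).fm hz)
  have hGq : ContinuousOn (G^[q]) Dsk := hGc.iterate hGm q
  have hcl : Dsk ⊆ closure (ball (0 : ℂ) 1 ∩ {0}ᶜ) := by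
    have h1 : ball (0 : ℂ) 1 ⊆ closure (ball (0 : ℂ) 1 ∩ {0}ᶜ) :=
      (dense_compl_singleton (0 : ℂ)).open_subset_closure_inter isOpen_ball
    have h2 := closure_mono h1
    rwa [closure_closure, closure_ball (0 : ℂ) one_ne_zero] at h2
  have hEq : EqOn (G^[q]) id Dsk := by
    refine EqOn.of_subset_closure ?_ hGq continuousOn_id
      (inter_subset_left.trans ball_subset_closedBall) hcl
    rintro z ⟨hz1, hz0⟩
    rw [mem_ball_zero_iff] at hz1
    have hz0' : z ≠ 0 := hz0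
    exact D12_core fn gn An Bn αn G p q hq hf hn hr hα hlim hα' hGc hGm hGq z hz0' hz1
  exact hEq

end Pool.Agent.H70.PR
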