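import Pool.Agent.H70.PR.D1
import Pool.Agent.H25.PR.A1

/-!
# PR module D2: the angle of the polar quotient (150 lines)

`exists_arg_plane` applied to `p ↦ polQ f A p.1 p.2` gives `θ`; `v = θ / (2 π)`, `polQ = ‖polQ‖ e (v)`. Put
`u x r = v (x, max 0 (min r 1))` (use `polQ_low`, `polQ_high`: `polQ f A x r` equals its value at the
clamped `r`). Periodicity: `v (x+1, r) - v (x, r)` is continuous with integer values on the plane
(`isArg_sub` with `univ`), so it is a constant `k`. At `r = 0`: `A (e x) / e x = a + b e(-2x)` with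
`A z = a z + b conj z`, `a = (A 1 - I A I)/2`, `b = (A 1 + I A I)/2`, `A.det = |a|^2 - |b|^2 > 0`, so `|b| < |a|`
and `re (A (e x) / (a e x)) > 0` for all `x`: `x ↦ Complex.arg (A (e x) / (a e x))` is continuous and
1-periodic and, with the constant `arg a` added, it is an argument of `A (e x) / e x`; so (`isArg_sub`) it
differs from `2 π v (x, 0)` by a constant, and `k = 0`.
(Determinant of a real linear map of `ℂ`: `LinearMap.det` with the basis `Complex.basisOneI`, or
`ContinuousLinearMap.det`; `A.det = (A 1).re (A I).im - (A 1).im (A I).re`.)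
-/

open Complex Set Metric Topology Filter MeasureTheory
open Pool.Agent.H25.PR

namespace Pool.Agent.H70.PR

variable {f g : ℂ → ℂ} {A B : ℂ →L[ℝ] ℂ}

theorem det_formula (A : ℂ →L[ℝ] ℂ) : A.det = (A 1).re * (A I).im - (A 1).im * (A I).re := by
  have h1 : A.det = LinearMap.det (A : ℂ →ₗ[ℝ] ℂ) := rfl
  rw [h1, ← LinearMap.det_toMatrix Complex.basisOneI, Matrix.det_fin_two]
  simp only [LinearMap.toMatrix_apply, Complex.coe_basisOneI_repr, Complex.coe_basisOneI]
  simp
  ring

private theorem lin_decomp (A : ℂ →L[ℝ] ℂ) (z : ℂ) :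
    A z = (A 1 - I * A I) / 2 * z + (A 1 + I * A I) / 2 * (starRingEnd ℂ z) := by
  have h1 : A z = (z.re : ℂ) * A 1 + (z.im : ℂ) * A I := by
    have h2 : z = z.re • (1 : ℂ) + z.im • I := by
      apply Complex.ext <;> simp
    conv_lhs => rw [h2]
    rw [map_add, map_smul, map_smul, Complex.real_smul, Complex.real_smul]
  rw [h1]
  apply Complex.ext
  · simp
    ring
  · simp
    ring

private theorem norm_lt_aux (A : ℂ →L[ℝ] ℂ) (hA : 0 < A.det) :
    ‖(A 1 + I * A I) / 2‖ < ‖(A 1 - I * A I) / 2‖ := by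
  rw [det_formula] at hA
  rw [← sq_lt_sq₀ (norm_nonneg _) (norm_nonneg _), ← Complex.normSq_eq_norm_sq,
    ← Complex.normSq_eq_norm_sq, Complex.normSq_apply, Complex.normSq_apply]
  simp
  nlinarith

private theorem e_ne_zero' (x : ℝ) : e x ≠ 0 := by
  unfold e
  exact Complex.exp_ne_zero _

private theorem e_per' (x : ℝ) : e (x + 1) = e x :=
  (e_eq_iff _ _).2 ⟨1, by simp⟩

private theorem e_cont' : Continuous e := by
  unfold e
  fun_prop

private theorem e_add' (x y : ℝ) : e (x + y) = e x * e y := by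
  unfold e
  rw [← Complex.exp_add]
  congr 1
  push_cast
  ring

private theorem e_div (t : ℝ) : e (t / (2 * Real.pi)) = cexp (t * I) := by
  unfold e
  congr 1
  have : (Real.pi : ℂ) ≠ 0 := by exact_mod_cast Real.pi_ne_zero
  push_cast
  field_simp

/-- an argument of `A (e x) / e x` which is periodic -/
theorem exists_lin_angle (A : ℂ →L[ℝ] ℂ) (hA : 0 < A.det) :
    ∃ w : ℝ → ℝ, Continuous w ∧ (∀ x, w (x + 1) = w x) ∧
      ∀ x, A (e x) / e x = ‖A (e x) / e x‖ * e (w x) := by
  set a : ℂ := (A 1 - I * A I) / 2 with ha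
  set b : ℂ := (A 1 + I * A I) / 2 with hb
  have hlt : ‖b‖ < ‖a‖ := norm_lt_aux A hA
  have ha0 : a ≠ 0 := by
    intro h
    rw [h, norm_zero] at hlt
    exact absurd hlt (not_lt.2 (norm_nonneg _))
  have hform : ∀ x, A (e x) / e x / a = 1 + b / a * (starRingEnd ℂ (e x) / e x) := by
    intro x
    have h1 := lin_decomp A (e x)
    rw [← ha, ← hb] at h1
    rw [h1]
    have h2 := e_ne_zero' x
    field_simp
  have hre : ∀ x, 0 < (A (e x) / e x / a).re := by
    intro x
    rw [hform]
    have h1 : ‖b / a * (starRingEnd ℂ (e x) / e x)‖ < 1 := by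
      rw [norm_mul, norm_div b a, norm_div _ (e x), Complex.norm_conj, norm_e, div_one, mul_one,
        div_lt_one (norm_pos_iff.2 ha0)]
      exact hlt
    have h2 := (abs_le.1 (Complex.abs_re_le_norm (b / a * (starRingEnd ℂ (e x) / e x)))).1
    rw [Complex.add_re, Complex.one_re]
    linarith
  refine ⟨fun x => (Complex.arg a + Complex.arg (A (e x) / e x / a)) / (2 * Real.pi), ?_, ?_, ?_⟩
  · apply Continuous.div_const
    apply continuous_const.add
    rw [continuous_iff_continuousAt]
    intro x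
    have h1 : ContinuousAt (fun x => A (e x) / e x / a) x := by
      apply Continuous.continuousAt
      apply Continuous.div_const
      exact (A.continuous.comp e_cont').div e_cont' e_ne_zero'
    exact ContinuousAt.comp (f := fun x => A (e x) / e x / a) (g := Complex.arg)
      (Complex.continuousAt_arg (Or.inl (hre x))) h1
  · intro x
    simp only [e_per']
  · intro x
    simp only
    rw [add_div, e_add', e_div, e_div]
    have h1 := Complex.norm_mul_exp_arg_mul_I a
    have h2 := Complex.norm_mul_exp_arg_mul_I (A (e x) / e x / a)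
    have h3 : ‖A (e x) / e x‖ = ‖a‖ * ‖A (e x) / e x / a‖ := by
      rw [← norm_mul, mul_div_cancel₀ _ ha0]
    rw [h3]
    push_cast
    calc A (e x) / e x = a * (A (e x) / e x / a) := by rw [mul_div_cancel₀ _ ha0]
      _ = (‖a‖ * cexp (Complex.arg a * I)) *
          (‖A (e x) / e x / a‖ * cexp (Complex.arg (A (e x) / e x / a) * I)) := by rw [h1, h2]
      _ = _ := by ring

theorem exists_angle (h : DiscHomeo f g A B) :
    ∃ u : ℝ → ℝ → ℝ, Continuous (fun p : ℝ × ℝ => u p.1 p.2) ∧ (∀ x r, u (x + 1) r = u x r) ∧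
      (∀ x r, polQ f A x r = ‖polQ f A x r‖ * e (u x r)) ∧
      (∀ x r, r ≤ 0 → u x r = u x 0) ∧ (∀ x r, 1 ≤ r → u x r = u x 1) := by
  have hpi : (2 * Real.pi) ≠ 0 := by positivity
  obtain ⟨θ, hθ⟩ := exists_arg_plane (fun p : ℝ × ℝ => polQ f A p.1 p.2) (polQ_continuous h)
    (fun p => polQ_ne_zero h p.1 p.2)
  obtain ⟨w, hwc, hwp, hw⟩ := exists_lin_angle A h.Apos
  have hclamp : ∀ x r, polQ f A x (max 0 (min r 1)) = polQ f A x r := by
    intro x r
    rcases le_total r 0 with hr | hr
    · have h1 : max 0 (min r 1) = 0 := max_eq_left (le_trans (min_le_left _ _) hr)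
      rw [h1, ← polQ_low f A x r hr]
    · rcases le_total r 1 with hr1 | hr1
      · rw [min_eq_left hr1, max_eq_right hr]
      · rw [min_eq_right hr1, max_eq_right zero_le_one, ← polQ_high f A x r hr1]
  -- the shift
  have hθ' : IsArg (fun p : ℝ × ℝ => polQ f A (p.1 + 1) p.2) (fun p => θ (p.1 + 1, p.2)) := by
    refine ⟨hθ.1.comp (by fun_prop), fun p => ?_⟩
    exact hθ.2 (p.1 + 1, p.2)
  obtain ⟨k, hk⟩ := isArg_sub hθ' hθ (s := univ) isPreconnected_univ
    (fun p _ => polQ_per f A p.1 p.2) (fun p _ => polQ_ne_zero h _ _)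
  -- at the bottom
  have hθ0 : IsArg (fun x : ℝ => polQ f A x 0) (fun x => θ (x, 0)) := by
    refine ⟨hθ.1.comp (by fun_prop), fun x => ?_⟩
    exact hθ.2 (x, 0)
  have hw0 : IsArg (fun x : ℝ => A (e x) / e x) (fun x => w x * (2 * Real.pi)) := by
    refine ⟨by fun_prop, fun x => ?_⟩
    have h1 := hw x
    have h2 := e_div (w x * (2 * Real.pi))
    rw [mul_div_cancel_right₀ _ hpi] at h2
    rw [h2] at h1
    exact h1
  obtain ⟨m, hm⟩ := isArg_sub hθ0 hw0 (s := univ) isPreconnected_univ
    (fun x _ => by simp [polQ]) (fun x _ => polQ_ne_zero h _ _)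
  have hk0 : (k : ℝ) = 0 := by
    have h1 := hk (0, 0) (mem_univ _)
    have h2 := hm 0 (mem_univ _)
    have h3 := hm (0 + 1) (mem_univ _)
    have h4 := hwp 0
    simp only at h1 h2 h3
    rw [h4] at h3
    rw [h3, h2] at h1
    have h5 : 2 * Real.pi * (k : ℝ) = 0 := by linarith
    exact (mul_eq_zero.1 h5).resolve_left hpi
  refine ⟨fun x r => θ (x, max 0 (min r 1)) / (2 * Real.pi), ?_, ?_, ?_, ?_, ?_⟩
  · apply Continuous.div_const
    exact hθ.1.comp (by fun_prop)
  · intro x r
    have h1 := hk (x, max 0 (min r 1)) (mem_univ _)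
    simp only at h1
    rw [hk0, mul_zero, add_zero] at h1
    simp only
    rw [h1]
  · intro x r
    simp only
    rw [e_div, ← hclamp x r]
    exact hθ.2 (x, max 0 (min r 1))
  · intro x r hr
    have h1 : max 0 (min r 1) = 0 := max_eq_left (le_trans (min_le_left _ _) hr)
    have h2 : max (0 : ℝ) (min 0 1) = 0 := by simp
    simp only
    rw [h1, h2]
  · intro x r hr
    simp only
    rw [min_eq_right hr, min_self]

end Pool.Agent.H70.PR
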