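import Pool.Agent.H70.PR.D2

/-!
# PR module D3: lift data and the lift as a function (150 lines)

`exists_liftData`: `u` from `exists_angle`, `m x r = ‖polQ f A x r‖`. `le`: `r m x r = ‖f (r e x)‖ ≤ 1`.
`eq`: `f (r e x) = r e x polQ = r m e(x) e(u)`. `der`: `A (e x) = e x * polQ f A x 0`, `‖e x‖ = 1`.
`lft_*`: direct computations; `lft u m s` of `x + i r`: `(x + i r).re = x`, `(x + i r).im = r`.
`lft_proj`: `pr (lft u m 1 z) = (r m x r) e (x + u x r)` for `r = z.im ∈ [0,1]`, `x = z.re`.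
-/

open Complex Set Metric Topology Filter MeasureTheory
open Pool.Agent.H25.PR

namespace Pool.Agent.H70.PR

variable {f g : ℂ → ℂ} {A B : ℂ →L[ℝ] ℂ} {u m : ℝ → ℝ → ℝ}

/-- the data of a lift -/
structure LiftData (f : ℂ → ℂ) (A : ℂ →L[ℝ] ℂ) (u m : ℝ → ℝ → ℝ) : Prop where
  uc : Continuous (fun p : ℝ × ℝ => u p.1 p.2)
  mc : Continuous (fun p : ℝ × ℝ => m p.1 p.2)
  up : ∀ x r, u (x + 1) r = u x r
  mp : ∀ x r, m (x + 1) r = m x r
  mpos : ∀ x r, 0 < m x r
  u0 : ∀ x r, r ≤ 0 → u x r = u x 0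
  u1 : ∀ x r, 1 ≤ r → u x r = u x 1
  m1 : ∀ x r, 1 ≤ r → m x r = 1
  le : ∀ x r, 0 ≤ r → r ≤ 1 → r * m x r ≤ 1
  eq : ∀ x r : ℝ, 0 ≤ r → r ≤ 1 → f ((r : ℂ) * e x) = ((r * m x r : ℝ) : ℂ) * e (x + u x r)
  der : ∀ x : ℝ, A (e x) = ‖A (e x)‖ * e (x + u x 0)

private theorem e_add' (s t : ℝ) : e (s + t) = e s * e t := by
  unfold e
  rw [← Complex.exp_add]
  congr 1
  push_cast
  ring

private theorem norm_e' (t : ℝ) : ‖e t‖ = 1 := by
  unfold e
  have : (2 * Real.pi * t * I : ℂ) = ((2 * Real.pi * t : ℝ) : ℂ) * I := by push_cast; ring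
  rw [this, Complex.norm_exp_ofReal_mul_I]

private theorem e_ne' (t : ℝ) : e t ≠ 0 := by
  intro h
  have := norm_e' t
  rw [h, norm_zero] at this
  exact zero_ne_one this

theorem exists_liftData (h : DiscHomeo f g A B) : ∃ u m, LiftData f A u m := by
  obtain ⟨u, uc, up, uq, u0, u1⟩ := exists_angle h
  have hf : ∀ x r : ℝ, 0 ≤ r → r ≤ 1 → ‖f ((r : ℂ) * e x)‖ = r * ‖polQ f A x r‖ := by
    intro x r h0 h1
    rw [polQ_mul h x r h0 h1, norm_mul, norm_mul, norm_e', mul_one, Complex.norm_real,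
      Real.norm_eq_abs, abs_of_nonneg h0]
  refine ⟨u, fun x r => ‖polQ f A x r‖, ⟨uc, (polQ_continuous h).norm, up, ?_, ?_, u0, u1, ?_, ?_,
    ?_, ?_⟩⟩
  · intro x r
    rw [polQ_per]
  · intro x r
    exact norm_pos_iff.2 (polQ_ne_zero h x r)
  · intro x r hr
    rw [polQ_high f A x r hr]
    have h1 := hf x 1 zero_le_one le_rfl
    rw [one_mul, Complex.ofReal_one, one_mul, h.fb _ (norm_e' x)] at h1
    exact h1.symm
  · intro x r h0 h1
    rw [← hf x r h0 h1]
    have h2 : (r : ℂ) * e x ∈ Dsk := by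
      rw [Metric.mem_closedBall, dist_zero_right, norm_mul, norm_e', mul_one, Complex.norm_real,
        Real.norm_eq_abs, abs_of_nonneg h0]
      exact h1
    have h3 := h.fm h2
    rwa [Metric.mem_closedBall, dist_zero_right] at h3
  · intro x r h0 h1
    rw [polQ_mul h x r h0 h1]
    conv_lhs => rw [uq x r]
    rw [e_add']
    push_cast
    ring
  · intro x
    have h1 : polQ f A x 0 = A (e x) / e x := by
      unfold polQ
      rw [if_pos le_rfl]
    have h2 : A (e x) = e x * polQ f A x 0 := by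
      rw [h1, mul_div_cancel₀ _ (e_ne' x)]
    have h3 : ‖polQ f A x 0‖ = ‖A (e x)‖ := by
      rw [h1, norm_div, norm_e', div_one]
    conv_lhs => rw [h2, uq x 0, h3]
    rw [e_add']
    ring

theorem lft_joint (h : LiftData f A u m) : Continuous (fun p : ℝ × ℂ => lft u m p.1 p.2) := by
  have h1 : Continuous (fun p : ℝ × ℂ => u p.2.re (p.1 * p.2.im)) :=
    h.uc.comp ((Complex.continuous_re.comp continuous_snd).prodMk
      (continuous_fst.mul (Complex.continuous_im.comp continuous_snd)))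
  have h2 : Continuous (fun p : ℝ × ℂ => m p.2.re (p.1 * p.2.im)) :=
    h.mc.comp ((Complex.continuous_re.comp continuous_snd).prodMk
      (continuous_fst.mul (Complex.continuous_im.comp continuous_snd)))
  have h3 : Continuous (fun p : ℝ × ℂ => p.2.re) := Complex.continuous_re.comp continuous_snd
  have h4 : Continuous (fun p : ℝ × ℂ => p.2.im) := Complex.continuous_im.comp continuous_snd
  unfold lft
  refine (Complex.continuous_ofReal.comp (h3.add h1)).add
    ((Complex.continuous_ofReal.comp ?_).mul continuous_const)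
  exact (h4.min continuous_const).add ((h4.max continuous_const).mul h2)

theorem lft_per (h : LiftData f A u m) (s : ℝ) (z : ℂ) :
    lft u m s (z + 1) = lft u m s z + 1 := by
  unfold lft
  rw [Complex.add_re, Complex.add_im, Complex.one_re, Complex.one_im, add_zero, h.up, h.mp]
  push_cast
  ring

private theorem lft_xr (u m : ℝ → ℝ → ℝ) (x r : ℝ) :
    lft u m 1 ((x : ℂ) + r * I) = ((x + u x r : ℝ) : ℂ)
      + ((min r 0 + max r 0 * m x r : ℝ) : ℂ) * I := by
  have h1 : ((x : ℂ) + r * I).re = x := by simp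
  have h2 : ((x : ℂ) + r * I).im = r := by simp
  unfold lft
  rw [h1, h2, one_mul]

private theorem lft_xr' (u m : ℝ → ℝ → ℝ) (z : ℂ) :
    lft u m 1 z = ((z.re + u z.re z.im : ℝ) : ℂ)
      + ((min z.im 0 + max z.im 0 * m z.re z.im : ℝ) : ℂ) * I := by
  unfold lft
  rw [one_mul]

theorem lft_low0 (u m : ℝ → ℝ → ℝ) (x : ℝ) : lft u m 1 (x : ℂ) = ((x + u x 0 : ℝ) : ℂ) := by
  rw [lft_xr', Complex.ofReal_re, Complex.ofReal_im]
  simp

theorem lft_low (h : LiftData f A u m) (x r : ℝ) (hr : r ≤ 0) :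
    lft u m 1 ((x : ℂ) + r * I) = lft u m 1 (x : ℂ) + r * I := by
  rw [lft_xr, lft_low0, min_eq_left hr, max_eq_right hr, zero_mul, add_zero, h.u0 x r hr]

theorem lft_high0 (h : LiftData f A u m) (x : ℝ) :
    lft u m 1 ((x : ℂ) + I) = ((x + u x 1 : ℝ) : ℂ) + I := by
  have h1 := lft_xr u m x 1
  rw [Complex.ofReal_one, one_mul, min_eq_right zero_le_one, max_eq_left zero_le_one,
    h.m1 x 1 le_rfl] at h1
  rw [h1]
  simp

theorem lft_high (h : LiftData f A u m) (x r : ℝ) (hr : 1 ≤ r) :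
    lft u m 1 ((x : ℂ) + r * I) = lft u m 1 ((x : ℂ) + I) + ((r : ℂ) - 1) * I := by
  rw [lft_high0 h, lft_xr, min_eq_right (zero_le_one.trans hr), max_eq_left (zero_le_one.trans hr),
    h.m1 x r hr, h.u1 x r hr]
  push_cast
  ring

private theorem lft_im (z : ℂ) (hz : z ∈ Strip) :
    (lft u m 1 z).im = z.im * m z.re z.im := by
  rw [lft_xr', min_eq_right hz.1, max_eq_left hz.1, zero_add]
  simp

private theorem lft_re (z : ℂ) : (lft u m 1 z).re = z.re + u z.re z.im := by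
  rw [lft_xr']
  simp

theorem lft_strip (h : LiftData f A u m) (z : ℂ) (hz : z ∈ Strip) : lft u m 1 z ∈ Strip := by
  refine ⟨?_, ?_⟩
  · rw [lft_im z hz]
    exact mul_nonneg hz.1 (h.mpos _ _).le
  · rw [lft_im z hz]
    exact h.le _ _ hz.1 hz.2

theorem lft_proj (h : LiftData f A u m) (z : ℂ) (hz : z ∈ Strip) :
    pr (lft u m 1 z) = f (pr z) := by
  unfold pr
  rw [lft_im z hz, lft_re, h.eq z.re z.im hz.1 hz.2]

end Pool.Agent.H70.PR
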