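import Pool.Agent.H70.PR.D3

/-!
# PR module D4: the lift is a homeomorphism (120 lines)

`lift_inv`: `F = lft u m 1`, `G = lft u' m' 1` lifts of `f`, `g`, inverse on the disc. On the strip
`pr (F (G z)) = f (g (pr z)) = pr z`. For `0 < z.im`: `pr_eq` (first argument `z`) gives `F (G z) = z + k`
with an integer `k` depending on `z`; `re (F (G z) - z)` is continuous with integer values on the
preconnected set `{0 < im ≤ 1}` (convex), so `k` is constant there, and on `{0 ≤ im ≤ 1}` by continuity.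
For `im z ≤ 0`: `F (G (x + r I)) = F (G x + r I) = F (G x) + r I` (`G x` is real, `lft_low`, `lft_low0`). For
`1 ≤ im z` similarly. So `F (G z) = z + k` for all `z`.
`exists_lift_homeo`: `F (G z) = z + k`, `G (F z) = z + k'`; `F (G (F z)) = F z + k = F (z + k') = F z + k'`, so `k = k'`;
the inverse of `F` is `z ↦ G (z - k)`.
-/

open Complex Set Metric Topology Filter MeasureTheory
open Pool.Agent.H25.PR

namespace Pool.Agent.H70.PR

variable {f g : ℂ → ℂ} {A B : ℂ →L[ℝ] ℂ}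

private theorem D4_lft_cont {u m : ℝ → ℝ → ℝ} (h : LiftData f A u m) :
    Continuous (fun z => lft u m 1 z) :=
  (lft_joint h).comp (continuous_const.prodMk continuous_id)

private theorem D4_const {ψ : ℂ → ℂ} (hψ : Continuous ψ)
    (hi : ∀ z : ℂ, 0 < z.im → z.im ≤ 1 → ∃ k : ℤ, ψ z = k) :
    ∃ k : ℤ, ∀ z : ℂ, 0 ≤ z.im → z.im ≤ 1 → ψ z = k := by
  obtain ⟨k, hk⟩ := hi I (by simp) (by simp)
  refine ⟨k, ?_⟩
  have hconv : Convex ℝ {z : ℂ | 0 < z.im ∧ z.im ≤ 1} := by
    have h1 : {z : ℂ | 0 < z.im ∧ z.im ≤ 1} = Complex.imCLM ⁻¹' (Ioc 0 1) := by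
      ext z
      simp
    rw [h1]
    exact (convex_Ioc 0 1).linear_preimage _
  have hpc : IsPreconnected {z : ℂ | 0 < z.im ∧ z.im ≤ 1} := hconv.isPreconnected
  have hre : Continuous (fun z => (ψ z).re) := Complex.continuous_re.comp hψ
  have himg := hpc.image (fun z => (ψ z).re) hre.continuousOn
  have key : ∀ z w : ℂ, 0 < z.im → z.im ≤ 1 → 0 < w.im → w.im ≤ 1 → ∀ a b : ℤ, ψ z = a →
      ψ w = b → a < b → False := by
    intro z w hz0 hz1 hw0 hw1 a b ha hb hab
    have h1 : (a : ℝ) ∈ (fun z => (ψ z).re) '' {z : ℂ | 0 < z.im ∧ z.im ≤ 1} :=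
      ⟨z, ⟨hz0, hz1⟩, by simp [ha]⟩
    have h2 : (b : ℝ) ∈ (fun z => (ψ z).re) '' {z : ℂ | 0 < z.im ∧ z.im ≤ 1} :=
      ⟨w, ⟨hw0, hw1⟩, by simp [hb]⟩
    have h3 := himg.Icc_subset h1 h2
    have hab' : (a : ℝ) + 1 ≤ b := by exact_mod_cast hab
    have h4 : (a : ℝ) + 1 / 2 ∈ Icc (a : ℝ) b := ⟨by linarith, by linarith⟩
    obtain ⟨v, ⟨hv0, hv1⟩, hv⟩ := h3 h4
    obtain ⟨c, hc⟩ := hi v hv0 hv1
    simp only [hc, intCast_re] at hv
    have h5 : (2 * c : ℤ) = 2 * a + 1 := by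
      have : (2 * c : ℝ) = 2 * a + 1 := by linarith
      exact_mod_cast this
    omega
  have hopen : ∀ z : ℂ, 0 < z.im → z.im ≤ 1 → ψ z = k := by
    intro z hz0 hz1
    obtain ⟨c, hc⟩ := hi z hz0 hz1
    rcases lt_trichotomy c k with h1 | h1 | h1
    · exact (key z I hz0 hz1 (by simp) (by simp) c k hc hk h1).elim
    · rw [hc, h1]
    · exact (key I z (by simp) (by simp) hz0 hz1 k c hk hc h1).elim
  intro z hz0 hz1
  rcases hz0.lt_or_eq with h1 | h1
  · exact hopen z h1 hz1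
  · -- limit of z + ε I
    have hc : Continuous (fun ε : ℝ => ψ (z + (ε : ℂ) * I)) := by
      refine hψ.comp ?_
      fun_prop
    have ht : Tendsto (fun ε : ℝ => ψ (z + (ε : ℂ) * I)) (𝓝[>] 0) (𝓝 (ψ z)) := by
      have h2 := (hc.tendsto 0).mono_left (nhdsWithin_le_nhds (s := Ioi (0 : ℝ)))
      simpa using h2
    have ht2 : Tendsto (fun ε : ℝ => ψ (z + (ε : ℂ) * I)) (𝓝[>] 0) (𝓝 (k : ℂ)) := by
      refine tendsto_const_nhds.congr' ?_
      filter_upwards [Ioo_mem_nhdsGT (zero_lt_one' ℝ)] with ε hε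
      refine (hopen _ ?_ ?_).symm
      · simp only [add_im, mul_im, ofReal_re, I_im, mul_one, ofReal_im, I_re, mul_zero, add_zero,
          ← h1, zero_add]
        exact hε.1
      · simp only [add_im, mul_im, ofReal_re, I_im, mul_one, ofReal_im, I_re, mul_zero, add_zero,
          ← h1, zero_add]
        exact hε.2.le
    exact tendsto_nhds_unique ht ht2

theorem lift_inv {u m u' m' : ℝ → ℝ → ℝ} (h : LiftData f A u m) (h' : LiftData g B u' m')
    (hfg : ∀ z ∈ Dsk, f (g z) = z) :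
    ∃ k : ℤ, ∀ z, lft u m 1 (lft u' m' 1 z) = z + k := by
  have hc : Continuous (fun z => lft u m 1 (lft u' m' 1 z) - z) :=
    ((D4_lft_cont h).comp (D4_lft_cont h')).sub continuous_id
  obtain ⟨k, hk⟩ := D4_const hc (by
    intro z hz0 hz1
    have hzS : z ∈ Strip := ⟨hz0.le, hz1⟩
    have h1 := lft_strip h' z hzS
    have h2 := lft_strip h _ h1
    have h3 : pr z = pr (lft u m 1 (lft u' m' 1 z)) := by
      rw [lft_proj h _ h1, lft_proj h' z hzS, hfg _ (pr_mem hzS)]
    obtain ⟨k, hk⟩ := pr_eq hzS h2 hz0 h3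
    refine ⟨k, ?_⟩
    simp only [hk]
    ring)
  have hk' : ∀ z : ℂ, 0 ≤ z.im → z.im ≤ 1 → lft u m 1 (lft u' m' 1 z) = z + k := by
    intro z hz0 hz1
    have := hk z hz0 hz1
    rw [← this]
    ring
  refine ⟨k, fun z => ?_⟩
  have hz : z = (z.re : ℂ) + (z.im : ℂ) * I := (Complex.re_add_im z).symm
  rcases le_total z.im 0 with h0 | h0
  · have h1 := hk' (z.re : ℂ) (by simp) (by simp)
    rw [hz, lft_low h' z.re z.im h0]
    rw [lft_low0] at h1 ⊢
    rw [lft_low h _ z.im h0, h1]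
    ring
  · rcases le_total z.im 1 with h2 | h2
    · exact hk' z h0 h2
    · have h1 := hk' ((z.re : ℂ) + I) (by simp) (by simp)
      rw [hz, lft_high h' z.re z.im h2]
      rw [lft_high0 h'] at h1 ⊢
      have e1 : ((z.re + u' z.re 1 : ℝ) : ℂ) + I + ((z.im : ℂ) - 1) * I
          = ((z.re + u' z.re 1 : ℝ) : ℂ) + (z.im : ℂ) * I := by ring
      rw [e1, lft_high h _ z.im h2, h1]
      ring

theorem exists_lift_homeo (h : DiscHomeo f g A B) :
    ∃ (F : ℂ ≃ₜ ℂ) (u m : ℝ → ℝ → ℝ), LiftData f A u m ∧ ∀ z, F z = lft u m 1 z := by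
  obtain ⟨u, m, hu⟩ := exists_liftData h
  have hs : DiscHomeo g f B A := discHomeo_symm h fun E hE hm => vol_symm h E hE hm
  obtain ⟨u', m', hu'⟩ := exists_liftData hs
  obtain ⟨k, hk⟩ := lift_inv hu hu' h.fg
  obtain ⟨k', hk'⟩ := lift_inv hu' hu h.gf
  have hFp : ∀ (z : ℂ) (n : ℤ), lft u m 1 (z + n) = lft u m 1 z + n :=
    fun z n => per_int (lft_per hu 1) z n
  have hkk : (k : ℂ) = k' := by
    have h1 := hk (lft u m 1 0)
    rw [hk' 0, hFp] at h1
    exact (add_left_cancel h1).symm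
  refine ⟨{ toFun := fun z => lft u m 1 z
            invFun := fun z => lft u' m' 1 (z - k)
            left_inv := ?_
            right_inv := ?_
            continuous_toFun := D4_lft_cont hu
            continuous_invFun := (D4_lft_cont hu').comp (continuous_id.sub continuous_const) },
    u, m, hu, fun z => rfl⟩
  · intro z
    have h1 : lft u m 1 z - k = lft u m 1 (z - k) := by
      have h2 := hFp z (-k)
      push_cast at h2
      rw [sub_eq_add_neg, sub_eq_add_neg, h2]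
    change lft u' m' 1 (lft u m 1 z - k) = z
    rw [h1, hk', hkk]
    ring
  · intro z
    change lft u m 1 (lft u' m' 1 (z - k)) = z
    rw [hk]
    ring

end Pool.Agent.H70.PR
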