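import Pool.Agent.H70.PR.D3
import Pool.Agent.H25.PR.A5

/-!
# PR module D5: the lift is isotopic to the identity (150 lines)

`homIso_concat`: `h0` has an isotopy from `id`; `K : ℝ → ℂ → ℂ` jointly continuous, injective for `t ∈ [0,1]`,
`K 0 = h0`, `K 1 = h`: take `H (2 t)` clamped to `[0,1]` for `t ≤ 1/2` and `K (2 t - 1)` clamped for `t ≥ 1/2`
(`Continuous.if_le`).
`homIso_lft`: first the base map `lft u m 0 z = x + u x 0 + i (min r 0 + max r 0 * m x 0)` (`z = x + i r`).
`x ↦ x + u x 0` is injective (`lft u m 1 (x : ℂ) = x + u x 0` and `lft u m 1` injective) and continuous, and grows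
by `1` under `x ↦ x + 1`, so it is strictly increasing (`Continuous.strictMono_of_inj`); hence so is
`x ↦ x + t u x 0` for `t ∈ [0,1]`. Isotopy from `id` to `lft u m 0`:
`x + t u x 0 + i (min r 0 + max r 0 * ((1-t) + t m x 0))`, `t` clamped to `[0,1]`, injective: `x` is determined
by the real part, then `r ↦ min r 0 + max r 0 * c` is strictly increasing for `c > 0`.
Then `K s = lft u m s`, `0 ≤ s ≤ 1`: for `0 < s`, with `D s (x + i r) = x + i s r`,
`D s (lft u m s z) = lft u m 1 (D s z)` (because `s (min r 0 + max r 0 * m) = min (s r) 0 + max (s r) 0 * m`), so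
`lft u m s` is injective; `s = 0` is the base map.
-/

open Complex Set Metric Topology Filter MeasureTheory
open Pool.Agent.H25.PR

namespace Pool.Agent.H70.PR

theorem homIso_concat {h0 h : ℂ → ℂ} (h1 : HomIso h0) (K : ℝ → ℂ → ℂ)
    (hK : Continuous (fun p : ℝ × ℂ => K p.1 p.2))
    (hi : ∀ t : ℝ, 0 ≤ t → t ≤ 1 → Function.Injective (K t)) (k0 : ∀ z, K 0 z = h0 z)
    (k1 : ∀ z, K 1 z = h z) : HomIso h := by
  obtain ⟨H, Hc, Hi, H0, H1⟩ := h1
  refine ⟨fun t z => if t ≤ 1 / 2 then H (2 * t) z else K (min (max (2 * t - 1) 0) 1) z,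
    ?_, ?_, ?_, ?_⟩
  · refine Continuous.if_le ?_ ?_ continuous_fst continuous_const ?_
    · exact Hc.comp (f := fun p : ℝ × ℂ => (2 * p.1, p.2)) (by fun_prop)
    · exact hK.comp (f := fun p : ℝ × ℂ => (min (max (2 * p.1 - 1) 0) 1, p.2)) (by fun_prop)
    · rintro ⟨t, z⟩ ht
      have ht' : t = 1 / 2 := ht
      subst ht'
      have e1 : (2 : ℝ) * (1 / 2) = 1 := by norm_num
      have e2 : min (max ((2 : ℝ) * (1 / 2) - 1) 0) 1 = 0 := by norm_num
      change H (2 * (1 / 2)) z = K (min (max (2 * (1 / 2) - 1) 0) 1) z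
      rw [e2, e1, H1, k0]
  · intro t z w hzw
    by_cases ht : t ≤ 1 / 2
    · simp only [if_pos ht] at hzw
      exact Hi _ hzw
    · simp only [if_neg ht] at hzw
      exact hi _ (le_min (le_max_right _ _) zero_le_one) (min_le_right _ _) hzw
  · intro z
    have h2 : (0 : ℝ) ≤ 1 / 2 := by norm_num
    simp only [if_pos h2, mul_zero]
    exact H0 z
  · intro z
    have h2 : ¬ (1 : ℝ) ≤ 1 / 2 := by norm_num
    have e2 : min (max ((2 : ℝ) * 1 - 1) 0) 1 = 1 := by norm_num
    simp only [if_neg h2]
    rw [e2]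
    exact k1 z

private theorem D5_eq {a b c d : ℝ} (h : (a : ℂ) + (b : ℂ) * I = (c : ℂ) + (d : ℂ) * I) :
    a = c ∧ b = d := by
  have h1 := congrArg Complex.re h
  have h2 := congrArg Complex.im h
  simp at h1 h2
  exact ⟨h1, h2⟩

private theorem D5_im {k r r' : ℝ} (hk : 0 < k)
    (h : min r 0 + max r 0 * k = min r' 0 + max r' 0 * k) : r = r' := by
  have key : ∀ a b : ℝ, a < b → min a 0 + max a 0 * k < min b 0 + max b 0 * k := by
    intro a b hab
    rcases le_total a 0 with ha | ha
    · rw [min_eq_left ha, max_eq_right ha, zero_mul, add_zero]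
      rcases le_total b 0 with hb | hb
      · rw [min_eq_left hb, max_eq_right hb, zero_mul, add_zero]
        exact hab
      · rw [min_eq_right hb, max_eq_left hb, zero_add]
        rcases ha.lt_or_eq with ha' | ha'
        · exact ha'.trans_le (mul_nonneg hb hk.le)
        · subst ha'
          exact mul_pos hab hk
    · have hb : 0 ≤ b := ha.trans hab.le
      rw [min_eq_right ha, max_eq_left ha, zero_add, min_eq_right hb, max_eq_left hb, zero_add]
      exact mul_lt_mul_of_pos_right hab hk
  rcases lt_trichotomy r r' with h1 | h1 | h1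
  · exact absurd h (key _ _ h1).ne
  · exact h1
  · exact absurd h (key _ _ h1).ne'

theorem homIso_lft {f : ℂ → ℂ} {A : ℂ →L[ℝ] ℂ} {u m : ℝ → ℝ → ℝ} (h : LiftData f A u m)
    (hinj : Function.Injective (lft u m 1)) : HomIso (lft u m 1) := by
  have huc : Continuous (fun x : ℝ => u x 0) :=
    h.uc.comp (continuous_id.prodMk continuous_const)
  have hmc : Continuous (fun x : ℝ => m x 0) :=
    h.mc.comp (continuous_id.prodMk continuous_const)
  -- the base map is increasing
  have hφi : Function.Injective (fun x : ℝ => x + u x 0) := by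
    intro x y hxy
    have h1 : lft u m 1 (x : ℂ) = lft u m 1 (y : ℂ) := by
      rw [lft_low0, lft_low0]
      exact congrArg _ hxy
    exact Complex.ofReal_injective (hinj h1)
  have hφ : StrictMono (fun x : ℝ => x + u x 0) := by
    rcases (continuous_id.add huc).strictMono_of_inj hφi with h1 | h1
    · exact h1
    · have h2 := h1 (show (0 : ℝ) < 0 + 1 by norm_num)
      have h3 : (0 : ℝ) + 1 + u (0 + 1) 0 < 0 + u 0 0 := h2
      rw [h.up] at h3
      linarith
  have hK0c : Continuous (fun p : ℝ × ℂ =>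
      ((p.2.re + min (max p.1 0) 1 * u p.2.re 0 : ℝ) : ℂ)
        + ((min p.2.im 0 + max p.2.im 0 *
          ((1 - min (max p.1 0) 1) + min (max p.1 0) 1 * m p.2.re 0) : ℝ) : ℂ) * I) := by
    have c1 : Continuous (fun p : ℝ × ℂ => u p.2.re 0) :=
      huc.comp (Complex.continuous_re.comp continuous_snd)
    have c2 : Continuous (fun p : ℝ × ℂ => m p.2.re 0) :=
      hmc.comp (Complex.continuous_re.comp continuous_snd)
    fun_prop
  have hK0i : ∀ c : ℝ, 0 ≤ c → c ≤ 1 → ∀ z w : ℂ,
      ((z.re + c * u z.re 0 : ℝ) : ℂ)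
        + ((min z.im 0 + max z.im 0 * ((1 - c) + c * m z.re 0) : ℝ) : ℂ) * I
      = ((w.re + c * u w.re 0 : ℝ) : ℂ)
        + ((min w.im 0 + max w.im 0 * ((1 - c) + c * m w.re 0) : ℝ) : ℂ) * I → z = w := by
    intro c hc0 hc1 z w hzw
    obtain ⟨h1, h2⟩ := D5_eq hzw
    have hmono : ∀ x y : ℝ, x < y → x + c * u x 0 < y + c * u y 0 := by
      intro x y hxy
      have h3 : x + u x 0 < y + u y 0 := hφ hxy
      rcases hc0.lt_or_eq with hc | hc
      · nlinarith
      · subst hc
        linarith
    have hre : z.re = w.re := by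
      rcases lt_trichotomy z.re w.re with h3 | h3 | h3
      · exact absurd h1 (hmono _ _ h3).ne
      · exact h3
      · exact absurd h1 (hmono _ _ h3).ne'
    rw [hre] at h2
    have hk : 0 < (1 - c) + c * m w.re 0 := by
      have h3 := h.mpos w.re 0
      rcases hc0.lt_or_eq with hc | hc
      · nlinarith [mul_pos hc h3]
      · subst hc
        linarith
    exact Complex.ext hre (D5_im hk h2)
  have hbase : HomIso (lft u m 0) := by
    refine ⟨fun t z => ((z.re + min (max t 0) 1 * u z.re 0 : ℝ) : ℂ)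
        + ((min z.im 0 + max z.im 0 *
          ((1 - min (max t 0) 1) + min (max t 0) 1 * m z.re 0) : ℝ) : ℂ) * I, hK0c, ?_, ?_, ?_⟩
    · intro t z w hzw
      exact hK0i _ (le_min (le_max_right _ _) zero_le_one) (min_le_right _ _) z w hzw
    · intro z
      have e2 : min (max (0 : ℝ) 0) 1 = 0 := by norm_num
      simp only [e2, zero_mul, add_zero, sub_zero, mul_one]
      have e3 : min z.im 0 + max z.im 0 = z.im := by
        rw [min_add_max, add_zero]
      rw [e3]
      exact Complex.re_add_im z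
    · intro z
      have e2 : min (max (1 : ℝ) 0) 1 = 1 := by norm_num
      simp only [e2, one_mul, sub_self, zero_add]
      rw [lft, zero_mul]
  have hb0 : Function.Injective (lft u m 0) := by
    intro z w hzw
    refine hK0i 1 zero_le_one le_rfl z w ?_
    simp only [one_mul, sub_self, zero_add]
    rw [lft, lft, zero_mul, zero_mul] at hzw
    exact hzw
  refine homIso_concat hbase (lft u m) (lft_joint h) ?_ (fun _ => rfl) (fun _ => rfl)
  intro s hs0 hs1
  rcases hs0.eq_or_lt with hs | hs
  · rw [← hs]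
    exact hb0
  · intro z w hzw
    have hD : ∀ z : ℂ, lft u m 1 ((z.re : ℂ) + ((s * z.im : ℝ) : ℂ) * I)
        = (((lft u m s z).re : ℝ) : ℂ) + ((s * (lft u m s z).im : ℝ) : ℂ) * I := by
      intro z
      have e1 : ((z.re : ℂ) + ((s * z.im : ℝ) : ℂ) * I).re = z.re := by simp
      have e2 : ((z.re : ℂ) + ((s * z.im : ℝ) : ℂ) * I).im = s * z.im := by simp
      have e3 : (lft u m s z).re = z.re + u z.re (s * z.im) := by
        rw [lft]
        simp
      have e4 : (lft u m s z).im = min z.im 0 + max z.im 0 * m z.re (s * z.im) := by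
        rw [lft]
        simp
      rw [lft, e1, e2, e3, e4, one_mul]
      have e5 : min (s * z.im) 0 = s * min z.im 0 := by
        have h5 := mul_min_of_nonneg z.im 0 hs.le
        rw [mul_zero] at h5
        exact h5.symm
      have e6 : max (s * z.im) 0 = s * max z.im 0 := by
        have h6 := mul_max_of_nonneg z.im 0 hs.le
        rw [mul_zero] at h6
        exact h6.symm
      rw [e5, e6]
      have e7 : s * min z.im 0 + s * max z.im 0 * m z.re (s * z.im)
          = s * (min z.im 0 + max z.im 0 * m z.re (s * z.im)) := by ring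
      rw [e7]
    have h1 : lft u m 1 ((z.re : ℂ) + ((s * z.im : ℝ) : ℂ) * I)
        = lft u m 1 ((w.re : ℂ) + ((s * w.im : ℝ) : ℂ) * I) := by
      rw [hD z, hD w, hzw]
    obtain ⟨h2, h3⟩ := D5_eq (hinj h1)
    exact Complex.ext h2 (mul_left_cancel₀ hs.ne' h3)

end Pool.Agent.H70.PR
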