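import Pool.Agent.H70.PR.D4
import Pool.Agent.H70.PR.D5

/-!
# PR module D6: lifts exist; shifts, iterates, inverses (170 lines)

`exists_annLift`: `F` from `exists_lift_homeo`, all fields from the `lft_*` lemmas and `homIso_lft`;
the last property is `LiftData.der` with `lft_low0`.
`annLift_shift`: `homIso_comp` with `homIso_translation`.
`annLift_iter`: induction on `n` (`Homeomorph.refl`, `Homeomorph.trans`); composition of lifts:
`F x` is real for real `x`, `F (x + I) = x' + I` with `x'` real, so `low`, `high` compose.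
`annLift_symm`: `HomIso F.symm`: `G t z = H (1 - t) (F.symm z)`. `strip`: if `z ∈ Strip` and `w = F.symm z` were
not in the strip, `w = x + r I` with `r < 0` or `r > 1`, then `im z = im (F w) = r` (`low`, `low0`) or
`= 1 + (r - 1)` (`high`, `high0`), contradiction. `low`: `F (F.symm x + r I) = x + r I` since `F.symm x` is real
(`im (F w) = im w` type argument: if `F w` is real then `w` is real: `w` in the strip, and
`0 = ‖pr (F w)‖ = ‖f (pr w)‖`, `f 0 = 0`, `f` injective on the disc, so `pr w = 0`, `im w = 0`).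
`high` similarly: if `im (F w) = 1` then `im w = 1`: this needs `‖g z‖ = 1` for `‖z‖ = 1`.
`vol`: as `vol_symm`; in `annLift_iter` images `f '' E` of measurable `E ⊆ Dsk` are measurable by
`MeasurableSet.image_of_continuousOn_injOn`.
-/

open Complex Set Metric Topology Filter MeasureTheory
open Pool.Agent.H25.PR

namespace Pool.Agent.H70.PR

variable {f g : ℂ → ℂ} {A B : ℂ →L[ℝ] ℂ}

private theorem D6_strip_real (x : ℝ) : (x : ℂ) ∈ Strip := by
  constructor <;> simp

private theorem D6_strip_top (x : ℝ) : (x : ℂ) + I ∈ Strip := by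
  constructor <;> simp

private theorem D6_real {w : ℂ} (h : w.im = 0) : w = ((w.re : ℝ) : ℂ) := by
  apply Complex.ext
  · simp
  · simp [h]

private theorem D6_top {w : ℂ} (h : w.im = 1) : w = ((w.re : ℝ) : ℂ) + I := by
  apply Complex.ext
  · simp
  · simp [h]

theorem exists_annLift (h : DiscHomeo f g A B) :
    ∃ F : ℂ ≃ₜ ℂ, AnnLift f F ∧ ∀ x : ℝ, A (e x) = ‖A (e x)‖ * e ((F (x : ℂ)).re) := by
  obtain ⟨F, u, m, hu, hF⟩ := exists_lift_homeo h
  have hFe : (F : ℂ → ℂ) = lft u m 1 := funext hF
  have hinj : Function.Injective (lft u m 1) := by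
    rw [← hFe]
    exact F.injective
  refine ⟨F, ?_, ?_⟩
  · refine
      { iso := ?_
        per := ?_
        low := ?_
        low0 := ?_
        high := ?_
        high0 := ?_
        strip := ?_
        proj := ?_
        cont := h.fc
        bij := ⟨h.fm, ?_, ?_⟩
        vol := h.vol }
    · rw [hFe]
      exact homIso_lft hu hinj
    · intro z
      rw [hF, hF, lft_per hu]
    · intro x r hr
      rw [hF, hF, lft_low hu x r hr]
    · intro x
      rw [hF, lft_low0, ofReal_im]
    · intro x r hr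
      rw [hF, hF, lft_high hu x r hr]
    · intro x
      rw [hF, lft_high0 hu]
      simp
    · intro z hz
      rw [hF]
      exact lft_strip hu z hz
    · intro z hz
      rw [hF]
      exact lft_proj hu z hz
    · intro z hz w hw hzw
      rw [← h.gf z hz, ← h.gf w hw, hzw]
    · intro z hz
      exact ⟨g z, h.gm hz, h.fg z hz⟩
  · intro x
    rw [hF, lft_low0, ofReal_re]
    exact hu.der x

private theorem D6_comp {f f' : ℂ → ℂ} {F F' : ℂ ≃ₜ ℂ} (hF : AnnLift f F) (hF' : AnnLift f' F') :
    AnnLift (f' ∘ f) (F.trans F') := by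
  refine
    { iso := ?_
      per := ?_
      low := ?_
      low0 := ?_
      high := ?_
      high0 := ?_
      strip := ?_
      proj := ?_
      cont := hF'.cont.comp hF.cont hF.bij.mapsTo
      bij := hF'.bij.comp hF.bij
      vol := ?_ }
  · exact homIso_comp (g := F') (h := F) hF'.iso hF.iso
  · intro z
    show F' (F (z + 1)) = F' (F z) + 1
    rw [hF.per, hF'.per]
  · intro x r hr
    show F' (F ((x : ℂ) + r * I)) = F' (F (x : ℂ)) + r * I
    rw [hF.low x r hr, D6_real (hF.low0 x), hF'.low _ r hr]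
  · intro x
    show (F' (F (x : ℂ))).im = 0
    rw [D6_real (hF.low0 x), hF'.low0]
  · intro x r hr
    show F' (F ((x : ℂ) + r * I)) = F' (F ((x : ℂ) + I)) + ((r : ℂ) - 1) * I
    rw [hF.high x r hr, D6_top (hF.high0 x), ← hF'.high _ r hr]
    congr 1
    ring
  · intro x
    show (F' (F ((x : ℂ) + I))).im = 1
    rw [D6_top (hF.high0 x), hF'.high0]
  · intro z hz
    exact hF'.strip _ (hF.strip z hz)
  · intro z hz
    show pr (F' (F z)) = f' (f (pr z))
    rw [hF'.proj _ (hF.strip z hz), hF.proj z hz]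
  · intro E hE hm
    have h1 : f '' E ⊆ Dsk := by
      rintro _ ⟨z, hz, rfl⟩
      exact hF.bij.mapsTo (hE hz)
    have h2 : MeasurableSet (f '' E) :=
      hm.image_of_continuousOn_injOn (hF.cont.mono hE) (hF.bij.injOn.mono hE)
    rw [Set.image_comp, hF'.vol _ h1 h2, hF.vol E hE hm]

private theorem D6_refl : AnnLift id (Homeomorph.refl ℂ) := by
  refine
    { iso := ⟨fun _ z => z, continuous_snd, fun _ _ _ h => h, fun _ => rfl, fun _ => rfl⟩
      per := fun _ => rfl
      low := fun _ _ _ => rfl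
      low0 := ?_
      high := ?_
      high0 := ?_
      strip := fun _ h => h
      proj := fun _ _ => rfl
      cont := continuousOn_id
      bij := Set.bijOn_id _
      vol := ?_ }
  · intro x
    exact ofReal_im x
  · intro x r _
    show (x : ℂ) + r * I = (x : ℂ) + I + ((r : ℂ) - 1) * I
    ring
  · intro x
    show ((x : ℂ) + I).im = 1
    simp
  · intro E _ _
    rw [Set.image_id]

theorem annLift_shift {F : ℂ ≃ₜ ℂ} (hF : AnnLift f F) (k : ℤ) :
    ∃ G : ℂ ≃ₜ ℂ, (∀ z, G z = F z + k) ∧ AnnLift f G := by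
  refine ⟨F.trans (Homeomorph.addRight (k : ℂ)), fun z => rfl, ?_⟩
  refine
    { iso := ?_
      per := ?_
      low := ?_
      low0 := ?_
      high := ?_
      high0 := ?_
      strip := ?_
      proj := ?_
      cont := hF.cont
      bij := hF.bij
      vol := hF.vol }
  · exact homIso_comp (g := fun z => z + (k : ℂ)) (h := F) (homIso_translation (k : ℂ)) hF.iso
  · intro z
    show F (z + 1) + k = F z + k + 1
    rw [hF.per]
    ring
  · intro x r hr
    show F ((x : ℂ) + r * I) + k = F (x : ℂ) + k + r * I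
    rw [hF.low x r hr]
    ring
  · intro x
    show (F (x : ℂ) + k).im = 0
    rw [add_im, hF.low0]
    simp
  · intro x r hr
    show F ((x : ℂ) + r * I) + k = F ((x : ℂ) + I) + k + ((r : ℂ) - 1) * I
    rw [hF.high x r hr]
    ring
  · intro x
    show (F ((x : ℂ) + I) + k).im = 1
    rw [add_im, hF.high0]
    simp
  · intro z hz
    have h1 := hF.strip z hz
    have h2 : (F z + (k : ℂ)).im = (F z).im := by simp
    show 0 ≤ (F z + (k : ℂ)).im ∧ (F z + (k : ℂ)).im ≤ 1
    rw [h2]
    exact h1
  · intro z hz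
    show pr (F z + k) = f (pr z)
    rw [pr_add_int, hF.proj z hz]

theorem annLift_iter {F : ℂ ≃ₜ ℂ} (hF : AnnLift f F) (n : ℕ) :
    ∃ G : ℂ ≃ₜ ℂ, (∀ z, G z = F^[n] z) ∧ AnnLift (f^[n]) G := by
  induction n with
  | zero => exact ⟨Homeomorph.refl ℂ, fun _ => rfl, D6_refl⟩
  | succ n ih =>
    obtain ⟨G, hG, hGA⟩ := ih
    refine ⟨F.trans G, fun z => ?_, ?_⟩
    · rw [Function.iterate_succ_apply]
      exact hG (F z)
    · rw [Function.iterate_succ]
      exact D6_comp hF hGA

theorem homIso_symm (F : ℂ ≃ₜ ℂ) (hI : HomIso F) : HomIso F.symm := by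
  obtain ⟨H, Hc, Hi, H0, H1⟩ := hI
  refine ⟨fun t z => H (1 - t) (F.symm z), ?_, ?_, ?_, ?_⟩
  · exact Hc.comp (f := fun p : ℝ × ℂ => (1 - p.1, F.symm p.2))
      ((continuous_const.sub continuous_fst).prodMk (F.symm.continuous.comp continuous_snd))
  · intro t z w hzw
    exact F.symm.injective (Hi _ hzw)
  · intro z
    show H (1 - 0) (F.symm z) = z
    rw [sub_zero, H1, F.apply_symm_apply]
  · intro z
    show H (1 - 1) (F.symm z) = F.symm z
    rw [sub_self, H0]

theorem annLift_symm {F : ℂ ≃ₜ ℂ} (hF : AnnLift f F) (hf0 : f 0 = 0) (hgc : ContinuousOn g Dsk)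
    (hgm : MapsTo g Dsk Dsk) (hgf : ∀ z ∈ Dsk, g (f z) = z) (hfg : ∀ z ∈ Dsk, f (g z) = z)
    (hgb : ∀ z : ℂ, ‖z‖ = 1 → ‖g z‖ = 1) : AnnLift g F.symm := by
  have hstrip : ∀ z ∈ Strip, F.symm z ∈ Strip := by
    intro z hz
    set w := F.symm z with hw
    have hFw : F w = z := F.apply_symm_apply z
    have hwe : w = (w.re : ℂ) + (w.im : ℂ) * I := (Complex.re_add_im w).symm
    by_contra hcon
    rcases lt_or_ge w.im 0 with h0 | h0
    · have h1 := hF.low w.re w.im h0.le
      rw [← hwe, hFw] at h1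
      have h2 := congrArg Complex.im h1
      rw [add_im, hF.low0] at h2
      simp at h2
      have h3 := hz.1
      linarith
    · rcases lt_or_ge 1 w.im with h1 | h1
      · have h2 := hF.high w.re w.im h1.le
        rw [← hwe, hFw] at h2
        have h3 := congrArg Complex.im h2
        rw [add_im, hF.high0] at h3
        simp at h3
        have h4 := hz.2
        linarith
      · exact hcon ⟨h0, h1⟩
  have hg0 : g 0 = 0 := by
    have h1 := hgf 0 (by simp)
    rwa [hf0] at h1
  have hproj : ∀ z ∈ Strip, pr (F.symm z) = g (pr z) := by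
    intro z hz
    have h1 := hstrip z hz
    have h2 := hF.proj _ h1
    rw [F.apply_symm_apply] at h2
    rw [h2, hgf _ (pr_mem h1)]
  have hlow0 : ∀ x : ℝ, (F.symm (x : ℂ)).im = 0 := by
    intro x
    have h1 := hstrip _ (D6_strip_real x)
    have h2 := hproj _ (D6_strip_real x)
    have h3 : pr (x : ℂ) = 0 := by
      rw [← norm_eq_zero, norm_pr (D6_strip_real x), ofReal_im]
    rw [h3, hg0] at h2
    rw [← norm_pr h1, h2, norm_zero]
  have hhigh0 : ∀ x : ℝ, (F.symm ((x : ℂ) + I)).im = 1 := by
    intro x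
    have h1 := hstrip _ (D6_strip_top x)
    have h2 := hproj _ (D6_strip_top x)
    have h3 : ‖pr ((x : ℂ) + I)‖ = 1 := by
      rw [norm_pr (D6_strip_top x)]
      simp
    rw [← norm_pr h1, h2, hgb _ h3]
  refine
    { iso := homIso_symm F hF.iso
      per := ?_
      low := ?_
      low0 := hlow0
      high := ?_
      high0 := hhigh0
      strip := hstrip
      proj := hproj
      cont := hgc
      bij := ⟨hgm, ?_, ?_⟩
      vol := ?_ }
  · intro z
    rw [Homeomorph.symm_apply_eq, hF.per, F.apply_symm_apply]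
  · intro x r hr
    rw [Homeomorph.symm_apply_eq, D6_real (hlow0 x), hF.low _ r hr, ← D6_real (hlow0 x),
      F.apply_symm_apply]
  · intro x r hr
    have h1 := D6_top (hhigh0 x)
    rw [Homeomorph.symm_apply_eq, h1]
    have h2 : (((F.symm ((x : ℂ) + I)).re : ℝ) : ℂ) + I + ((r : ℂ) - 1) * I =
        (((F.symm ((x : ℂ) + I)).re : ℝ) : ℂ) + r * I := by ring
    rw [h2, hF.high _ r hr, ← h1, F.apply_symm_apply]
    ring
  · intro z hz w hw hzw
    rw [← hfg z hz, ← hfg w hw, hzw]
  · intro z hz
    exact ⟨f z, hF.bij.mapsTo hz, hgf z hz⟩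
  · intro E hE hm
    have hinj : InjOn g E := by
      intro z hz w hw hzw
      rw [← hfg z (hE hz), ← hfg w (hE hw), hzw]
    have h1 : g '' E ⊆ Dsk := by
      rintro _ ⟨z, hz, rfl⟩
      exact hgm (hE hz)
    have h2 : MeasurableSet (g '' E) := hm.image_of_continuousOn_injOn (hgc.mono hE) hinj
    have h3 : f '' (g '' E) = E := by
      ext z
      constructor
      · rintro ⟨_, ⟨w, hw, rfl⟩, rfl⟩
        rw [hfg w (hE hw)]
        exact hw
      · intro hz
        exact ⟨g z, ⟨z, hz, rfl⟩, hfg z (hE hz)⟩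
    rw [← hF.vol _ h1 h2, h3]

end Pool.Agent.H70.PR
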