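import Pool.Agent.H70.PR.C5

/-!
# PR module D7: translation numbers on the two boundary lines (200 lines)

`exists_top`: `φ x = (F (x + I)).re`: continuous, injective (`F` injective and `im = 1`), `φ (x+1) = φ x + 1`,
so strictly monotone (`Continuous.strictMono_of_inj` + growth). `exists_bot` the same with `F (x : ℂ)`.
`topNum_iter`: `φ ^ n` (`CircleDeg1Lift.coe_pow`, `translationNumber_pow`). `topNum_shift`:
`CircleDeg1Lift.translate` or direct: `(φ + k)`; `translationNumber_translate`, mul of commuting.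
`topNum_symm`: with `ψ` from `exists_top` for `F.symm`: `ψ (φ x) = x`, so `ψ * φ = 1`; the translation numbers add
(`translationNumber_mul_of_commute`).
`far_of_top`: `CircleDeg1Lift.tendsto_translationNumber φ 0`: `(φ^n 0 - 0)/n → τ`; `F^[n] (I) = φ^[n] 0 + I`, `I ∈ Strip`.
`topNum_of_hasRot`: `e (ψ x) = f (e x) = pr (F (x + I)) = e (φ x)`; so `ψ x - φ x` is an integer, continuous in
`x`, hence a constant `k`; `ψ = φ + k`.
-/

open Complex Set Metric Topology Filter MeasureTheory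
open Pool.Agent.H25.PR

namespace Pool.Agent.H70.PR

variable {f g : ℂ → ℂ}

private theorem D7_line {F : ℂ ≃ₜ ℂ} (hper : ∀ z, F (z + 1) = F z + 1) (c : ℂ) (y : ℝ)
    (him : ∀ x : ℝ, (F ((x : ℂ) + c)).im = y) :
    ∃ φ : CircleDeg1Lift, Continuous φ ∧ ∀ x : ℝ, φ x = (F ((x : ℂ) + c)).re := by
  have hcont : Continuous (fun x : ℝ => (F ((x : ℂ) + c)).re) := by
    have h1 : Continuous (fun x : ℝ => F ((x : ℂ) + c)) :=
      F.continuous.comp (Complex.continuous_ofReal.add continuous_const)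
    exact Complex.continuous_re.comp h1
  have hinj : Function.Injective (fun x : ℝ => (F ((x : ℂ) + c)).re) := by
    intro x x' h
    have h1 : F ((x : ℂ) + c) = F ((x' : ℂ) + c) := by
      apply Complex.ext
      · exact h
      · rw [him, him]
    have h2 := F.injective h1
    have h3 : (x : ℂ) = x' := add_right_cancel h2
    exact_mod_cast h3
  have hone : ∀ x : ℝ, (F (((x + 1 : ℝ) : ℂ) + c)).re = (F ((x : ℂ) + c)).re + 1 := by
    intro x
    have h1 : (((x + 1 : ℝ) : ℂ) + c) = ((x : ℂ) + c) + 1 := by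
      push_cast
      ring
    rw [h1, hper]
    simp
  have hmono : StrictMono (fun x : ℝ => (F ((x : ℂ) + c)).re) := by
    rcases hcont.strictMono_of_inj hinj with h | h
    · exact h
    · exfalso
      have h1 := h (show (0 : ℝ) < 0 + 1 by norm_num)
      simp only [hone] at h1
      linarith
  exact ⟨⟨⟨fun x : ℝ => (F ((x : ℂ) + c)).re, hmono.monotone⟩, hone⟩, hcont, fun x => rfl⟩

private theorem D7_shift (φ : CircleDeg1Lift) (k : ℤ) :
    ∃ ψ : CircleDeg1Lift, (∀ x, ψ x = φ x + k) ∧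
      CircleDeg1Lift.translationNumber ψ = CircleDeg1Lift.translationNumber φ + k := by
  refine ⟨(CircleDeg1Lift.translate (Multiplicative.ofAdd (k : ℝ)) : CircleDeg1Lift) * φ,
    fun x => ?_, ?_⟩
  · rw [CircleDeg1Lift.mul_apply, CircleDeg1Lift.translate_apply, add_comm]
  · rw [CircleDeg1Lift.translationNumber_mul_of_commute, CircleDeg1Lift.translationNumber_translate,
      add_comm]
    rw [CircleDeg1Lift.commute_iff_commute]
    intro x
    rw [CircleDeg1Lift.translate_apply, CircleDeg1Lift.translate_apply, φ.map_int_add]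

private theorem D7_grow (φ : CircleDeg1Lift) {τ σ : ℝ}
    (h : CircleDeg1Lift.translationNumber φ = τ) (hτ : 0 < σ * τ) (M : ℝ) :
    ∃ l : ℕ, 1 ≤ l ∧ M < σ * (φ ^ l) 0 := by
  obtain ⟨l, hl⟩ := exists_nat_gt (max 1 ((M + |σ|) / (σ * τ)))
  have h1 : (1 : ℝ) < l := (le_max_left _ _).trans_lt hl
  have h2 : (M + |σ|) / (σ * τ) < l := (le_max_right _ _).trans_lt hl
  rw [div_lt_iff₀ hτ] at h2
  refine ⟨l, by exact_mod_cast h1.le, ?_⟩
  have h3 := φ.dist_pow_map_zero_mul_translationNumber_le l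
  rw [Real.dist_eq, h] at h3
  have h4 : |σ * ((φ ^ l) 0 - l * τ)| ≤ |σ| := by
    rw [abs_mul]
    exact mul_le_of_le_one_right (abs_nonneg _) h3
  have h5 := (abs_le.1 h4).1
  nlinarith [h5, h2]

private theorem D7_iter_top {F : ℂ → ℂ} {φ : CircleDeg1Lift}
    (h : ∀ x : ℝ, F ((x : ℂ) + I) = (φ x : ℂ) + I) (n : ℕ) (x : ℝ) :
    F^[n] ((x : ℂ) + I) = (((φ ^ n : CircleDeg1Lift) x : ℝ) : ℂ) + I := by
  induction n with
  | zero => simp
  | succ n ih =>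
    rw [Function.iterate_succ_apply', ih, h, pow_succ', CircleDeg1Lift.mul_apply]

private theorem D7_iter_bot {F : ℂ → ℂ} {φ : CircleDeg1Lift}
    (h : ∀ x : ℝ, F (x : ℂ) = (φ x : ℂ)) (n : ℕ) (x : ℝ) :
    F^[n] (x : ℂ) = (((φ ^ n : CircleDeg1Lift) x : ℝ) : ℂ) := by
  induction n with
  | zero => simp
  | succ n ih =>
    rw [Function.iterate_succ_apply', ih, h, pow_succ', CircleDeg1Lift.mul_apply]

theorem exists_top {F : ℂ ≃ₜ ℂ} (hF : AnnLift f F) : ∃ τ, TopNum F τ := by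
  obtain ⟨φ, hc, hφ⟩ := D7_line hF.per I 1 hF.high0
  refine ⟨CircleDeg1Lift.translationNumber φ, φ, hc, fun x => ?_, rfl⟩
  apply Complex.ext
  · simp [hφ]
  · rw [hF.high0]
    simp

theorem exists_bot {F : ℂ ≃ₜ ℂ} (hF : AnnLift f F) : ∃ τ, BotNum F τ := by
  obtain ⟨φ, hc, hφ⟩ := D7_line hF.per 0 0 (fun x => by rw [add_zero]; exact hF.low0 x)
  refine ⟨CircleDeg1Lift.translationNumber φ, φ, hc, fun x => ?_, rfl⟩
  apply Complex.ext
  · rw [hφ, add_zero]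
    simp
  · rw [hF.low0]
    simp

theorem topNum_shift {F G : ℂ → ℂ} {τ : ℝ} (h : TopNum F τ) (k : ℤ) (hG : ∀ z, G z = F z + k) :
    TopNum G (τ + k) := by
  obtain ⟨φ, hc, hφ, hτ⟩ := h
  obtain ⟨ψ, hψ, hψτ⟩ := D7_shift φ k
  refine ⟨ψ, ?_, fun x => ?_, by rw [hψτ, hτ]⟩
  · have : (ψ : ℝ → ℝ) = fun x => φ x + k := funext hψ
    rw [this]
    exact hc.add continuous_const
  · rw [hG, hφ, hψ]
    push_cast
    ring

theorem botNum_shift {F G : ℂ → ℂ} {τ : ℝ} (h : BotNum F τ) (k : ℤ) (hG : ∀ z, G z = F z + k) :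
    BotNum G (τ + k) := by
  obtain ⟨φ, hc, hφ, hτ⟩ := h
  obtain ⟨ψ, hψ, hψτ⟩ := D7_shift φ k
  refine ⟨ψ, ?_, fun x => ?_, by rw [hψτ, hτ]⟩
  · have : (ψ : ℝ → ℝ) = fun x => φ x + k := funext hψ
    rw [this]
    exact hc.add continuous_const
  · rw [hG, hφ, hψ]
    push_cast
    ring

theorem topNum_iter {F G : ℂ → ℂ} {τ : ℝ} (h : TopNum F τ) (n : ℕ) (hG : ∀ z, G z = F^[n] z) :
    TopNum G (n * τ) := by
  obtain ⟨φ, hc, hφ, hτ⟩ := h
  refine ⟨φ ^ n, φ.continuous_pow hc n, fun x => ?_, ?_⟩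
  · rw [hG, D7_iter_top hφ]
  · rw [CircleDeg1Lift.translationNumber_pow, hτ]

theorem botNum_iter {F G : ℂ → ℂ} {τ : ℝ} (h : BotNum F τ) (n : ℕ) (hG : ∀ z, G z = F^[n] z) :
    BotNum G (n * τ) := by
  obtain ⟨φ, hc, hφ, hτ⟩ := h
  refine ⟨φ ^ n, φ.continuous_pow hc n, fun x => ?_, ?_⟩
  · rw [hG, D7_iter_bot hφ]
  · rw [CircleDeg1Lift.translationNumber_pow, hτ]

theorem topNum_symm {F : ℂ ≃ₜ ℂ} {τ : ℝ} (hG : AnnLift g F.symm) (h : TopNum F τ) :
    TopNum F.symm (-τ) := by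
  obtain ⟨φ, hc, hφ, hτ⟩ := h
  obtain ⟨τ', ψ, hψc, hψ, hτ'⟩ := exists_top hG
  have h1 : ψ * φ = 1 := by
    ext x
    rw [CircleDeg1Lift.mul_apply, CircleDeg1Lift.coe_one, id]
    have h2 := F.symm_apply_apply ((x : ℂ) + I)
    rw [hφ, hψ] at h2
    have h3 : ((ψ (φ x) : ℝ) : ℂ) = x := add_right_cancel h2
    exact_mod_cast h3
  have h2 : φ * ψ = 1 := by
    ext x
    rw [CircleDeg1Lift.mul_apply, CircleDeg1Lift.coe_one, id]
    have h2 := F.apply_symm_apply ((x : ℂ) + I)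
    rw [hψ, hφ] at h2
    have h3 : ((φ (ψ x) : ℝ) : ℂ) = x := add_right_cancel h2
    exact_mod_cast h3
  have h3 : Commute ψ φ := by
    rw [Commute, SemiconjBy, h1, h2]
  have h4 := CircleDeg1Lift.translationNumber_mul_of_commute h3
  rw [h1, CircleDeg1Lift.translationNumber_one, hτ] at h4
  refine ⟨ψ, hψc, hψ, by linarith⟩

theorem far_of_top {F : ℂ → ℂ} {τ σ : ℝ} (h : TopNum F τ) (hτ : 0 < σ * τ) : Far F σ := by
  intro M
  obtain ⟨φ, hc, hφ, hφτ⟩ := h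
  obtain ⟨l, hl, hM⟩ := D7_grow φ hφτ hτ M
  refine ⟨((0 : ℝ) : ℂ) + I, ⟨by simp, by simp⟩, l, hl, ?_⟩
  rw [D7_iter_top hφ]
  simpa using hM

theorem far_of_bot {F : ℂ → ℂ} {τ σ : ℝ} (h : BotNum F τ) (hτ : 0 < σ * τ) : Far F σ := by
  intro M
  obtain ⟨φ, hc, hφ, hφτ⟩ := h
  obtain ⟨l, hl, hM⟩ := D7_grow φ hφτ hτ M
  refine ⟨((0 : ℝ) : ℂ), ⟨by simp, by simp⟩, l, hl, ?_⟩
  rw [D7_iter_bot hφ]
  simpa using hM

theorem botNum_ne {F : ℂ → ℂ} {τ : ℝ} (h : BotNum F τ) (hτ : τ ≠ 0) (x : ℝ) :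
    F (x : ℂ) ≠ (x : ℂ) := by
  obtain ⟨φ, hc, hφ, hφτ⟩ := h
  intro h1
  rw [hφ] at h1
  have h2 : φ x = x := by exact_mod_cast h1
  have h3 := CircleDeg1Lift.translationNumber_of_eq_add_int (f := φ) (x := x) (m := 0)
    (by rw [h2]; simp)
  rw [hφτ] at h3
  exact hτ (by simpa using h3)

private theorem D7_const {u : ℝ → ℝ} (hu : Continuous u) (h : ∀ x, ∃ k : ℤ, u x = k) (x y : ℝ) :
    ¬ u x < u y := by
  intro hlt
  obtain ⟨a, ha⟩ := h x
  obtain ⟨b, hb⟩ := h y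
  have hab : a < b := by
    rw [ha, hb] at hlt
    exact_mod_cast hlt
  have hab' : (a : ℝ) + 1 ≤ b := by exact_mod_cast hab
  have h1 : (a : ℝ) + 1 / 2 ∈ Set.Icc (u x) (u y) := by
    rw [ha, hb]
    constructor <;> linarith
  obtain ⟨z, hz⟩ := mem_range_of_exists_le_of_exists_ge hu ⟨x, h1.1⟩ ⟨y, h1.2⟩
  obtain ⟨c, hc⟩ := h z
  rw [hz] at hc
  have h2 : (2 * a + 1 : ℤ) = 2 * c := by
    have : (2 * (a : ℝ) + 1) = 2 * c := by linarith
    exact_mod_cast this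
  omega

theorem topNum_of_hasRot {F : ℂ ≃ₜ ℂ} (hF : AnnLift f F) {α : ℝ} (hr : HasRot f α) :
    ∃ k : ℤ, TopNum F (α + k) := by
  obtain ⟨ψ, hψc, hψ, hψτ⟩ := hr
  obtain ⟨τ, φ, hc, hφ, hτ⟩ := exists_top hF
  have h1 : ∀ x : ℝ, ∃ k : ℤ, φ x - ψ x = k := by
    intro x
    have h2 := hF.proj ((x : ℂ) + I) ⟨by simp, by simp⟩
    rw [hφ] at h2
    have h3 : ∀ t : ℝ, pr ((t : ℂ) + I) = e t := by
      intro t
      unfold pr
      simp
    rw [h3, h3, hψ] at h2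
    obtain ⟨k, hk⟩ := (e_eq_iff _ _).1 h2
    exact ⟨k, by rw [hk]; ring⟩
  obtain ⟨k, hk⟩ := h1 0
  have h4 : ∀ x : ℝ, φ x = ψ x + k := by
    intro x
    have h5 := D7_const (u := fun x => φ x - ψ x) (hc.sub hψc) h1 x 0
    have h6 := D7_const (u := fun x => φ x - ψ x) (hc.sub hψc) h1 0 x
    simp only [not_lt] at h5 h6
    have h7 : φ x - ψ x = φ 0 - ψ 0 := le_antisymm h6 h5
    rw [hk] at h7
    linarith
  obtain ⟨ρ, hρ, hρτ⟩ := D7_shift ψ k
  have h8 : φ = ρ := by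
    ext x
    rw [h4, hρ]
  refine ⟨k, φ, hc, hφ, ?_⟩
  rw [h8, hρτ, hψτ]

end Pool.Agent.H70.PR
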