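import Pool.Agent.H70.PR.C7
import Pool.Agent.H70.PR.D6
import Pool.Agent.H70.PR.D7

/-!
# PR module D8: no fixed points; the two translation numbers agree (120 lines)

`noFix_of`: let `F z = z`, `z = x + r I`. If `0 < r ≤ 1`: `f (pr z) = pr (F z) = pr z`, `pr z ≠ 0` (`norm_pr`):
contradiction to `NoPer` (`n = 1`). If `r ≤ 0`: `F x + r I = x + r I`, so `F x = x`: `botNum_ne`. If `1 < r`:
`F (x + I) = x + I` (`high`), the first case.
`bot_eq_top`: if `t0 ≠ t1` there is a rational `k/n` (`n ≥ 1`) strictly between. `G = F^n - k` is a lift of `f^n`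
(`annLift_iter`, `annLift_shift`), `TopNum G (n t1 - k)`, `BotNum G (n t0 - k)`, opposite signs, both nonzero.
`NoPer (f^n)`. `noFix_of` for `G`; `far_of_top`, `far_of_bot` give `Far G 1` and `Far G (-1)`; `annLift_sign`.
-/

open Complex Set Metric Topology Filter MeasureTheory
open Pool.Agent.H25.PR

namespace Pool.Agent.H70.PR

variable {f g : ℂ → ℂ}

theorem noPer_iter (hn : NoPer f) (n : ℕ) (h1 : 1 ≤ n) : NoPer (f^[n]) := by
  intro m hm z hz h
  rw [← Function.iterate_mul] at h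
  exact hn (n * m) (Nat.mul_pos h1 hm) z hz h

private theorem D8_strip {F : ℂ ≃ₜ ℂ} (hF : AnnLift f F) (hn : NoPer f) {z : ℂ} (h0 : 0 < z.im)
    (h1 : z.im ≤ 1) : F z ≠ z := by
  intro h
  have hz : z ∈ Strip := ⟨h0.le, h1⟩
  have h2 := hF.proj z hz
  rw [h] at h2
  have h3 : ‖pr z‖ = z.im := norm_pr hz
  have h4 : pr z ∈ Dsk := by
    rw [mem_closedBall_zero_iff, h3]
    exact h1
  have h5 : pr z = 0 := hn 1 le_rfl (pr z) h4 (by rw [Function.iterate_one]; exact h2.symm)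
  rw [h5, norm_zero] at h3
  linarith

theorem noFix_of {F : ℂ ≃ₜ ℂ} (hF : AnnLift f F) (hn : NoPer f) {t0 : ℝ} (h0 : BotNum F t0)
    (ht : t0 ≠ 0) : NoFix F := by
  intro z h
  rcases le_or_gt z.im 0 with h1 | h1
  · have h2 := hF.low z.re z.im h1
    rw [re_add_im, h] at h2
    refine botNum_ne h0 ht z.re ?_
    have h3 : F (z.re : ℂ) + (z.im : ℂ) * I = (z.re : ℂ) + (z.im : ℂ) * I := by
      rw [re_add_im]
      exact h2.symm
    exact add_right_cancel h3
  · rcases le_or_gt z.im 1 with h2 | h2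
    · exact D8_strip hF hn h1 h2 h
    · have h3 := hF.high z.re z.im h2.le
      rw [re_add_im, h] at h3
      have h4 : F ((z.re : ℂ) + I) = (z.re : ℂ) + I := by
        have h5 : F ((z.re : ℂ) + I) + ((z.im : ℂ) - 1) * I =
            (z.re : ℂ) + I + ((z.im : ℂ) - 1) * I := by
          rw [← h3]
          nth_rewrite 1 [← re_add_im z]
          ring
        exact add_right_cancel h5
      refine D8_strip hF hn (z := (z.re : ℂ) + I) ?_ ?_ h4
      · simp
      · simp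

theorem bot_eq_top {F : ℂ ≃ₜ ℂ} (hF : AnnLift f F) (hn : NoPer f) {t0 t1 : ℝ}
    (h0 : BotNum F t0) (h1 : TopNum F t1) : t0 = t1 := by
  by_contra hne
  -- a rational between
  obtain ⟨q, hq⟩ : ∃ q : ℚ, (t0 < q ∧ (q : ℝ) < t1) ∨ (t1 < q ∧ (q : ℝ) < t0) := by
    rcases lt_or_gt_of_ne hne with h | h
    · obtain ⟨q, hq1, hq2⟩ := exists_rat_btwn h
      exact ⟨q, Or.inl ⟨hq1, hq2⟩⟩
    · obtain ⟨q, hq1, hq2⟩ := exists_rat_btwn h
      exact ⟨q, Or.inr ⟨hq1, hq2⟩⟩
  have hden : (0 : ℝ) < q.den := by exact_mod_cast q.den_pos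
  have hqn : (q : ℝ) * q.den = q.num := by
    have h2 : q * q.den = q.num := Rat.mul_den_eq_num q
    exact_mod_cast h2
  obtain ⟨G, hG, hGl⟩ := annLift_iter hF q.den
  obtain ⟨H, hH, hHl⟩ := annLift_shift hGl (-q.num)
  have hnp : NoPer (f^[q.den]) := noPer_iter hn q.den q.den_pos
  have b1 : BotNum G (q.den * t0) := botNum_iter h0 q.den hG
  have b2 : BotNum H (q.den * t0 + ((-q.num : ℤ) : ℝ)) := botNum_shift b1 (-q.num) hH
  have p1 : TopNum G (q.den * t1) := topNum_iter h1 q.den hG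
  have p2 : TopNum H (q.den * t1 + ((-q.num : ℤ) : ℝ)) := topNum_shift p1 (-q.num) hH
  have e0 : (q.den : ℝ) * t0 + ((-q.num : ℤ) : ℝ) = q.den * (t0 - q) := by
    push_cast
    rw [← hqn]
    ring
  have e1 : (q.den : ℝ) * t1 + ((-q.num : ℤ) : ℝ) = q.den * (t1 - q) := by
    push_cast
    rw [← hqn]
    ring
  rw [e0] at b2
  rw [e1] at p2
  have key : NoFix H := by
    refine noFix_of hHl hnp b2 ?_
    apply mul_ne_zero hden.ne'
    rcases hq with ⟨h2, _⟩ | ⟨_, h2⟩
    · exact (sub_neg.2 h2).ne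
    · exact (sub_pos.2 h2).ne'
  rcases hq with ⟨h2, h3⟩ | ⟨h2, h3⟩
  · refine annLift_sign hHl key (far_of_top p2 ?_) (far_of_bot b2 ?_)
    · rw [one_mul]
      exact mul_pos hden (sub_pos.2 h3)
    · have := mul_pos hden (sub_pos.2 h2)
      linarith
  · refine annLift_sign hHl key (far_of_bot b2 ?_) (far_of_top p2 ?_)
    · rw [one_mul]
      exact mul_pos hden (sub_pos.2 h3)
    · have := mul_pos hden (sub_pos.2 h2)
      linarith

end Pool.Agent.H70.PR
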