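import Pool.Agent.H25.PR.DefsA
import Pool.Agent.H25.PR.Defs

/-!
# PR (MP_3addf4_an), definitions of parts C and D
Lifts of disc maps to the strip, brick systems, walks, rotation numbers.
Paper: /team-store/h25_pr_paper.md, sections C and D.
(`e t = exp (2 π i t)`, `Dsk` = closed unit disc are from `H25/PR/Defs.lean`.)
-/

open Complex Set Metric Topology Filter MeasureTheory
open Pool.Agent.H25.PR

namespace Pool.Agent.H70.PR

/-- the strip `0 ≤ Im z ≤ 1` -/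
def Strip : Set ℂ := {z | 0 ≤ z.im ∧ z.im ≤ 1}

/-- the projection of the strip onto the disc, `x + i r ↦ r e(x)` -/
noncomputable def pr (z : ℂ) : ℂ := (z.im : ℂ) * e z.re

/-- `F` is a lift of the area preserving bijection `f` of the disc to the plane: on the strip it
commutes with the projection `pr`, and it is extended by vertical translations. -/
structure AnnLift (f : ℂ → ℂ) (F : ℂ ≃ₜ ℂ) : Prop where
  iso : HomIso F
  per : ∀ z, F (z + 1) = F z + 1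
  low : ∀ x r : ℝ, r ≤ 0 → F ((x : ℂ) + r * I) = F (x : ℂ) + r * I
  low0 : ∀ x : ℝ, (F (x : ℂ)).im = 0
  high : ∀ x r : ℝ, 1 ≤ r → F ((x : ℂ) + r * I) = F ((x : ℂ) + I) + ((r : ℂ) - 1) * I
  high0 : ∀ x : ℝ, (F ((x : ℂ) + I)).im = 1
  strip : ∀ z ∈ Strip, F z ∈ Strip
  proj : ∀ z ∈ Strip, pr (F z) = f (pr z)
  cont : ContinuousOn f Dsk
  bij : BijOn f Dsk Dsk
  vol : ∀ E : Set ℂ, E ⊆ Dsk → MeasurableSet E → volume (f '' E) = volume E

/-- a periodic system of bricks for the strip: the translates `b i + k` cover it and have pairwise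
disjoint interiors -/
structure Bricks {ι : Type} (b : ι → Set ℂ) : Prop where
  conv : ∀ i, Convex ℝ (b i)
  comp : ∀ i, IsCompact (b i)
  int : ∀ i, (interior (b i)).Nonempty
  strip : ∀ i, b i ⊆ Strip
  cover : ∀ z ∈ Strip, ∃ i, ∃ k : ℤ, z - k ∈ b i
  disj : ∀ i j, ∀ k : ℤ, ∀ z ∈ interior (b i), z - k ∈ b j → i = j ∧ k = 0

/-- all bricks are free for `F` -/
def FreeB {ι : Type} (F : ℂ → ℂ) (b : ι → Set ℂ) : Prop := ∀ i, ∀ z ∈ b i, F z ∉ b i

/-- `F (b i)` meets `b j + m` -/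
def Edge {ι : Type} (F : ℂ → ℂ) (b : ι → Set ℂ) (i j : ι) (m : ℤ) : Prop :=
  ∃ z ∈ b i, F z - m ∈ b j

/-- nonempty walks, with their total displacement -/
inductive Walk {ι : Type} (F : ℂ → ℂ) (b : ι → Set ℂ) : ι → ι → ℤ → Prop
  | one {i j : ι} {m : ℤ} : Edge F b i j m → Walk F b i j m
  | cons {i j k : ι} {m n : ℤ} : Edge F b i j m → Walk F b j k n → Walk F b i k (m + n)

/-- points of the strip are moved arbitrarily far in direction `σ` (`σ = 1` or `σ = -1`) -/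
def Far (F : ℂ → ℂ) (σ : ℝ) : Prop :=
  ∀ M : ℝ, ∃ z ∈ Strip, ∃ l : ℕ, 1 ≤ l ∧ M < σ * ((F^[l] z).re - z.re)

/-- the cell `[p/N, (p+1)/N] × [q/N, (q+1)/N]` -/
def cell (N p q : ℕ) : Set ℂ :=
  {z | (p : ℝ) / N ≤ z.re ∧ z.re ≤ ((p : ℝ) + 1) / N ∧ (q : ℝ) / N ≤ z.im ∧ z.im ≤ ((q : ℝ) + 1) / N}

/-- translation number of `F` on the line `Im = 1` -/
def TopNum (F : ℂ → ℂ) (τ : ℝ) : Prop :=
  ∃ φ : CircleDeg1Lift, Continuous φ ∧ (∀ x : ℝ, F ((x : ℂ) + I) = (φ x : ℂ) + I) ∧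
    CircleDeg1Lift.translationNumber φ = τ

/-- translation number of `F` on the line `Im = 0` -/
def BotNum (F : ℂ → ℂ) (τ : ℝ) : Prop :=
  ∃ φ : CircleDeg1Lift, Continuous φ ∧ (∀ x : ℝ, F (x : ℂ) = (φ x : ℂ)) ∧
    CircleDeg1Lift.translationNumber φ = τ

/-- a homeomorphism `f` of the closed disc with inverse `g`, area preserving, fixing `0`, preserving
the boundary circle, differentiable at `0` with derivative `A` (inverse: `B`) of positive
determinant -/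
structure DiscHomeo (f g : ℂ → ℂ) (A B : ℂ →L[ℝ] ℂ) : Prop where
  fc : ContinuousOn f Dsk
  gc : ContinuousOn g Dsk
  fm : MapsTo f Dsk Dsk
  gm : MapsTo g Dsk Dsk
  gf : ∀ z ∈ Dsk, g (f z) = z
  fg : ∀ z ∈ Dsk, f (g z) = z
  f0 : f 0 = 0
  fb : ∀ z : ℂ, ‖z‖ = 1 → ‖f z‖ = 1
  gb : ∀ z : ℂ, ‖z‖ = 1 → ‖g z‖ = 1
  fA : HasFDerivAt f A 0
  gB : HasFDerivAt g B 0
  Apos : 0 < A.det
  Bpos : 0 < B.det
  vol : ∀ E : Set ℂ, E ⊆ Dsk → MeasurableSet E → volume (f '' E) = volume E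

/-- no periodic point in the disc besides `0` -/
def NoPer (f : ℂ → ℂ) : Prop := ∀ n : ℕ, 1 ≤ n → ∀ z ∈ Dsk, f^[n] z = z → z = 0

/-- the polar quotient `f (r e(x)) / (r e(x))`, continued to `r ≤ 0` by the derivative at `0` and
constantly to `r ≥ 1` -/
noncomputable def polQ (f : ℂ → ℂ) (A : ℂ →L[ℝ] ℂ) (x r : ℝ) : ℂ :=
  if r ≤ 0 then A (e x) / e x
  else f (((min r 1 : ℝ) : ℂ) * e x) / (((min r 1 : ℝ) : ℂ) * e x)

/-- the family of plane maps
`x + i r ↦ x + u x (s r) + i (min r 0 + (max r 0) * m x (s r))`; for `s = 1` this is the lift -/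
noncomputable def lft (u m : ℝ → ℝ → ℝ) (s : ℝ) (z : ℂ) : ℂ :=
  ((z.re + u z.re (s * z.im) : ℝ) : ℂ)
    + ((min z.im 0 + max z.im 0 * m z.re (s * z.im) : ℝ) : ℂ) * I

end Pool.Agent.H70.PR
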